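import Mathlib
import Pool.Agent.H826R2.Wein.Cpl
import Pool.Agent.TH811.J70
import Pool.Agent.TH811.J71
import Pool.Agent.TH596.J95
import Pool.Agent.TH592.J96
import Pool.Agent.TH592.J97
import Pool.Agent.TH592.J98
import Pool.Agent.TH592.J99

/-! Collected auxiliary results. -/

open scoped Topology ContDiff Manifold
open Set Metric Bundle Pool.Agent.Helper186 Pool.Agent.H826R2.Wein

noncomputable section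

namespace Pool.Agent.JobWT

set_option linter.unusedSectionVars false

universe u

variable {E : Type u} [NormedAddCommGroup E] [NormedSpace ℝ E] [FiniteDimensional ℝ E]
  {P : Type*} [TopologicalSpace P] [ChartedSpace E P] [IsManifold 𝓘(ℝ, E) ∞ P]

theorem complete_bounded [T2Space P] [SigmaCompactSpace P] {n : ℕ} {ι : Imm (E := E) P n}
    {Γ : Type*} [Group Γ] [MulAction Γ P] (𝒟 : Deck ι Γ)
    {W : (x : P) → TangentSpace 𝓘(ℝ, E) x}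
    (hW : ContMDiff 𝓘(ℝ, E) 𝓘(ℝ, E).tangent ∞ (fun x => (⟨x, W x⟩ : TangentBundle 𝓘(ℝ, E) P)))
    (hb : ∀ x, ‖ι.D x (W x)‖ ≤ 1) (x : P) :
    ∃ c : ℝ → P, c 0 = x ∧ IsMIntegralCurve (I := 𝓘(ℝ, E)) c W :=
  Pool.Agent.TH596.J95.complete_bounded 𝒟 hW hb x

theorem nf_manifold {κ c : P → Fin 3 → ℝ}
    (hκ : ∀ i, ContMDiff 𝓘(ℝ, E) 𝓘(ℝ, ℝ) ∞ (fun x => κ x i)) {x : P} {l : Fin 3} {O : Set P}
    (hO : IsOpen O) (hx : x ∈ O)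
    (hc : ∀ y ∈ O, ∀ (u : TangentSpace 𝓘(ℝ, E) y) (i : Fin 3),
      dForm 𝓘(ℝ, E) (fun z => κ z i) y u = dForm 𝓘(ℝ, E) (fun z => κ z l) y u * c y i)
    (hne : dForm 𝓘(ℝ, E) (fun z => κ z l) x ≠ 0) :
    ∃ ε > (0:ℝ), ∃ g : ℝ → Fin 3 → ℝ, ContDiffOn ℝ ∞ g (Ioo (κ x l - ε) (κ x l + ε)) ∧
      ∀ᶠ y in 𝓝 x, y ∈ O ∧ κ y l ∈ Ioo (κ x l - ε) (κ x l + ε) ∧ κ y = g (κ y l) ∧
        c y = deriv g (κ y l) :=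
  Pool.Agent.TH592.JobWT.nf_manifold hκ hO hx hc hne

theorem rational_direction_manifold {κ : P → Fin 3 → ℝ}
    (hκ : ∀ i, ContMDiff 𝓘(ℝ, E) 𝓘(ℝ, ℝ) ∞ (fun x => κ x i)) {x : P}
    (u v : TangentSpace 𝓘(ℝ, E) x)
    (h : crossProduct (fun i => dForm 𝓘(ℝ, E) (fun z => κ z i) x u)
      (fun i => dForm 𝓘(ℝ, E) (fun z => κ z i) x v) ⬝ᵥ κ x ≠ 0) :
    ∃ (y : P) (k : Fin 3 → ℤ), k ≠ 0 ∧ ∃ t : ℝ, κ y = t • (fun i => (k i : ℝ)) :=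
  Pool.Agent.TH592.JobWT.rational_direction_manifold hκ u v h

theorem map_nhds_of_surj {E' : Type*} [NormedAddCommGroup E'] [NormedSpace ℝ E']
    [FiniteDimensional ℝ E'] {Ψ : E' → P} {p : E'} (hΨ : ContMDiffAt 𝓘(ℝ, E') 𝓘(ℝ, E) ∞ Ψ p)
    (hs : Function.Surjective (fun v : E' => (mfderiv 𝓘(ℝ, E') 𝓘(ℝ, E) Ψ p v : E))) :
    Filter.map Ψ (𝓝 p) = 𝓝 (Ψ p) :=
  Pool.Agent.TH592.JobWT.map_nhds_of_surj hΨ hs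

theorem const_of_dForm_zero [ConnectedSpace P] {f : P → ℝ}
    (hf : ContMDiff 𝓘(ℝ, E) 𝓘(ℝ, ℝ) ∞ f) (h : ∀ x, dForm 𝓘(ℝ, E) f x = 0) (x y : P) :
    f x = f y :=
  Pool.Agent.TH592.JobWT.const_of_dForm_zero hf h x y

theorem short_paths {n : ℕ} (ι : Imm (E := E) P n) (y₀ : P) {ε : ℝ} (hε : 0 < ε) :
    ∃ O ∈ 𝓝 y₀, ∀ y ∈ O, ∀ y' ∈ O, ∃ p : ℝ → P, p 0 = y ∧ p 1 = y' ∧
      ∀ σ ∈ Icc (0:ℝ) 1, ∃ v : TangentSpace 𝓘(ℝ, E) (p σ),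
        HasMFDerivAt 𝓘(ℝ, ℝ) 𝓘(ℝ, E) p σ ((1 : ℝ →L[ℝ] ℝ).smulRight v) ∧
        ‖ι.D (p σ) v‖ ≤ ε :=
  Pool.Agent.TH592.JobWT.short_paths ι y₀ hε

end Pool.Agent.JobWT
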