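import Mathlib
import Pool.Agent.H826R2.Wein.Main2
import Pool.Agent.H826R2.Wein.Ham

/-! Calculus of differentials of functions on manifolds. -/

open scoped Topology ContDiff Manifold
open Set Metric Bundle Pool.Agent.Helper186 Pool.Agent.H826R2.Wein

noncomputable section

namespace Pool.Agent.TH607

set_option linter.unusedSectionVars false

universe u

variable {E : Type u} [NormedAddCommGroup E] [NormedSpace ℝ E] [FiniteDimensional ℝ E]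
  {P : Type*} [TopologicalSpace P] [ChartedSpace E P] [IsManifold 𝓘(ℝ, E) ∞ P]

/-- smooth functions -/
abbrev Sm (f : P → ℝ) : Prop := ContMDiff 𝓘(ℝ, E) 𝓘(ℝ, ℝ) ∞ f

/-- differential in the preferred chart -/
lemma dForm_chart {f : P → ℝ} {x : P} (hf : MDifferentiableAt 𝓘(ℝ, E) 𝓘(ℝ, ℝ) f x)
    (u : TangentSpace 𝓘(ℝ, E) x) :
    dForm 𝓘(ℝ, E) f x u =
      fderiv ℝ (f ∘ (extChartAt 𝓘(ℝ, E) x).symm) (extChartAt 𝓘(ℝ, E) x x) (show E from u) :=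
  mfderiv_eq_fderiv_chart hf u

lemma diff_chart {f : P → ℝ} {x : P} (hf : MDifferentiableAt 𝓘(ℝ, E) 𝓘(ℝ, ℝ) f x) :
    DifferentiableAt ℝ (f ∘ (extChartAt 𝓘(ℝ, E) x).symm) (extChartAt 𝓘(ℝ, E) x x) := by
  have h := hf.differentiableWithinAt_writtenInExtChartAt
  simp only [writtenInExtChartAt, extChartAt_model_space_eq_id, PartialEquiv.refl_coe,
    ModelWithCorners.range_eq_univ, differentiableWithinAt_univ] at h
  exact h

lemma dForm_congr {f g : P → ℝ} {x : P} (h : f =ᶠ[𝓝 x] g) :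
    dForm 𝓘(ℝ, E) f x = dForm 𝓘(ℝ, E) g x := h.mfderiv_eq

/-- chain rule with a function of finitely many variables -/
lemma dForm_comp {I : Type*} [Fintype I] {f : P → I → ℝ} {x : P}
    (hf : ∀ i, MDifferentiableAt 𝓘(ℝ, E) 𝓘(ℝ, ℝ) (fun y => f y i) x) {G : (I → ℝ) → ℝ}
    {G' : (I → ℝ) →L[ℝ] ℝ} (hG : HasFDerivAt G G' (f x))
    (h3 : MDifferentiableAt 𝓘(ℝ, E) 𝓘(ℝ, ℝ) (fun y => G (f y)) x)
    (u : TangentSpace 𝓘(ℝ, E) x) :
    dForm 𝓘(ℝ, E) (fun y => G (f y)) x u =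
      G' (fun i => dForm 𝓘(ℝ, E) (fun y => f y i) x u) := by
  have h1 : HasFDerivAt (fun z => fun i => (f ((extChartAt 𝓘(ℝ, E) x).symm z) i))
      (ContinuousLinearMap.pi fun i => fderiv ℝ ((fun y => f y i) ∘
        (extChartAt 𝓘(ℝ, E) x).symm) (extChartAt 𝓘(ℝ, E) x x)) (extChartAt 𝓘(ℝ, E) x x) :=
    hasFDerivAt_pi.2 fun i => (diff_chart (hf i)).hasFDerivAt
  have hx : (extChartAt 𝓘(ℝ, E) x).symm (extChartAt 𝓘(ℝ, E) x x) = x :=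
    (extChartAt 𝓘(ℝ, E) x).left_inv (mem_extChartAt_source x)
  have h2 : HasFDerivAt (fun z => G (f ((extChartAt 𝓘(ℝ, E) x).symm z)))
      (G'.comp (ContinuousLinearMap.pi fun i => fderiv ℝ ((fun y => f y i) ∘
        (extChartAt 𝓘(ℝ, E) x).symm) (extChartAt 𝓘(ℝ, E) x x))) (extChartAt 𝓘(ℝ, E) x x) := by
    refine HasFDerivAt.comp _ ?_ h1
    rw [hx]
    exact hG
  rw [dForm_chart h3]
  have h5 := h2.fderiv
  show fderiv ℝ (fun z => G (f ((extChartAt 𝓘(ℝ, E) x).symm z))) _ _ = _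
  rw [h5]
  show G' _ = G' _
  congr 1
  ext i
  rw [dForm_chart (hf i)]
  rfl

lemma dForm_mul {f g : P → ℝ} {x : P} (hf : MDifferentiableAt 𝓘(ℝ, E) 𝓘(ℝ, ℝ) f x)
    (hg : MDifferentiableAt 𝓘(ℝ, E) 𝓘(ℝ, ℝ) g x) (u : TangentSpace 𝓘(ℝ, E) x) :
    dForm 𝓘(ℝ, E) (fun y => f y * g y) x u =
      f x * dForm 𝓘(ℝ, E) g x u + g x * dForm 𝓘(ℝ, E) f x u := by
  have h3 : MDifferentiableAt 𝓘(ℝ, E) 𝓘(ℝ, ℝ) (fun y => f y * g y) x := hf.mul hg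
  have hx : (extChartAt 𝓘(ℝ, E) x).symm (extChartAt 𝓘(ℝ, E) x x) = x :=
    (extChartAt 𝓘(ℝ, E) x).left_inv (mem_extChartAt_source x)
  rw [dForm_chart h3, dForm_chart hf, dForm_chart hg]
  have h1 := (diff_chart hf).hasFDerivAt.mul (diff_chart hg).hasFDerivAt
  have h2 := h1.fderiv
  have h4 := DFunLike.congr_fun h2 (show E from u)
  refine Eq.trans h4 ?_
  simp only [Function.comp, hx]
  rfl

lemma dForm_sum {I : Type} (s : Finset I) {f : I → P → ℝ} {x : P}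
    (hf : ∀ i ∈ s, MDifferentiableAt 𝓘(ℝ, E) 𝓘(ℝ, ℝ) (f i) x) (u : TangentSpace 𝓘(ℝ, E) x) :
    dForm 𝓘(ℝ, E) (fun y => ∑ i ∈ s, f i y) x u = ∑ i ∈ s, dForm 𝓘(ℝ, E) (f i) x u := by
  have h3 : MDifferentiableAt 𝓘(ℝ, E) 𝓘(ℝ, ℝ) (fun y => ∑ i ∈ s, f i y) x := by
    have e : (fun y => ∑ i ∈ s, f i y) = ∑ i ∈ s, f i := by
      ext1 y; rw [Finset.sum_apply]
    rw [e]
    exact MDifferentiableAt.sum hf
  rw [dForm_chart h3]
  have h1 := HasFDerivAt.fun_sum (u := s) (A := fun i => f i ∘ (extChartAt 𝓘(ℝ, E) x).symm)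
    (x := extChartAt 𝓘(ℝ, E) x x) (fun i hi => (diff_chart (hf i hi)).hasFDerivAt)
  have h2 := h1.fderiv
  have h4 := DFunLike.congr_fun h2 (show E from u)
  refine Eq.trans h4 ?_
  rw [_root_.sum_apply]
  exact Finset.sum_congr rfl fun i hi => (dForm_chart (hf i hi) u).symm

lemma dForm_const_mul (a : ℝ) {f : P → ℝ} {x : P}
    (hf : MDifferentiableAt 𝓘(ℝ, E) 𝓘(ℝ, ℝ) f x) (u : TangentSpace 𝓘(ℝ, E) x) :
    dForm 𝓘(ℝ, E) (fun y => a * f y) x u = a * dForm 𝓘(ℝ, E) f x u := by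
  have h1 := (hf.hasMFDerivAt).const_smul a
  have h2 := h1.mfderiv
  exact DFunLike.congr_fun h2 u

/-- chain rule with a function of one variable -/
lemma dForm_comp1 {f : P → ℝ} {x : P} (hf : MDifferentiableAt 𝓘(ℝ, E) 𝓘(ℝ, ℝ) f x) {φ : ℝ → ℝ}
    {φ' : ℝ} (hφ : HasDerivAt φ φ' (f x)) (u : TangentSpace 𝓘(ℝ, E) x) :
    MDifferentiableAt 𝓘(ℝ, E) 𝓘(ℝ, ℝ) (fun y => φ (f y)) x ∧
    dForm 𝓘(ℝ, E) (fun y => φ (f y)) x u = φ' * dForm 𝓘(ℝ, E) f x u := by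
  have h3 : MDifferentiableAt 𝓘(ℝ, E) 𝓘(ℝ, ℝ) (fun y => φ (f y)) x :=
    MDifferentiableAt.comp (I' := 𝓘(ℝ, ℝ)) x hφ.differentiableAt.mdifferentiableAt hf
  refine ⟨h3, ?_⟩
  have hx : (extChartAt 𝓘(ℝ, E) x).symm (extChartAt 𝓘(ℝ, E) x x) = x :=
    (extChartAt 𝓘(ℝ, E) x).left_inv (mem_extChartAt_source x)
  rw [dForm_chart h3, dForm_chart hf]
  have h1 : HasFDerivAt (fun z => φ ((f ∘ (extChartAt 𝓘(ℝ, E) x).symm) z))
      (φ' • fderiv ℝ (f ∘ (extChartAt 𝓘(ℝ, E) x).symm) (extChartAt 𝓘(ℝ, E) x x))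
      (extChartAt 𝓘(ℝ, E) x x) := by
    refine HasDerivAt.comp_hasFDerivAt _ ?_ (diff_chart hf).hasFDerivAt
    simp only [Function.comp, hx]
    exact hφ
  have h2 := h1.fderiv
  exact DFunLike.congr_fun h2 (show E from u)

lemma Sm.md {f : P → ℝ} (hf : Sm (E := E) f) (x : P) :
    MDifferentiableAt 𝓘(ℝ, E) 𝓘(ℝ, ℝ) f x := hf.mdifferentiableAt (by simp)

end Pool.Agent.TH607
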