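import Mathlib
import Pool.Agent.TH607.Calc

/-! The vector `κ(x)` with `R = X_κ` for a torus action of maximal rank. -/

open scoped Topology ContDiff Manifold
open Set Metric Bundle Matrix Pool.Agent.Helper186 Pool.Agent.H826R2.Wein

noncomputable section

namespace Pool.Agent.TH607

set_option linter.unusedSectionVars false

universe u

variable {E : Type u} [NormedAddCommGroup E] [NormedSpace ℝ E] [FiniteDimensional ℝ E]
  {P : Type*} [TopologicalSpace P] [ChartedSpace E P] [IsManifold 𝓘(ℝ, E) ∞ P]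
  {β : (x : P) → TangentSpace 𝓘(ℝ, E) x →L[ℝ] ℝ}

/-- differential of a vector valued function -/
def dv {I : Type*} (f : P → I → ℝ) (x : P) (u : TangentSpace 𝓘(ℝ, E) x) : I → ℝ :=
  fun i => dForm 𝓘(ℝ, E) (fun y => f y i) x u

lemma dv_add {I : Type*} (f : P → I → ℝ) (x : P) (u v : TangentSpace 𝓘(ℝ, E) x) :
    dv f x (u + v) = dv f x u + dv f x v := by
  ext i
  exact map_add (dForm 𝓘(ℝ, E) (fun y => f y i) x) u v

lemma dv_smul {I : Type*} (f : P → I → ℝ) (x : P) (a : ℝ) (u : TangentSpace 𝓘(ℝ, E) x) :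
    dv f x (a • u) = a • dv f x u := by
  ext i
  exact map_smul (dForm 𝓘(ℝ, E) (fun y => f y i) x) a u

section anym

variable {m : ℕ} (A : TAct β m)

/-- the momentum map -/
def ph (x : P) : Fin m → ℝ := fun i => A.H (Pi.single i 1) x

lemma H_eq (κ : Fin m → ℝ) (x : P) : A.H κ x = κ ⬝ᵥ ph A x := A.H_expand x κ

lemma sm_H (hβ : SmoothForm β) (κ : Fin m → ℝ) : Sm (E := E) (A.H κ) := A.smooth_H hβ κ

lemma sm_ph (hβ : SmoothForm β) (i : Fin m) : Sm (E := E) (fun x => ph A x i) :=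
  A.smooth_H hβ _

/-- the differential of the Hamiltonians as a linear map -/
def Lm (hβ : SmoothForm β) (x : P) : (Fin m → ℝ) →ₗ[ℝ] Module.Dual ℝ E where
  toFun := fun κ => (show E →L[ℝ] ℝ from dForm 𝓘(ℝ, E) (A.H κ) x : E →L[ℝ] ℝ).toLinearMap
  map_add' := fun κ κ' => by
    rw [A.dH_add hβ]; rfl
  map_smul' := fun c κ => by
    rw [A.dH_smul hβ]; rfl

lemma Lm_apply (hβ : SmoothForm β) (x : P) (κ : Fin m → ℝ) (u : TangentSpace 𝓘(ℝ, E) x) :
    Lm A hβ x κ u = dForm 𝓘(ℝ, E) (A.H κ) x u := rfl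

lemma dH_eq (hβ : SmoothForm β) (κ : Fin m → ℝ) (x : P) (u : TangentSpace 𝓘(ℝ, E) x) :
    dForm 𝓘(ℝ, E) (A.H κ) x u = κ ⬝ᵥ dv (ph A) x u := by
  have h := lin_expand ((Lm A hβ x).flip u) κ
  exact h

/-- the generators as a linear map -/
def Xl (x : P) : (Fin m → ℝ) →ₗ[ℝ] E where
  toFun := fun κ => (A.X κ x : E)
  map_add' := fun κ κ' => A.X_add κ κ' x
  map_smul' := fun c κ => A.X_smul c κ x

lemma Xl_inj (x : P) : Function.Injective (Xl A x) := by
  rw [injective_iff_map_eq_zero]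
  intro κ h
  by_contra hκ
  exact A.X_ne_zero hκ x h

/-- invariant functions are killed by the generators -/
lemma dForm_X {f : P → ℝ} (hf : Sm (E := E) f) (hinv : ∀ θ x, f (A.act θ x) = f x)
    (κ : Fin m → ℝ) (x : P) : dForm 𝓘(ℝ, E) f x (A.X κ x) = 0 := by
  have h1 := hasDerivAt_along (W := A.X κ) (c := fun t : ℝ => A.fam κ (t, x))
    (A.integral κ x 0) hf
  have h2 : (fun s : ℝ => f (A.fam κ (s, x))) = fun _ => f x := by
    ext1 s; exact hinv _ _
  rw [h2] at h1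
  have h3 := h1.unique (hasDerivAt_const (0:ℝ) (f x))
  have e : ∀ z : P, z = x → dForm 𝓘(ℝ, E) f z (A.X κ z) = dForm 𝓘(ℝ, E) f x (A.X κ x) := by
    rintro _ rfl; rfl
  rw [← e _ (A.fam_zero κ x)]
  exact h3

lemma dH_X (hβ : SmoothForm β) (κ κ' : Fin m → ℝ) (x : P) :
    dForm 𝓘(ℝ, E) (A.H κ) x (A.X κ' x) = 0 :=
  dForm_X A (A.smooth_H hβ κ) (fun θ x => A.H_act κ θ x) κ' x

/-- uniqueness: Hamiltonians critical at `x` and vanishing there -/
lemma eq_zero_of_crit (hc : IsContact β) {R : (x : P) → TangentSpace 𝓘(ℝ, E) x}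
    (hR : IsReeb β R) {κ : Fin m → ℝ} {x : P} (h : dForm 𝓘(ℝ, E) (A.H κ) x = 0)
    (h0 : A.H κ x = 0) : κ = 0 := by
  by_contra hκ
  exact A.H_ne_zero_of_crit hc hR hκ h h0

lemma finrank_ker_le (hc : IsContact β) {R : (x : P) → TangentSpace 𝓘(ℝ, E) x}
    (hR : IsReeb β R) (x : P) :
    Module.finrank ℝ (LinearMap.ker (Lm A hc.smooth x)) ≤ 1 := by
  rw [finrank_le_one_iff]
  by_cases h : ∃ κ, Lm A hc.smooth x κ = 0 ∧ κ ≠ 0
  · obtain ⟨κ, hκ, hne⟩ := h
    have hκ' : dForm 𝓘(ℝ, E) (A.H κ) x = 0 :=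
      ContinuousLinearMap.ext fun u => DFunLike.congr_fun hκ u
    have hH := A.H_ne_zero_of_crit hc hR hne hκ'
    refine ⟨⟨κ, hκ⟩, fun w => ⟨A.H w.1 x / A.H κ x, ?_⟩⟩
    apply Subtype.ext
    show (A.H w.1 x / A.H κ x) • κ = w.1
    have hw : Lm A hc.smooth x w.1 = 0 := w.2
    have h1 : Lm A hc.smooth x (w.1 - (A.H w.1 x / A.H κ x) • κ) = 0 := by
      rw [map_sub, map_smul, hw, hκ, smul_zero, sub_zero]
    have h2 : dForm 𝓘(ℝ, E) (A.H (w.1 - (A.H w.1 x / A.H κ x) • κ)) x = 0 :=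
      ContinuousLinearMap.ext fun u => DFunLike.congr_fun h1 u
    have h3 : A.H (w.1 - (A.H w.1 x / A.H κ x) • κ) x = 0 := by
      rw [A.H_sub, A.H_smul]
      field_simp
      ring
    exact (sub_eq_zero.1 (eq_zero_of_crit A hc hR h2 h3)).symm
  · push Not at h
    refine ⟨0, fun w => ⟨0, ?_⟩⟩
    apply Subtype.ext
    have := h w.1 w.2
    rw [smul_zero]
    exact this.symm

/-- dimension count -/
lemma two_mul_le (hβ : SmoothForm β) (x : P) :
    2 * m ≤ Module.finrank ℝ E + Module.finrank ℝ (LinearMap.ker (Lm A hβ x)) := by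
  set W := LinearMap.range (Xl A x) with hW
  have h1 : Module.finrank ℝ W = m := by
    rw [hW, LinearMap.finrank_range_of_inj (Xl_inj A x)]
    simp
  have h2 := Subspace.finrank_add_finrank_dualAnnihilator_eq W
  have h3 : LinearMap.range (Lm A hβ x) ≤ W.dualAnnihilator := by
    rintro _ ⟨κ, rfl⟩
    rw [Submodule.mem_dualAnnihilator]
    rintro _ ⟨κ', rfl⟩
    exact dH_X A hβ κ κ' x
  have h4 := Submodule.finrank_mono h3
  have h5 := LinearMap.finrank_range_add_finrank_ker (Lm A hβ x)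
  rw [Module.finrank_fin_fun] at h5
  omega

include A in
lemma rank_le (hc : IsContact β) {R : (x : P) → TangentSpace 𝓘(ℝ, E) x}
    (hR : IsReeb β R) (x : P) : 2 * m ≤ Module.finrank ℝ E + 1 :=
  (two_mul_le A hc.smooth x).trans (Nat.add_le_add_left (finrank_ker_le A hc hR x) _)

lemma exists_kap (hc : IsContact β) {R : (x : P) → TangentSpace 𝓘(ℝ, E) x}
    (hR : IsReeb β R) (hm : Module.finrank ℝ E < 2 * m) (x : P) :
    ∃ κ : Fin m → ℝ, dForm 𝓘(ℝ, E) (A.H κ) x = 0 ∧ A.H κ x = 1 := by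
  have h1 := two_mul_le A hc.smooth x
  have h2 : 0 < Module.finrank ℝ (LinearMap.ker (Lm A hc.smooth x)) := by omega
  obtain ⟨w, hw⟩ := Module.finrank_pos_iff_exists_ne_zero.1 h2
  have hw0 : w.1 ≠ 0 := fun h => hw (Subtype.ext h)
  have hw1 : dForm 𝓘(ℝ, E) (A.H w.1) x = 0 :=
    ContinuousLinearMap.ext fun u => DFunLike.congr_fun w.2 u
  have hH := A.H_ne_zero_of_crit hc hR hw0 hw1
  refine ⟨(A.H w.1 x)⁻¹ • w.1, ?_, ?_⟩
  · rw [A.dH_smul hc.smooth, hw1, smul_zero]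
  · rw [A.H_smul, inv_mul_cancel₀ hH]

end anym

end Pool.Agent.TH607
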