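import Mathlib

/-! Smoothness of matrix valued functions on manifolds. -/

open scoped Topology ContDiff Manifold
open Set Matrix

noncomputable section

namespace Pool.Agent.TH607

variable {E : Type*} [NormedAddCommGroup E] [NormedSpace ℝ E]
  {P : Type*} [TopologicalSpace P] [ChartedSpace E P]

lemma contDiffAt_inv_entry (M₀ : Fin 3 → Fin 3 → ℝ) (h : (Matrix.of M₀).det ≠ 0) (i j : Fin 3) :
    ContDiffAt ℝ ∞ (fun M : Fin 3 → Fin 3 → ℝ => ((Matrix.of M)⁻¹) i j) M₀ := by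
  have e : (fun M : Fin 3 → Fin 3 → ℝ => ((Matrix.of M)⁻¹) i j) =
      fun M : Fin 3 → Fin 3 → ℝ => ((Matrix.of M).det)⁻¹ * (Matrix.of M).adjugate i j := by
    ext M
    rw [Matrix.inv_def, Ring.inverse_eq_inv', Matrix.smul_apply, smul_eq_mul]
  rw [e]
  have h1 : ContDiff ℝ ∞ (fun M : Fin 3 → Fin 3 → ℝ => (Matrix.of M).det) := by
    simp only [Matrix.det_fin_three, Matrix.of_apply]
    fun_prop
  have h2 : ContDiff ℝ ∞ (fun M : Fin 3 → Fin 3 → ℝ => (Matrix.of M).adjugate i j) := by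
    simp only [Matrix.adjugate_fin_three, Matrix.of_apply]
    fin_cases i <;> fin_cases j <;> simp <;> fun_prop
  exact (h1.contDiffAt.inv h).mul h2.contDiffAt

lemma contMDiff_entries {M : P → Matrix (Fin 3) (Fin 3) ℝ}
    (hM : ∀ i j, ContMDiff 𝓘(ℝ, E) 𝓘(ℝ, ℝ) ∞ (fun x => M x i j)) :
    ContMDiff 𝓘(ℝ, E) 𝓘(ℝ, Fin 3 → Fin 3 → ℝ) ∞ (fun x => (fun i j => M x i j)) := by
  rw [contMDiff_pi_space]
  intro i
  rw [contMDiff_pi_space]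
  intro j
  exact hM i j

lemma contMDiff_inv_entry {M : P → Matrix (Fin 3) (Fin 3) ℝ}
    (hM : ∀ i j, ContMDiff 𝓘(ℝ, E) 𝓘(ℝ, ℝ) ∞ (fun x => M x i j))
    (hd : ∀ x, (M x).det ≠ 0) (i j : Fin 3) :
    ContMDiff 𝓘(ℝ, E) 𝓘(ℝ, ℝ) ∞ (fun x => (M x)⁻¹ i j) := by
  intro x
  have h1 := contDiffAt_inv_entry (fun i j => M x i j) (hd x) i j
  exact h1.contMDiffAt.comp x (contMDiff_entries hM x)

lemma contMDiff_det {M : P → Matrix (Fin 3) (Fin 3) ℝ}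
    (hM : ∀ i j, ContMDiff 𝓘(ℝ, E) 𝓘(ℝ, ℝ) ∞ (fun x => M x i j)) :
    ContMDiff 𝓘(ℝ, E) 𝓘(ℝ, ℝ) ∞ (fun x => (M x).det) := by
  have h1 : ContDiff ℝ ∞ (fun M : Fin 3 → Fin 3 → ℝ => (Matrix.of M).det) := by
    simp only [Matrix.det_fin_three, Matrix.of_apply]
    fun_prop
  exact h1.contMDiff.comp (contMDiff_entries hM)

lemma contMDiff_sum3 {f : Fin 3 → P → ℝ} (hf : ∀ i, ContMDiff 𝓘(ℝ, E) 𝓘(ℝ, ℝ) ∞ (f i)) :
    ContMDiff 𝓘(ℝ, E) 𝓘(ℝ, ℝ) ∞ (fun x => ∑ i, f i x) := by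
  simp only [Fin.sum_univ_three]
  exact ((hf 0).add (hf 1)).add (hf 2)

end Pool.Agent.TH607
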