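import Mathlib
import Pool.Agent.TH607.Kap
import Pool.Agent.TH607.MatSm

/-! Toric data in dimension five. -/

open scoped Topology ContDiff Manifold
open Set Metric Bundle Matrix Pool.Agent.Helper186 Pool.Agent.H826R2.Wein

noncomputable section

namespace Pool.Agent.TH607

set_option linter.unusedSectionVars false

universe u v w

/-- A contact five-manifold with a three-torus symmetry normalised by a cocompact group, without
critical points of the integral Hamiltonians. -/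
structure Tor (E : Type u) [NormedAddCommGroup E] [NormedSpace ℝ E] [FiniteDimensional ℝ E]
    (P : Type v) [TopologicalSpace P] [ChartedSpace E P] [IsManifold 𝓘(ℝ, E) ∞ P]
    (Γ : Type w) [Group Γ] [MulAction Γ P] where
  β : (x : P) → TangentSpace 𝓘(ℝ, E) x →L[ℝ] ℝ
  hc : IsContact β
  R : (x : P) → TangentSpace 𝓘(ℝ, E) x
  hR : IsReeb β R
  A : TAct β 3
  n : ℕ
  ι : Imm (E := E) P n
  𝒟 : Deck ι Γ
  hN : A.Norm Γ
  hd : Module.finrank ℝ E = 5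
  irr : ∀ k : Fin 3 → ℤ, k ≠ 0 → ∀ x, dForm 𝓘(ℝ, E) (A.H (TAct.rv k)) x ≠ 0
  B : Γ →* Matrix (Fin 3) (Fin 3) ℤ
  hB : ∀ (γ : Γ) (κ : Fin 3 → ℝ) (x : P),
      A.H (((B γ).map (Int.cast : ℤ → ℝ)).mulVec κ) (γ • x) = A.H κ x

namespace Tor

variable {E : Type u} [NormedAddCommGroup E] [NormedSpace ℝ E] [FiniteDimensional ℝ E]
  {P : Type v} [TopologicalSpace P] [ChartedSpace E P] [IsManifold 𝓘(ℝ, E) ∞ P]
  {Γ : Type w} [Group Γ] [MulAction Γ P] (T : Tor E P Γ)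

/-- the momentum map -/
def ph (x : P) : Fin 3 → ℝ := TH607.ph T.A x

lemma H_eq (κ : Fin 3 → ℝ) (x : P) : T.A.H κ x = κ ⬝ᵥ T.ph x := TH607.H_eq T.A κ x

lemma sm_H (κ : Fin 3 → ℝ) : Sm (E := E) (T.A.H κ) := T.A.smooth_H T.hc.smooth κ

lemma sm_ph (i : Fin 3) : Sm (E := E) (fun x => T.ph x i) := T.A.smooth_H T.hc.smooth _

lemma dH_eq (κ : Fin 3 → ℝ) (x : P) (u : TangentSpace 𝓘(ℝ, E) x) :
    dForm 𝓘(ℝ, E) (T.A.H κ) x u = κ ⬝ᵥ dv T.ph x u := TH607.dH_eq T.A T.hc.smooth κ x u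

lemma exists_kap (x : P) : ∃ κ : Fin 3 → ℝ, dForm 𝓘(ℝ, E) (T.A.H κ) x = 0 ∧ T.A.H κ x = 1 :=
  TH607.exists_kap T.A T.hc T.hR (by rw [T.hd]; norm_num) x

/-- the vector `κ` with `R = X_κ` -/
def kp (x : P) : Fin 3 → ℝ := Classical.choose (T.exists_kap x)

lemma dH_kp (x : P) : dForm 𝓘(ℝ, E) (T.A.H (T.kp x)) x = 0 :=
  (Classical.choose_spec (T.exists_kap x)).1

lemma H_kp (x : P) : T.A.H (T.kp x) x = 1 := (Classical.choose_spec (T.exists_kap x)).2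

lemma kp_ph (x : P) : T.kp x ⬝ᵥ T.ph x = 1 := by rw [← T.H_eq]; exact T.H_kp x

lemma kp_dph (x : P) (u : TangentSpace 𝓘(ℝ, E) x) : T.kp x ⬝ᵥ dv T.ph x u = 0 := by
  rw [← T.dH_eq, T.dH_kp]; rfl

lemma kp_unique {κ : Fin 3 → ℝ} {x : P} (h : ∀ u : TangentSpace 𝓘(ℝ, E) x, κ ⬝ᵥ dv T.ph x u = 0) :
    κ = (κ ⬝ᵥ T.ph x) • T.kp x := by
  rw [← sub_eq_zero]
  refine eq_zero_of_crit T.A T.hc T.hR (x := x) ?_ ?_
  · refine ContinuousLinearMap.ext fun u => ?_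
    rw [T.dH_eq, sub_dotProduct, smul_dotProduct, h u, T.kp_dph]
    simp
  · rw [T.H_eq, sub_dotProduct, smul_dotProduct, T.kp_ph]
    simp

lemma kp_irr (x : P) (k : Fin 3 → ℤ) (hk : k ≠ 0) (t : ℝ) : T.kp x ≠ t • (TAct.rv k) := by
  intro h
  have ht : t ≠ 0 := by
    rintro rfl
    have := T.kp_ph x
    rw [h, zero_smul, zero_dotProduct] at this
    exact zero_ne_one this
  apply T.irr k hk x
  have h1 := T.dH_kp x
  rw [h, T.A.dH_smul T.hc.smooth] at h1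
  exact (smul_eq_zero.1 h1).resolve_left ht

/-- the metric on the space of vectors `κ` -/
def Qm (x : P) : Matrix (Fin 3) (Fin 3) ℝ := fun i j =>
  T.ι.G2 (T.A.H (Pi.single i 1)) (T.A.H (Pi.single j 1)) x + T.ph x i * T.ph x j

lemma G2_symm (f g : P → ℝ) (x : P) : T.ι.G2 f g x = T.ι.G2 g f x := by
  rw [T.ι.G2_eq, T.ι.G2_eq, real_inner_comm]

lemma Qm_symm (x : P) : (T.Qm x)ᵀ = T.Qm x := by
  ext i j
  show T.Qm x j i = T.Qm x i j
  unfold Qm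
  rw [T.G2_symm]
  ring

lemma sm_Qm (i j : Fin 3) : Sm (E := E) (fun x => T.Qm x i j) :=
  (T.ι.smooth_G2 (T.sm_H _) (T.sm_H _)).add ((T.sm_ph i).mul (T.sm_ph j))

lemma Qm_mulVec (κ : Fin 3 → ℝ) (x : P) (i : Fin 3) :
    ((T.Qm x).mulVec κ) i = T.ι.G2 (T.A.H (Pi.single i 1)) (T.A.H κ) x +
      T.ph x i * (κ ⬝ᵥ T.ph x) := by
  have h1 : T.ι.G2 (T.A.H (Pi.single i 1)) (T.A.H κ) x =
      ∑ j, κ j * T.ι.G2 (T.A.H (Pi.single i 1)) (T.A.H (Pi.single j 1)) x := by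
    have := lin_expand (T.A.GB T.ι T.hc.smooth x (Pi.single i 1)) κ
    exact this
  rw [h1]
  simp only [Matrix.mulVec, dotProduct, Qm]
  rw [Finset.mul_sum, ← Finset.sum_add_distrib]
  refine Finset.sum_congr rfl fun j _ => ?_
  ring

lemma Qm_quad (κ : Fin 3 → ℝ) (x : P) :
    κ ⬝ᵥ (T.Qm x).mulVec κ = T.A.Q T.ι κ x := by
  have h1 : T.ι.G (T.A.H κ) x = ∑ i, κ i * T.ι.G2 (T.A.H (Pi.single i 1)) (T.A.H κ) x := by
    have := lin_expand ((T.A.GB T.ι T.hc.smooth x).flip κ) κ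
    exact this
  unfold TAct.Q
  rw [h1, T.H_eq]
  simp only [dotProduct, T.Qm_mulVec]
  rw [sq, Finset.sum_mul, ← Finset.sum_add_distrib]
  refine Finset.sum_congr rfl fun i _ => ?_
  ring

lemma Qm_pos {κ : Fin 3 → ℝ} (hκ : κ ≠ 0) (x : P) : 0 < κ ⬝ᵥ (T.Qm x).mulVec κ := by
  rw [T.Qm_quad]; exact T.A.Q_pos T.ι T.hc T.hR hκ x

lemma Qm_det (x : P) : (T.Qm x).det ≠ 0 := by
  intro h
  obtain ⟨v, hv, h2⟩ := Matrix.exists_mulVec_eq_zero_iff.2 h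
  have := T.Qm_pos hv x
  rw [h2, dotProduct_zero] at this
  exact lt_irrefl _ this

lemma Qm_kp (x : P) : (T.Qm x).mulVec (T.kp x) = T.ph x := by
  ext i
  rw [T.Qm_mulVec, T.kp_ph, mul_one]
  have h1 : T.ι.G2 (T.A.H (Pi.single i 1)) (T.A.H (T.kp x)) x = 0 := by
    rw [T.G2_symm]
    unfold Imm.G2
    rw [T.dH_kp]; rfl
  rw [h1, zero_add]

lemma kp_eq (x : P) : T.kp x = (T.Qm x)⁻¹.mulVec (T.ph x) := by
  rw [← T.Qm_kp x, Matrix.mulVec_mulVec, Matrix.nonsing_inv_mul _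
    (isUnit_iff_ne_zero.2 (T.Qm_det x)), Matrix.one_mulVec]

lemma sm_Qinv (i j : Fin 3) : Sm (E := E) (fun x => (T.Qm x)⁻¹ i j) :=
  contMDiff_inv_entry T.sm_Qm T.Qm_det i j

lemma sm_kp (i : Fin 3) : Sm (E := E) (fun x => T.kp x i) := by
  have e : (fun x => T.kp x i) = fun x => ∑ j, (T.Qm x)⁻¹ i j * T.ph x j := by
    ext1 x
    rw [T.kp_eq]
    rfl
  rw [e]
  exact contMDiff_sum3 fun j => (T.sm_Qinv i j).mul (T.sm_ph j)

lemma cont_kp : Continuous T.kp := continuous_pi fun i => (T.sm_kp i).continuous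

lemma cont_ph : Continuous T.ph := continuous_pi fun i => (T.sm_ph i).continuous

/-- real monodromy matrix -/
def Br (γ : Γ) : Matrix (Fin 3) (Fin 3) ℝ := (T.B γ).map (Int.cast : ℤ → ℝ)

lemma Br_mul (γ γ' : Γ) : T.Br (γ * γ') = T.Br γ * T.Br γ' := by
  unfold Br
  rw [map_mul]
  exact Matrix.map_mul (f := Int.castRingHom ℝ)

lemma Br_one : T.Br 1 = 1 := by
  unfold Br
  rw [map_one]
  exact Matrix.map_one _ (by simp) (by simp)

lemma Br_inv_mul (γ : Γ) : T.Br γ⁻¹ * T.Br γ = 1 := by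
  rw [← Br_mul, inv_mul_cancel, Br_one]

lemma Br_mul_inv (γ : Γ) : T.Br γ * T.Br γ⁻¹ = 1 := by
  rw [← Br_mul, mul_inv_cancel, Br_one]

lemma ph_smul (γ : Γ) (x : P) : T.ph x = (T.Br γ)ᵀ.mulVec (T.ph (γ • x)) := by
  ext i
  have h := T.hB γ (Pi.single i 1) x
  rw [T.H_eq, T.H_eq, single_one_dotProduct] at h
  rw [← h]
  show ((T.Br γ).mulVec (Pi.single i 1)) ⬝ᵥ T.ph (γ • x) = _
  rw [Matrix.mulVec_single_one]
  rfl

lemma kp_smul (γ : Γ) (x : P) : T.kp (γ • x) = (T.Br γ).mulVec (T.kp x) := by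
  have h1 : dForm 𝓘(ℝ, E) (T.A.H ((T.Br γ).mulVec (T.kp x))) (γ • x) = 0 := by
    apply T.ι.G_eq_zero
    have h2 := T.𝒟.G_push γ (f := T.A.H (T.kp x)) (f' := T.A.H ((T.Br γ).mulVec (T.kp x)))
      (T.sm_H _) (T.hB γ (T.kp x)) x
    rw [h2]
    unfold Imm.G
    rw [T.dH_kp]; rfl
  have h2 := T.kp_unique (κ := (T.Br γ).mulVec (T.kp x)) (x := γ • x) (fun u => by
    rw [← T.dH_eq, h1]; rfl)
  have h3 : (T.Br γ).mulVec (T.kp x) ⬝ᵥ T.ph (γ • x) = 1 := by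
    rw [← T.H_eq]
    exact (T.hB γ (T.kp x) x).trans (T.H_kp x)
  rw [h3, one_smul] at h2
  exact h2.symm

lemma ph_act (θ : Fin 3 → ℝ) (x : P) : T.ph (T.A.act θ x) = T.ph x := by
  ext i
  exact T.A.H_act _ θ x

lemma kp_act (θ : Fin 3 → ℝ) (x : P) : T.kp (T.A.act θ x) = T.kp x := by
  have h1 : dForm 𝓘(ℝ, E) (T.A.H (T.kp x)) (T.A.act θ x) = 0 :=
    T.A.crit_act T.hc.smooth (T.dH_kp x) θ
  have h2 := T.kp_unique (κ := T.kp x) (x := T.A.act θ x) (fun u => by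
    rw [← T.dH_eq, h1]; rfl)
  rw [T.ph_act, T.kp_ph, one_smul] at h2
  exact h2.symm

/-- the differential of `κ` is orthogonal to the momentum -/
lemma dkp_ph (x : P) (u : TangentSpace 𝓘(ℝ, E) x) : dv T.kp x u ⬝ᵥ T.ph x = 0 := by
  have h1 : (fun y : P => ∑ i : Fin 3, T.kp y i * T.ph y i) = fun _ => 1 := by
    ext1 y; exact T.kp_ph y
  have h2 := dForm_sum (E := E) Finset.univ (f := fun (i : Fin 3) (y : P) => T.kp y i * T.ph y i)
    (x := x) (fun i _ => ((T.sm_kp i).md x).mul ((T.sm_ph i).md x)) u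
  rw [h1] at h2
  have h3 : dForm 𝓘(ℝ, E) (fun _ : P => (1:ℝ)) x = 0 :=
    dForm_eq_zero_of_eventually (a := 1) (Filter.Eventually.of_forall fun _ => rfl)
  rw [h3] at h2
  have h4 : ∀ i : Fin 3, dForm 𝓘(ℝ, E) (fun y : P => T.kp y i * T.ph y i) x u =
      T.kp x i * dv T.ph x u i + T.ph x i * dv T.kp x u i := fun i =>
    dForm_mul ((T.sm_kp i).md x) ((T.sm_ph i).md x) u
  simp only [h4] at h2
  have h5 := T.kp_dph x u
  simp only [dotProduct] at h5 ⊢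
  rw [Finset.sum_add_distrib, h5, zero_add] at h2
  have h6 : (0:ℝ) = ∑ i, T.ph x i * dv T.kp x u i := h2
  rw [h6]
  exact Finset.sum_congr rfl fun i _ => mul_comm _ _

end Tor

end Pool.Agent.TH607
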