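import Mathlib
import Pool.Agent.TH607.Tor
import Pool.Agent.TH607.Ext

/-! The rank of `κ` is at most one; the tensor `S`. -/

open scoped Topology ContDiff Manifold
open Set Metric Bundle Matrix Pool.Agent.Helper186 Pool.Agent.H826R2.Wein

noncomputable section

namespace Pool.Agent.TH607

set_option linter.unusedSectionVars false

universe u v w

lemma cross_of_orth {p q f k : Fin 3 → ℝ} (hp : p ⬝ᵥ f = 0) (hq : q ⬝ᵥ f = 0) (hk : k ⬝ᵥ f = 1) :
    crossProduct p q = (crossProduct p q ⬝ᵥ k) • f := by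
  simp only [dotProduct, Fin.sum_univ_three] at hp hq hk
  ext i
  fin_cases i
  · simp [crossProduct, dotProduct, Fin.sum_univ_three]
    linear_combination (-(p 1 * q 2 - p 2 * q 1)) * hk + (q 2 * k 1 - q 1 * k 2) * hp -
      (p 2 * k 1 - p 1 * k 2) * hq
  · simp [crossProduct, dotProduct, Fin.sum_univ_three]
    linear_combination (-(p 2 * q 0 - p 0 * q 2)) * hk + (q 0 * k 2 - q 2 * k 0) * hp -
      (p 0 * k 2 - p 2 * k 0) * hq
  · simp [crossProduct, dotProduct, Fin.sum_univ_three]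
    linear_combination (-(p 0 * q 1 - p 1 * q 0)) * hk + (q 1 * k 0 - q 0 * k 1) * hp -
      (p 1 * k 0 - p 0 * k 1) * hq

lemma par_of_cross {p q : Fin 3 → ℝ} (h : crossProduct p q = 0) {l : Fin 3} (hl : p l ≠ 0)
    (i : Fin 3) : q i = q l * (p i / p l) := by
  have h0 := congrFun h 0
  have h1 := congrFun h 1
  have h2 := congrFun h 2
  simp [crossProduct] at h0 h1 h2
  have key : q i * p l = q l * p i := by
    fin_cases l <;> fin_cases i <;> simp <;> linarith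
  field_simp
  linarith

namespace Tor

variable {E : Type u} [NormedAddCommGroup E] [NormedSpace ℝ E] [FiniteDimensional ℝ E]
  {P : Type v} [TopologicalSpace P] [ChartedSpace E P] [IsManifold 𝓘(ℝ, E) ∞ P]
  {Γ : Type w} [Group Γ] [MulAction Γ P] (T : Tor E P Γ)

lemma cross_dkp (x : P) (u v : TangentSpace 𝓘(ℝ, E) x) :
    crossProduct (dv T.kp x u) (dv T.kp x v) = 0 := by
  by_contra hne
  have h1 := cross_of_orth (T.dkp_ph x u) (T.dkp_ph x v) (T.kp_ph x)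
  have h2 : crossProduct (dv T.kp x u) (dv T.kp x v) ⬝ᵥ T.kp x ≠ 0 := by
    intro h0
    rw [h0, zero_smul] at h1
    exact hne h1
  obtain ⟨y, k, hk, t, ht⟩ := JobWT.rational_direction_manifold T.sm_kp u v h2
  exact T.kp_irr y k hk t ht

/-- the components of `κ` -/
def kl (l : Fin 3) (x : P) : ℝ := T.kp x l

lemma sm_kl (l : Fin 3) : Sm (E := E) (T.kl l) := T.sm_kp l

/-- the coefficients of the differential of `κ` -/
def cc (l : Fin 3) (x : P) : Fin 3 → ℝ := fun i => T.ι.G2 (T.kl i) (T.kl l) x / T.ι.G (T.kl l) x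

/-- the domain of `cc l` -/
def U (l : Fin 3) : Set P := {x | T.ι.G (T.kl l) x ≠ 0}

lemma isOpen_U (l : Fin 3) : IsOpen (T.U l) :=
  isOpen_ne_fun (T.ι.smooth_G (T.sm_kl l)).continuous continuous_const

lemma dkl_ne {l : Fin 3} {x : P} (hx : x ∈ T.U l) : dForm 𝓘(ℝ, E) (T.kl l) x ≠ 0 := by
  intro h
  apply hx
  unfold Imm.G
  rw [h]; rfl

lemma mem_U {l : Fin 3} {x : P} (h : dForm 𝓘(ℝ, E) (T.kl l) x ≠ 0) : x ∈ T.U l :=
  fun h0 => h (T.ι.G_eq_zero h0)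

lemma cc_self {l : Fin 3} {x : P} (hx : x ∈ T.U l) : T.cc l x l = 1 := div_self hx

lemma dkp_eq {l : Fin 3} {x : P} (hx : x ∈ T.U l) (u : TangentSpace 𝓘(ℝ, E) x) (i : Fin 3) :
    dForm 𝓘(ℝ, E) (T.kl i) x u = dForm 𝓘(ℝ, E) (T.kl l) x u * T.cc l x i := by
  have h1 := T.cross_dkp x (T.ι.grad (T.kl l) x) u
  exact par_of_cross h1 (l := l) hx i

lemma dv_kp {l : Fin 3} {x : P} (hx : x ∈ T.U l) (u : TangentSpace 𝓘(ℝ, E) x) :
    dv T.kp x u = dForm 𝓘(ℝ, E) (T.kl l) x u • T.cc l x := by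
  ext i
  exact T.dkp_eq hx u i

lemma cc_ph {l : Fin 3} {x : P} (hx : x ∈ T.U l) : T.cc l x ⬝ᵥ T.ph x = 0 := by
  have h1 := T.dkp_ph x (T.ι.grad (T.kl l) x)
  rw [T.dv_kp hx, smul_dotProduct] at h1
  exact (mul_eq_zero.1 h1).resolve_left hx

lemma sm_cc (l i : Fin 3) {x : P} (hx : x ∈ T.U l) :
    ContMDiffAt 𝓘(ℝ, E) 𝓘(ℝ, ℝ) ∞ (fun y => T.cc l y i) x :=
  (T.ι.smooth_G2 (T.sm_kl i) (T.sm_kl l) x).div₀ (T.ι.smooth_G (T.sm_kl l) x) hx

/-- normal form near a point -/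
structure NF (l : Fin 3) (I : Set ℝ) (g : ℝ → Fin 3 → ℝ) (x : P) : Prop where
  op : IsOpen I
  sm : ContDiffOn ℝ ∞ g I
  ev : ∀ᶠ y in 𝓝 x, y ∈ T.U l ∧ T.kl l y ∈ I ∧ T.kp y = g (T.kl l y) ∧
    T.cc l y = deriv g (T.kl l y)

lemma exists_nf {l : Fin 3} {x : P} (hx : x ∈ T.U l) :
    ∃ (I : Set ℝ) (g : ℝ → Fin 3 → ℝ), ∀ᶠ y in 𝓝 x, T.NF l I g y := by
  obtain ⟨ε, -, g, hg, h⟩ := JobWT.nf_manifold T.sm_kp (T.isOpen_U l) hx
    (fun y hy u i => T.dkp_eq hy u i) (T.dkl_ne hx)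
  refine ⟨Ioo (T.kp x l - ε) (T.kp x l + ε), g, ?_⟩
  filter_upwards [h.eventually_nhds] with y hy
  exact ⟨isOpen_Ioo, hg, hy⟩

variable {T} in
lemma NF.hd {l : Fin 3} {I : Set ℝ} {g : ℝ → Fin 3 → ℝ} {x : P} (h : T.NF l I g x) {s : ℝ}
    (hs : s ∈ I) : HasDerivAt (deriv g) (deriv (deriv g) s) s := by
  have hg2 : ContDiffOn ℝ ∞ (deriv g) I :=
    ((contDiffOn_infty_iff_deriv_of_isOpen h.op).1 h.sm).2
  exact ((hg2.contDiffAt (h.op.mem_nhds hs)).differentiableAt (by simp)).hasDerivAt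

variable {T} in
lemma NF.hg {l : Fin 3} {I : Set ℝ} {g : ℝ → Fin 3 → ℝ} {x : P} (h : T.NF l I g x) {s : ℝ}
    (hs : s ∈ I) : HasDerivAt g (deriv g s) s :=
  ((h.sm.contDiffAt (h.op.mem_nhds hs)).differentiableAt (by simp)).hasDerivAt

variable {T} in
lemma NF.cont2 {l : Fin 3} {I : Set ℝ} {g : ℝ → Fin 3 → ℝ} {x : P} (h : T.NF l I g x) {s : ℝ}
    (hs : s ∈ I) : ContinuousAt (deriv (deriv g)) s := by
  have hg2 : ContDiffOn ℝ ∞ (deriv g) I :=
    ((contDiffOn_infty_iff_deriv_of_isOpen h.op).1 h.sm).2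
  have hg3 : ContDiffOn ℝ ∞ (deriv (deriv g)) I :=
    ((contDiffOn_infty_iff_deriv_of_isOpen h.op).1 hg2).2
  exact (hg3.contDiffAt (h.op.mem_nhds hs)).continuousAt

/-- the second derivative of the normal form gives the differential of the momentum -/
lemma nf_F {l : Fin 3} {x : P} {I : Set ℝ} {g : ℝ → Fin 3 → ℝ} (h : T.NF l I g x)
    (u : TangentSpace 𝓘(ℝ, E) x) :
    T.cc l x ⬝ᵥ dv T.ph x u =
      (- (deriv (deriv g) (T.kl l x) ⬝ᵥ T.ph x)) * dForm 𝓘(ℝ, E) (T.kl l) x u := by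
  have hx := h.ev.self_of_nhds
  have hd := h.hd hx.2.1
  have hdi : ∀ i, HasDerivAt (fun s => deriv g s i) (deriv (deriv g) (T.kl l x) i) (T.kl l x) :=
    fun i => (hasDerivAt_pi.1 hd) i
  have h0 : (fun y : P => ∑ i : Fin 3, deriv g (T.kl l y) i * T.ph y i) =ᶠ[𝓝 x] fun _ => 0 := by
    filter_upwards [h.ev] with y hy
    rw [← hy.2.2.2]
    exact T.cc_ph hy.1
  have h1 := dForm_congr (E := E) h0
  have h2 : dForm 𝓘(ℝ, E) (fun _ : P => (0:ℝ)) x = 0 :=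
    dForm_eq_zero_of_eventually (a := 0) (Filter.Eventually.of_forall fun _ => rfl)
  rw [h2] at h1
  have h3 := DFunLike.congr_fun h1 u
  have hc := fun i => dForm_comp1 ((T.sm_kl l).md x) (hdi i) u
  rw [dForm_sum (E := E) Finset.univ
    (f := fun (i : Fin 3) (y : P) => deriv g (T.kl l y) i * T.ph y i)
    (fun i _ => (hc i).1.mul ((T.sm_ph i).md x))] at h3
  have h4 : ∀ i : Fin 3, dForm 𝓘(ℝ, E) (fun y : P => deriv g (T.kl l y) i * T.ph y i) x u =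
      deriv g (T.kl l x) i * dv T.ph x u i +
      T.ph x i * (deriv (deriv g) (T.kl l x) i * dForm 𝓘(ℝ, E) (T.kl l) x u) := fun i => by
    rw [dForm_mul (hc i).1 ((T.sm_ph i).md x), (hc i).2]
    rfl
  simp only [h4] at h3
  rw [hx.2.2.2]
  simp only [dotProduct]
  rw [Finset.sum_add_distrib] at h3
  have h5 : (0:ℝ) = (∑ i, deriv g (T.kl l x) i * dv T.ph x u i) +
    ∑ i, T.ph x i * (deriv (deriv g) (T.kl l x) i * dForm 𝓘(ℝ, E) (T.kl l) x u) := h3.symm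
  have h6 : ∑ i, T.ph x i * (deriv (deriv g) (T.kl l x) i * dForm 𝓘(ℝ, E) (T.kl l) x u) =
      (∑ i, deriv (deriv g) (T.kl l x) i * T.ph x i) * dForm 𝓘(ℝ, E) (T.kl l) x u := by
    rw [Finset.sum_mul]
    exact Finset.sum_congr rfl fun i _ => by ring
  rw [h6] at h5
  linarith

/-- existence of the factor -/
lemma exists_F {l : Fin 3} {x : P} (hx : x ∈ T.U l) : ∃ F : ℝ, F ≠ 0 ∧
    ∀ u : TangentSpace 𝓘(ℝ, E) x,
      T.cc l x ⬝ᵥ dv T.ph x u = F * dForm 𝓘(ℝ, E) (T.kl l) x u := by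
  obtain ⟨I, g, h'⟩ := T.exists_nf hx
  have h := h'.self_of_nhds
  refine ⟨_, ?_, fun u => T.nf_F h u⟩
  intro h0
  have h1 := T.kp_unique (κ := T.cc l x) (x := x) (fun u => by rw [T.nf_F h u, h0, zero_mul])
  rw [T.cc_ph hx, zero_smul] at h1
  have h2 := T.cc_self hx
  rw [h1] at h2
  simp at h2

/-- inner products of differentials -/
def Mm (x : P) : Matrix (Fin 3) (Fin 3) ℝ :=
  fun i j => T.ι.G2 (T.kl i) (T.A.H (Pi.single j 1)) x

/-- the tensor `S` with `dκ = S dΦ` -/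
def S (x : P) : Matrix (Fin 3) (Fin 3) ℝ := T.Mm x * (T.Qm x)⁻¹

lemma sm_S (i j : Fin 3) : Sm (E := E) (fun x => T.S x i j) := by
  have e : (fun x => T.S x i j) = fun x => ∑ k, T.ι.G2 (T.kl i) (T.A.H (Pi.single k 1)) x *
      (T.Qm x)⁻¹ k j := by
    ext1 x; rfl
  rw [e]
  exact contMDiff_sum3 fun k => (T.ι.smooth_G2 (T.sm_kl i) (T.sm_H _)).mul (T.sm_Qinv k j)

lemma cont_S : Continuous T.S :=
  continuous_pi fun i => continuous_pi fun j => (T.sm_S i j).continuous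

/-- explicit form of `S` -/
lemma S_eq {l : Fin 3} {x : P} (hx : x ∈ T.U l) {F : ℝ} (hF : F ≠ 0)
    (h : ∀ u : TangentSpace 𝓘(ℝ, E) x,
      T.cc l x ⬝ᵥ dv T.ph x u = F * dForm 𝓘(ℝ, E) (T.kl l) x u) :
    T.S x = F⁻¹ • vecMulVec (T.cc l x) (T.cc l x) := by
  have hM : T.Mm x = (F⁻¹ • vecMulVec (T.cc l x) (T.cc l x)) * T.Qm x := by
    ext i j
    have h1 : T.ι.G2 (T.kl i) (T.A.H (Pi.single j 1)) x =
        T.ι.G2 (T.kl l) (T.A.H (Pi.single j 1)) x * T.cc l x i := T.dkp_eq hx _ i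
    have h2 : F * T.ι.G2 (T.kl l) (T.A.H (Pi.single j 1)) x =
        T.cc l x ⬝ᵥ dv T.ph x (T.ι.grad (T.A.H (Pi.single j 1)) x) := (h _).symm
    have h3 : T.cc l x ⬝ᵥ dv T.ph x (T.ι.grad (T.A.H (Pi.single j 1)) x) =
        ((T.Qm x).mulVec (T.cc l x)) j := by
      rw [T.Qm_mulVec, T.cc_ph hx, mul_zero, add_zero, T.G2_symm, ← T.dH_eq]
      rfl
    have h4 : ((F⁻¹ • vecMulVec (T.cc l x) (T.cc l x)) * T.Qm x) i j =
        F⁻¹ * (T.cc l x i * ((T.Qm x).mulVec (T.cc l x)) j) := by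
      rw [Matrix.smul_mul, Matrix.smul_apply, smul_eq_mul]
      congr 1
      rw [Matrix.mul_apply]
      simp only [vecMulVec_apply, Matrix.mulVec, dotProduct]
      rw [Finset.mul_sum]
      refine Finset.sum_congr rfl fun k _ => ?_
      have h5 : T.Qm x k j = T.Qm x j k := by
        have := congrFun (congrFun (T.Qm_symm x) j) k
        exact this
      rw [h5]; ring
    rw [h4]
    show T.ι.G2 (T.kl i) (T.A.H (Pi.single j 1)) x = _
    rw [h1, ← h3, ← h2]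
    field_simp
  unfold S
  rw [hM, Matrix.mul_assoc, Matrix.mul_nonsing_inv _ (isUnit_iff_ne_zero.2 (T.Qm_det x)),
    Matrix.mul_one]

lemma S_apply {l : Fin 3} {x : P} (hx : x ∈ T.U l) (i j : Fin 3) :
    T.S x i j = T.S x l l * (T.cc l x i * T.cc l x j) := by
  obtain ⟨F, hF, h⟩ := T.exists_F hx
  have h1 := T.S_eq hx hF h
  rw [h1]
  simp only [Matrix.smul_apply, vecMulVec_apply, smul_eq_mul, T.cc_self hx]
  ring

lemma Sll_ne {l : Fin 3} {x : P} (hx : x ∈ T.U l) : T.S x l l ≠ 0 := by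
  obtain ⟨F, hF, h⟩ := T.exists_F hx
  rw [T.S_eq hx hF h]
  simp only [Matrix.smul_apply, vecMulVec_apply, smul_eq_mul, T.cc_self hx]
  simpa using hF

/-- fundamental relation -/
lemma cc_dph {l : Fin 3} {x : P} (hx : x ∈ T.U l) (u : TangentSpace 𝓘(ℝ, E) x) :
    T.cc l x ⬝ᵥ dv T.ph x u = (T.S x l l)⁻¹ * dForm 𝓘(ℝ, E) (T.kl l) x u := by
  obtain ⟨F, hF, h⟩ := T.exists_F hx
  rw [h u, T.S_eq hx hF h]
  simp only [Matrix.smul_apply, vecMulVec_apply, smul_eq_mul, T.cc_self hx]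
  simp

lemma dkl_eq {l : Fin 3} {x : P} (hx : x ∈ T.U l) (u : TangentSpace 𝓘(ℝ, E) x) :
    dForm 𝓘(ℝ, E) (T.kl l) x u = T.S x l l * (T.cc l x ⬝ᵥ dv T.ph x u) := by
  rw [T.cc_dph hx, ← mul_assoc, mul_inv_cancel₀ (T.Sll_ne hx), one_mul]

/-- outside the `U l` the differential of `κ` vanishes -/
lemma dkl_zero {x : P} (h : ∀ l, x ∉ T.U l) (l : Fin 3) : dForm 𝓘(ℝ, E) (T.kl l) x = 0 := by
  by_contra h0
  exact h l (T.mem_U h0)

lemma S_zero {x : P} (h : ∀ l, x ∉ T.U l) : T.S x = 0 := by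
  have e : T.Mm x = 0 := by
    ext i j
    show dForm 𝓘(ℝ, E) (T.kl i) x _ = 0
    rw [T.dkl_zero h i]; rfl
  unfold S
  rw [e, Matrix.zero_mul]

lemma mem_U_iff {l : Fin 3} {x : P} : x ∈ T.U l ↔ T.S x l l ≠ 0 := by
  refine ⟨fun h => T.Sll_ne h, fun h => ?_⟩
  by_contra hx
  by_cases h2 : ∃ m, x ∈ T.U m
  · obtain ⟨m, hm⟩ := h2
    apply h
    have h3 : dForm 𝓘(ℝ, E) (T.kl l) x = 0 := by
      by_contra h0
      exact hx (T.mem_U h0)
    have h4 : T.cc m x l = 0 := by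
      unfold cc Imm.G2
      rw [h3]
      show (0:ℝ) / _ = 0
      rw [zero_div]
    rw [T.S_apply hm, h4]
    ring
  · push Not at h2
    apply h
    rw [T.S_zero h2]; rfl

end Tor

end Pool.Agent.TH607
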