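import Mathlib
import Pool.Agent.TH607.Rank

/-! Equivariance and uniform bounds. -/

open scoped Topology ContDiff Manifold
open Set Metric Bundle Matrix Pool.Agent.Helper186 Pool.Agent.H826R2.Wein

noncomputable section

namespace Pool.Agent.TH607

set_option linter.unusedSectionVars false

universe u v w

lemma symm_ext {M N : Matrix (Fin 3) (Fin 3) ℝ} (hM : Mᵀ = M) (hN : Nᵀ = N)
    (h : ∀ κ : Fin 3 → ℝ, κ ⬝ᵥ M.mulVec κ = κ ⬝ᵥ N.mulVec κ) : M = N := by
  have key : ∀ u v : Fin 3 → ℝ, u ⬝ᵥ M.mulVec v = u ⬝ᵥ N.mulVec v := by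
    intro u v
    have h1 := h (u + v)
    have h2 := h u
    have h3 := h v
    have s1 : v ⬝ᵥ M.mulVec u = u ⬝ᵥ M.mulVec v := by
      rw [dotProduct_mulVec, ← mulVec_transpose, hM, dotProduct_comm]
    have s2 : v ⬝ᵥ N.mulVec u = u ⬝ᵥ N.mulVec v := by
      rw [dotProduct_mulVec, ← mulVec_transpose, hN, dotProduct_comm]
    simp only [mulVec_add, dotProduct_add, add_dotProduct] at h1
    rw [s1, s2] at h1
    linarith
  ext i j
  have h1 := key (Pi.single i 1) (Pi.single j 1)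
  rw [single_one_dotProduct, single_one_dotProduct, mulVec_single_one, mulVec_single_one] at h1
  exact h1

namespace Tor

variable {E : Type u} [NormedAddCommGroup E] [NormedSpace ℝ E] [FiniteDimensional ℝ E]
  {P : Type v} [TopologicalSpace P] [ChartedSpace E P] [IsManifold 𝓘(ℝ, E) ∞ P]
  {Γ : Type w} [Group Γ] [MulAction Γ P] (T : Tor E P Γ)

lemma S_ph (x : P) : (T.S x).mulVec (T.ph x) = 0 := by
  by_cases h : ∃ l, x ∈ T.U l
  · obtain ⟨l, hl⟩ := h
    ext i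
    have h1 := T.cc_ph hl
    simp only [mulVec, dotProduct] at h1 ⊢
    have h2 : ∀ j, T.S x i j * T.ph x j =
        T.S x l l * T.cc l x i * (T.cc l x j * T.ph x j) := fun j => by
      rw [T.S_apply hl i j]; ring
    simp only [h2]
    rw [← Finset.mul_sum, h1, mul_zero]
    rfl
  · push Not at h
    rw [T.S_zero h, Matrix.zero_mulVec]

lemma S_dph (x : P) (u : TangentSpace 𝓘(ℝ, E) x) :
    (T.S x).mulVec (dv T.ph x u) = dv T.kp x u := by
  by_cases h : ∃ l, x ∈ T.U l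
  · obtain ⟨l, hl⟩ := h
    ext i
    have h1 := T.dkl_eq hl u
    have h3 := T.dkp_eq hl u i
    simp only [mulVec, dotProduct] at h1 ⊢
    have h2 : ∀ j, T.S x i j * dv T.ph x u j =
        T.S x l l * T.cc l x i * (T.cc l x j * dv T.ph x u j) := fun j => by
      rw [T.S_apply hl i j]; ring
    simp only [h2]
    rw [← Finset.mul_sum]
    refine Eq.trans ?_ h3.symm
    rw [h1]; ring
  · push Not at h
    rw [T.S_zero h, Matrix.zero_mulVec]
    ext i
    show (0:ℝ) = dForm 𝓘(ℝ, E) (T.kl i) x u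
    rw [T.dkl_zero h i]; rfl

lemma S_unique {N : Matrix (Fin 3) (Fin 3) ℝ} {x : P}
    (h1 : ∀ u : TangentSpace 𝓘(ℝ, E) x, N.mulVec (dv T.ph x u) = dv T.kp x u)
    (h2 : N.mulVec (T.ph x) = 0) : N = T.S x := by
  rw [← sub_eq_zero]
  ext i j
  have h3 := T.kp_unique (κ := (N - T.S x) i) (x := x) (fun u => by
    have e : (N - T.S x) i ⬝ᵥ dv T.ph x u = ((N - T.S x).mulVec (dv T.ph x u)) i := rfl
    rw [e, Matrix.sub_mulVec, h1, T.S_dph, sub_self]
    rfl)
  have e : (N - T.S x) i ⬝ᵥ T.ph x = ((N - T.S x).mulVec (T.ph x)) i := rfl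
  rw [e, Matrix.sub_mulVec, h2, T.S_ph, sub_self] at h3
  have h4 := congrFun h3 j
  rw [h4]
  simp

lemma S_push {g g' : P → P} (hg : Cto T.β g g') (Bm : Matrix (Fin 3) (Fin 3) ℝ)
    (hkp : ∀ x, T.kp (g x) = Bm.mulVec (T.kp x)) (hph : ∀ x, T.ph x = Bmᵀ.mulVec (T.ph (g x)))
    (x : P) : T.S (g x) = Bm * T.S x * Bmᵀ := by
  symm
  apply T.S_unique
  · intro w
    obtain ⟨u, rfl⟩ := hg.surjD x w
    have h1 : dv T.ph x u = Bmᵀ.mulVec (dv T.ph (g x) (mfderiv 𝓘(ℝ, E) 𝓘(ℝ, E) g x u)) := by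
      ext i
      have h2 : dForm 𝓘(ℝ, E) (fun y => T.ph y i) x u =
          dForm 𝓘(ℝ, E) (fun y => ∑ j, Bmᵀ i j * T.ph (g y) j) x u := by
        congr 2
        ext1 y
        exact congrFun (hph y) i
      have h3 : dForm 𝓘(ℝ, E) (fun y => ∑ j, Bmᵀ i j * T.ph (g y) j) x u =
          ∑ j, Bmᵀ i j * dForm 𝓘(ℝ, E) (fun y => T.ph (g y) j) x u := by
        have h4 : ∀ j, Sm (E := E) (fun y => T.ph (g y) j) := fun j =>
          (T.sm_ph j).comp hg.smooth
        rw [dForm_sum (E := E) Finset.univ (f := fun (j : Fin 3) (y : P) => Bmᵀ i j * T.ph (g y) j)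
          (fun j _ => (contMDiff_const.mul (h4 j)).mdifferentiableAt (by simp))]
        exact Finset.sum_congr rfl fun j _ => dForm_const_mul _ ((h4 j).md x) u
      refine h2.trans (h3.trans ?_)
      simp only [mulVec, dotProduct]
      refine Finset.sum_congr rfl fun j _ => ?_
      congr 1
      exact (hg.dForm_push (T.sm_ph j) (fun _ => rfl) x u).symm
    have h5 : dv T.kp (g x) (mfderiv 𝓘(ℝ, E) 𝓘(ℝ, E) g x u) = Bm.mulVec (dv T.kp x u) := by
      ext i
      have h6 : dForm 𝓘(ℝ, E) (fun y => T.kp (g y) i) x u =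
          dForm 𝓘(ℝ, E) (fun y => ∑ j, Bm i j * T.kp y j) x u := by
        congr 2
        ext1 y
        exact congrFun (hkp y) i
      have h3 : dForm 𝓘(ℝ, E) (fun y => ∑ j, Bm i j * T.kp y j) x u =
          ∑ j, Bm i j * dForm 𝓘(ℝ, E) (fun y => T.kp y j) x u := by
        rw [dForm_sum (E := E) Finset.univ (f := fun (j : Fin 3) (y : P) => Bm i j * T.kp y j)
          (fun j _ => (contMDiff_const.mul (T.sm_kp j)).mdifferentiableAt (by simp))]
        exact Finset.sum_congr rfl fun j _ => dForm_const_mul _ ((T.sm_kp j).md x) u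
      exact (hg.dForm_push (T.sm_kp i) (fun _ => rfl) x u).trans (h6.trans h3)
    rw [h5, ← T.S_dph, h1, Matrix.mulVec_mulVec, Matrix.mulVec_mulVec]
  · rw [← Matrix.mulVec_mulVec, ← hph, ← Matrix.mulVec_mulVec, T.S_ph, Matrix.mulVec_zero]

lemma cto_smul (γ : Γ) : Cto T.β (fun x : P => γ • x) (fun x : P => γ⁻¹ • x) where
  smooth := T.𝒟.smooth γ
  smooth' := T.𝒟.smooth γ⁻¹
  right := fun x => smul_inv_smul γ x
  left := fun x => inv_smul_smul γ x
  strict := T.hN.strict γ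

lemma cto_act (θ : Fin 3 → ℝ) : Cto T.β (T.A.act θ) (T.A.act (-θ)) where
  smooth := T.A.smooth_right θ
  smooth' := T.A.smooth_right (-θ)
  right := fun x => by rw [← T.A.add, add_neg_cancel, T.A.zero]
  left := fun x => by rw [← T.A.add, neg_add_cancel, T.A.zero]
  strict := T.A.strict θ

lemma S_smul (γ : Γ) (x : P) : T.S (γ • x) = T.Br γ * T.S x * (T.Br γ)ᵀ :=
  T.S_push (T.cto_smul γ) (T.Br γ) (T.kp_smul γ) (T.ph_smul γ) x

lemma S_act (θ : Fin 3 → ℝ) (x : P) : T.S (T.A.act θ x) = T.S x := by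
  have h := T.S_push (T.cto_act θ) 1 (fun y => by rw [Matrix.one_mulVec]; exact T.kp_act θ y)
    (fun y => by rw [Matrix.transpose_one, Matrix.one_mulVec]; exact (T.ph_act θ y).symm) x
  rw [Matrix.one_mul, Matrix.transpose_one, Matrix.mul_one] at h
  exact h

lemma U_act {l : Fin 3} {θ : Fin 3 → ℝ} {x : P} : T.A.act θ x ∈ T.U l ↔ x ∈ T.U l := by
  rw [T.mem_U_iff, T.mem_U_iff, T.S_act]

lemma Qm_smul (γ : Γ) (x : P) : T.Qm x = (T.Br γ)ᵀ * T.Qm (γ • x) * T.Br γ := by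
  apply symm_ext (T.Qm_symm x)
  · rw [Matrix.transpose_mul, Matrix.transpose_mul, Matrix.transpose_transpose, T.Qm_symm,
      Matrix.mul_assoc]
  · intro κ
    rw [T.Qm_quad, ← T.A.Q_equiv (B := T.B γ) T.hc T.𝒟 (T.hB γ) κ x, ← T.Qm_quad,
      ← Matrix.mulVec_mulVec, ← Matrix.mulVec_mulVec, Matrix.dotProduct_mulVec κ,
      Matrix.vecMul_transpose]
    rfl

lemma det_Br_sq (γ : Γ) : (T.Br γ).det ^ 2 = 1 := by
  have h1 : (T.Br γ).det = ((T.B γ).det : ℝ) := by
    unfold Br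
    exact (Int.cast_det (T.B γ)).symm
  have h2 : (T.B γ).det * (T.B γ⁻¹).det = 1 := by
    rw [← Matrix.det_mul, ← map_mul, mul_inv_cancel, map_one, Matrix.det_one]
  rcases Int.isUnit_iff.1 (IsUnit.of_mul_eq_one _ h2) with h | h
  · rw [h1, h]; norm_num
  · rw [h1, h]; norm_num

lemma det_Qm_smul (γ : Γ) (x : P) : (T.Qm (γ • x)).det = (T.Qm x).det := by
  have h := congrArg Matrix.det (T.Qm_smul γ x)
  rw [Matrix.det_mul, Matrix.det_mul, Matrix.det_transpose] at h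
  have h2 := T.det_Br_sq γ
  rw [h]
  linear_combination (-(T.Qm (γ • x)).det) * h2

/-- the invariant function `tr (Q S)` -/
def lam (x : P) : ℝ := (T.Qm x * T.S x).trace

lemma lam_smul (γ : Γ) (x : P) : T.lam (γ • x) = T.lam x := by
  unfold lam
  rw [T.S_smul γ x, T.Qm_smul γ x]
  have h : (T.Qm (γ • x) * (T.Br γ * T.S x * (T.Br γ)ᵀ)).trace =
      ((T.Br γ)ᵀ * (T.Qm (γ • x) * (T.Br γ * T.S x))).trace := by
    rw [← Matrix.mul_assoc, Matrix.trace_mul_comm]
  rw [h]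
  simp only [Matrix.mul_assoc]

lemma cont_Qm : Continuous T.Qm :=
  continuous_pi fun i => continuous_pi fun j => (T.sm_Qm i j).continuous

lemma cont_lam : Continuous T.lam := by
  unfold lam
  exact (T.cont_Qm.matrix_mul T.cont_S).matrix_trace

lemma exists_lam_bound : ∃ Λ > (0:ℝ), ∀ x, |T.lam x| ≤ Λ := by
  obtain ⟨M, hM⟩ := (T.𝒟.compact.image T.cont_lam.abs).bddAbove
  refine ⟨max M 1, by positivity, fun x => ?_⟩
  obtain ⟨γ, hγ⟩ := T.𝒟.cover x
  rw [← T.lam_smul γ x]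
  exact (hM ⟨_, hγ, rfl⟩).trans (le_max_left _ _)

lemma exists_det_bound : ∃ δ > (0:ℝ), ∀ x, δ ≤ |(T.Qm x).det| := by
  have hcont : Continuous (fun x => |(T.Qm x).det|) := T.cont_Qm.matrix_det.abs
  obtain ⟨δ, hδ, h⟩ : ∃ δ > (0:ℝ), ∀ x ∈ T.𝒟.D, δ ≤ |(T.Qm x).det| := by
    rcases T.𝒟.D.eq_empty_or_nonempty with he | hne
    · exact ⟨1, one_pos, fun x hx => by rw [he] at hx; exact hx.elim⟩
    · obtain ⟨x, hx, hmin⟩ := T.𝒟.compact.exists_isMinOn hne hcont.continuousOn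
      exact ⟨_, abs_pos.2 (T.Qm_det x), fun y hy => hmin hy⟩
  refine ⟨δ, hδ, fun x => ?_⟩
  obtain ⟨γ, hγ⟩ := T.𝒟.cover x
  rw [← T.det_Qm_smul γ x]
  exact h _ hγ

/-- value of the invariant function in terms of the coefficients -/
lemma lam_eq {l : Fin 3} {x : P} (hx : x ∈ T.U l) :
    T.lam x = T.S x l l * (T.cc l x ⬝ᵥ (T.Qm x).mulVec (T.cc l x)) := by
  unfold lam
  simp only [Matrix.trace, Matrix.diag, Matrix.mul_apply, dotProduct, mulVec]
  rw [Finset.mul_sum]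
  refine Finset.sum_congr rfl fun i _ => ?_
  rw [Finset.mul_sum, Finset.mul_sum]
  refine Finset.sum_congr rfl fun j _ => ?_
  rw [T.S_apply hx j i]
  ring

end Tor

end Pool.Agent.TH607
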