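import Mathlib
import Pool.Agent.TH607.Equiv

/-! The leaf field. -/

open scoped Topology ContDiff Manifold
open Set Metric Bundle Matrix Pool.Agent.Helper186 Pool.Agent.H826R2.Wein

noncomputable section

namespace Pool.Agent.TH607

set_option linter.unusedSectionVars false

universe u v w

namespace Tor

variable {E : Type u} [NormedAddCommGroup E] [NormedSpace ℝ E] [FiniteDimensional ℝ E]
  {P : Type v} [TopologicalSpace P] [ChartedSpace E P] [IsManifold 𝓘(ℝ, E) ∞ P]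
  {Γ : Type w} [Group Γ] [MulAction Γ P] (T : Tor E P Γ)

/-- projection of `a` to the orthogonal of `κ` -/
def bv (a : Fin 3 → ℝ) (x : P) : Fin 3 → ℝ := a - (a ⬝ᵥ T.kp x) • T.ph x

lemma bv_kp (a : Fin 3 → ℝ) (x : P) : T.bv a x ⬝ᵥ T.kp x = 0 := by
  unfold bv
  rw [sub_dotProduct, smul_dotProduct, dotProduct_comm (T.ph x), T.kp_ph]
  simp

/-- potential of the leaf field -/
def wv (a : Fin 3 → ℝ) (x : P) : Fin 3 → ℝ := (T.Qm x)⁻¹.mulVec (T.bv a x)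

lemma Qm_wv (a : Fin 3 → ℝ) (x : P) : (T.Qm x).mulVec (T.wv a x) = T.bv a x := by
  unfold wv
  rw [Matrix.mulVec_mulVec, Matrix.mul_nonsing_inv _ (isUnit_iff_ne_zero.2 (T.Qm_det x)),
    Matrix.one_mulVec]

lemma wv_ph (a : Fin 3 → ℝ) (x : P) : T.wv a x ⬝ᵥ T.ph x = 0 := by
  rw [← T.Qm_kp x, dotProduct_mulVec, ← mulVec_transpose, T.Qm_symm, T.Qm_wv, T.bv_kp]

/-- the squared length -/
def Nv (a : Fin 3 → ℝ) (x : P) : ℝ := T.wv a x ⬝ᵥ T.bv a x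

/-- the leaf field before normalisation -/
def zt (a : Fin 3 → ℝ) (x : P) : TangentSpace 𝓘(ℝ, E) x := T.ι.grad (T.A.H (T.wv a x)) x

lemma dForm_zt (a κ : Fin 3 → ℝ) (x : P) :
    dForm 𝓘(ℝ, E) (T.A.H κ) x (T.zt a x) = κ ⬝ᵥ T.bv a x := by
  have h1 : T.ι.G2 (T.A.H κ) (T.A.H (T.wv a x)) x =
      ∑ i, κ i * T.ι.G2 (T.A.H (Pi.single i 1)) (T.A.H (T.wv a x)) x := by
    have := lin_expand ((T.A.GB T.ι T.hc.smooth x).flip (T.wv a x)) κ
    exact this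
  have h2 : ∀ i, T.ι.G2 (T.A.H (Pi.single i 1)) (T.A.H (T.wv a x)) x = T.bv a x i := by
    intro i
    have h3 := T.Qm_mulVec (T.wv a x) x i
    rw [T.Qm_wv, T.wv_ph, mul_zero, add_zero] at h3
    exact h3.symm
  show T.ι.G2 (T.A.H κ) (T.A.H (T.wv a x)) x = _
  rw [h1]
  simp only [h2]
  rfl

lemma dph_zt (a : Fin 3 → ℝ) (x : P) : dv T.ph x (T.zt a x) = T.bv a x := by
  ext i
  have := T.dForm_zt a (Pi.single i 1) x
  rw [single_one_dotProduct] at this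
  exact this

lemma G_wv (a : Fin 3 → ℝ) (x : P) : T.ι.G (T.A.H (T.wv a x)) x = T.Nv a x :=
  T.dForm_zt a (T.wv a x) x

lemma Nv_nonneg (a : Fin 3 → ℝ) (x : P) : 0 ≤ T.Nv a x := by
  rw [← T.G_wv]; exact T.ι.G_nonneg _ _

lemma smooth_zt (a : Fin 3 → ℝ) : ContMDiff 𝓘(ℝ, E) 𝓘(ℝ, E).tangent ∞
    (fun x => (⟨x, T.zt a x⟩ : TangentBundle 𝓘(ℝ, E) P)) := by
  have hb : ∀ j, Sm (E := E) (fun x => T.bv a x j) := by
    intro j
    have e : (fun x => T.bv a x j) = fun x => a j - (∑ i, a i * T.kp x i) * T.ph x j := by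
      ext1 x; rfl
    rw [e]
    exact contMDiff_const.sub ((contMDiff_sum3 fun i => contMDiff_const.mul (T.sm_kp i)).mul
      (T.sm_ph j))
  have hw : ∀ i, Sm (E := E) (fun x => T.wv a x i) := by
    intro i
    have e : (fun x => T.wv a x i) = fun x => ∑ j, (T.Qm x)⁻¹ i j * T.bv a x j := by
      ext1 x; rfl
    rw [e]
    exact contMDiff_sum3 fun j => (T.sm_Qinv i j).mul (hb j)
  have e : ∀ x, T.zt a x = T.wv a x 0 • T.ι.grad (T.A.H (Pi.single 0 1)) x +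
      (T.wv a x 1 • T.ι.grad (T.A.H (Pi.single 1 1)) x +
        T.wv a x 2 • T.ι.grad (T.A.H (Pi.single 2 1)) x) := by
    intro x
    have h1 : T.wv a x = T.wv a x 0 • (Pi.single 0 1 : Fin 3 → ℝ) +
        (T.wv a x 1 • (Pi.single 1 1 : Fin 3 → ℝ) + T.wv a x 2 • (Pi.single 2 1 : Fin 3 → ℝ)) := by
      ext i
      fin_cases i <;> simp
    unfold zt
    conv_lhs => rw [h1]
    rw [T.A.grad_H_add T.ι T.hc.smooth, T.A.grad_H_add T.ι T.hc.smooth,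
      T.A.grad_H_smul T.ι T.hc.smooth, T.A.grad_H_smul T.ι T.hc.smooth,
      T.A.grad_H_smul T.ι T.hc.smooth]
  simp only [e]
  intro x
  have hs : ∀ i : Fin 3, ContMDiffAt 𝓘(ℝ, E) 𝓘(ℝ, E).tangent ∞
      (fun x => (⟨x, T.wv a x i • T.ι.grad (T.A.H (Pi.single i 1)) x⟩ :
        TangentBundle 𝓘(ℝ, E) P)) x := fun i =>
    contMDiffAt_smul_along (f := fun x : P => x) (hw i x) (T.ι.smooth_grad (T.sm_H _) x)
  exact contMDiffAt_add_along (f := fun x : P => x) (hs 0)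
    (contMDiffAt_add_along (f := fun x : P => x) (hs 1) (hs 2))

lemma sm_Nv (a : Fin 3 → ℝ) : Sm (E := E) (T.Nv a) := by
  have hb : ∀ j, Sm (E := E) (fun x => T.bv a x j) := by
    intro j
    have e : (fun x => T.bv a x j) = fun x => a j - (∑ i, a i * T.kp x i) * T.ph x j := by
      ext1 x; rfl
    rw [e]
    exact contMDiff_const.sub ((contMDiff_sum3 fun i => contMDiff_const.mul (T.sm_kp i)).mul
      (T.sm_ph j))
  have hw : ∀ i, Sm (E := E) (fun x => T.wv a x i) := by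
    intro i
    have e : (fun x => T.wv a x i) = fun x => ∑ j, (T.Qm x)⁻¹ i j * T.bv a x j := by
      ext1 x; rfl
    rw [e]
    exact contMDiff_sum3 fun j => (T.sm_Qinv i j).mul (hb j)
  have e : T.Nv a = fun x => ∑ i, T.wv a x i * T.bv a x i := by
    ext1 x; rfl
  rw [e]
  exact contMDiff_sum3 fun i => (hw i).mul (hb i)

/-- the normalising factor -/
def fac (a : Fin 3 → ℝ) (x : P) : ℝ := (1 + T.Nv a x)⁻¹

lemma fac_pos (a : Fin 3 → ℝ) (x : P) : 0 < T.fac a x := by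
  have := T.Nv_nonneg a x
  unfold fac
  positivity

/-- the leaf field -/
def Z (a : Fin 3 → ℝ) (x : P) : TangentSpace 𝓘(ℝ, E) x := T.fac a x • T.zt a x

lemma sm_fac (a : Fin 3 → ℝ) : Sm (E := E) (T.fac a) := by
  intro x
  have h1 : ContMDiffAt 𝓘(ℝ, E) 𝓘(ℝ, ℝ) ∞ (fun x => 1 + T.Nv a x) x :=
    contMDiffAt_const.add (T.sm_Nv a x)
  have h2 : (1 + T.Nv a x) ≠ 0 := by have := T.Nv_nonneg a x; positivity
  exact (contDiffAt_inv ℝ h2).contMDiffAt.comp x h1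

lemma smooth_Z (a : Fin 3 → ℝ) : ContMDiff 𝓘(ℝ, E) 𝓘(ℝ, E).tangent ∞
    (fun x => (⟨x, T.Z a x⟩ : TangentBundle 𝓘(ℝ, E) P)) := fun x =>
  contMDiffAt_smul_along (f := fun x : P => x) (T.sm_fac a x) (T.smooth_zt a x)

lemma norm_Z (a : Fin 3 → ℝ) (x : P) : ‖T.ι.D x (T.Z a x)‖ ≤ 1 := by
  have h1 : ‖T.ι.D x (T.zt a x)‖ ^ 2 = T.Nv a x := by
    rw [← T.G_wv, T.ι.G_eq]; rfl
  have h2 := T.Nv_nonneg a x
  have h3 : T.ι.D x (T.Z a x) = T.fac a x • T.ι.D x (T.zt a x) := map_smul _ _ _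
  rw [h3, norm_smul, Real.norm_eq_abs, abs_of_pos (T.fac_pos a x)]
  unfold fac
  rw [inv_mul_le_iff₀ (by positivity)]
  nlinarith [norm_nonneg (T.ι.D x (T.zt a x)), sq_nonneg (‖T.ι.D x (T.zt a x)‖ - 1)]

lemma dph_Z (a : Fin 3 → ℝ) (x : P) : dv T.ph x (T.Z a x) = T.fac a x • T.bv a x := by
  unfold Z
  rw [dv_smul, T.dph_zt]

lemma dkp_Z (a : Fin 3 → ℝ) (x : P) : dv T.kp x (T.Z a x) = T.fac a x • (T.S x).mulVec a := by
  rw [← T.S_dph, T.dph_Z, Matrix.mulVec_smul]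
  unfold bv
  rw [Matrix.mulVec_sub, Matrix.mulVec_smul, T.S_ph, smul_zero, sub_zero]

lemma dkl_Z {l : Fin 3} (a : Fin 3 → ℝ) {x : P} (hx : x ∈ T.U l) :
    dForm 𝓘(ℝ, E) (T.kl l) x (T.Z a x) = T.fac a x * (T.S x l l * (T.cc l x ⬝ᵥ a)) := by
  have h := congrFun (T.dkp_Z a x) l
  have h2 : ((T.S x).mulVec a) l = T.S x l l * (T.cc l x ⬝ᵥ a) := by
    simp only [mulVec, dotProduct]
    rw [Finset.mul_sum]
    refine Finset.sum_congr rfl fun j _ => ?_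
    rw [T.S_apply hx l j, T.cc_self hx]
    ring
  rw [← h2]
  exact h

section flow

variable [T2Space P] [SigmaCompactSpace P]

/-- the leaf flow -/
def Fl (a : Fin 3 → ℝ) (x : P) : ℝ → P :=
  Classical.choose (JobWT.complete_bounded T.𝒟 (T.smooth_Z a) (T.norm_Z a) x)

lemma Fl_zero (a : Fin 3 → ℝ) (x : P) : T.Fl a x 0 = x :=
  (Classical.choose_spec (JobWT.complete_bounded T.𝒟 (T.smooth_Z a) (T.norm_Z a) x)).1

lemma Fl_int (a : Fin 3 → ℝ) (x : P) : IsMIntegralCurve (I := 𝓘(ℝ, E)) (T.Fl a x) (T.Z a) :=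
  (Classical.choose_spec (JobWT.complete_bounded T.𝒟 (T.smooth_Z a) (T.norm_Z a) x)).2

lemma Fl_add (a : Fin 3 → ℝ) (x : P) (s t : ℝ) : T.Fl a x (s + t) = T.Fl a (T.Fl a x s) t := by
  have : IsManifold 𝓘(ℝ, E) 1 P := IsManifold.of_le (n := ∞) (by simp)
  exact flow_add (T.smooth_Z a) (T.Fl_zero a) (T.Fl_int a) x s t

lemma smooth_Fl (a : Fin 3 → ℝ) : ContMDiff (𝓘(ℝ, E).prod 𝓘(ℝ, ℝ)) 𝓘(ℝ, E) ∞
    (fun p : P × ℝ => T.Fl a p.1 p.2) := by
  have : IsManifold 𝓘(ℝ, E) 1 P := IsManifold.of_le (n := ∞) (by simp)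
  exact contMDiff_flow (T.smooth_Z a) (T.Fl_zero a) (T.Fl_int a)

lemma cont_Fl (a : Fin 3 → ℝ) (x : P) : Continuous (T.Fl a x) :=
  (T.smooth_Fl a).continuous.comp (by fun_prop : Continuous fun t : ℝ => (x, t))

lemma deriv_Fl (a : Fin 3 → ℝ) (x : P) {f : P → ℝ} (hf : Sm (E := E) f) (t : ℝ) :
    HasDerivAt (fun s => f (T.Fl a x s))
      (dForm 𝓘(ℝ, E) f (T.Fl a x t) (T.Z a (T.Fl a x t))) t :=
  hasDerivAt_along (W := T.Z a) (T.Fl_int a x t) hf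

end flow

end Tor

end Pool.Agent.TH607
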