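import Mathlib
import Pool.Agent.TH607.Field

/-! Rigidity of the leaves. -/

open scoped Topology ContDiff Manifold
open Set Metric Bundle Matrix Pool.Agent.Helper186 Pool.Agent.H826R2.Wein

noncomputable section

namespace Pool.Agent.TH607

set_option linter.unusedSectionVars false

universe u v w

namespace Tor

variable {E : Type u} [NormedAddCommGroup E] [NormedSpace ℝ E] [FiniteDimensional ℝ E]
  {P : Type v} [TopologicalSpace P] [ChartedSpace E P] [IsManifold 𝓘(ℝ, E) ∞ P]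
  {Γ : Type w} [Group Γ] [MulAction Γ P] (T : Tor E P Γ)

/-- second coefficients -/
def dd (l : Fin 3) (x : P) : Fin 3 → ℝ := fun i =>
  T.ι.G2 (fun y => T.cc l y i) (T.kl l) x / T.ι.G (T.kl l) x

variable {T} in
lemma NF.dd_eq {l : Fin 3} {I : Set ℝ} {g : ℝ → Fin 3 → ℝ} {x : P} (h : T.NF l I g x) :
    T.dd l x = deriv (deriv g) (T.kl l x) := by
  have hx := h.ev.self_of_nhds
  have hd := h.hd hx.2.1
  ext i
  have hdi : HasDerivAt (fun s => deriv g s i) (deriv (deriv g) (T.kl l x) i) (T.kl l x) :=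
    (hasDerivAt_pi.1 hd) i
  have h1 : (fun y => T.cc l y i) =ᶠ[𝓝 x] fun y => deriv g (T.kl l y) i := by
    filter_upwards [h.ev] with y hy
    rw [hy.2.2.2]
  have h2 := dForm_congr (E := E) h1
  have h3 := (dForm_comp1 ((T.sm_kl l).md x) hdi (T.ι.grad (T.kl l) x)).2
  unfold dd Imm.G2
  rw [h2, h3]
  exact mul_div_cancel_right₀ _ hx.1

variable {T} in
lemma NF.S_inv {l : Fin 3} {I : Set ℝ} {g : ℝ → Fin 3 → ℝ} {x : P} (h : T.NF l I g x) :
    (T.S x l l)⁻¹ = -(T.dd l x ⬝ᵥ T.ph x) := by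
  have hx := h.ev.self_of_nhds
  have h1 := T.nf_F h (T.ι.grad (T.kl l) x)
  rw [T.cc_dph hx.1, ← h.dd_eq] at h1
  exact mul_right_cancel₀ hx.1 h1

lemma S_inv {l : Fin 3} {x : P} (hx : x ∈ T.U l) :
    (T.S x l l)⁻¹ = -(T.dd l x ⬝ᵥ T.ph x) := by
  obtain ⟨I, g, h⟩ := T.exists_nf hx
  exact h.self_of_nhds.S_inv

lemma cont_dd {l : Fin 3} {x : P} (hx : x ∈ T.U l) : ContinuousAt (T.dd l) x := by
  obtain ⟨I, g, h⟩ := T.exists_nf hx
  have h1 : T.dd l =ᶠ[𝓝 x] fun y => deriv (deriv g) (T.kl l y) := by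
    filter_upwards [h] with y hy using hy.dd_eq
  have h2 := h.self_of_nhds
  refine ContinuousAt.congr ?_ h1.symm
  exact ContinuousAt.comp (f := T.kl l) (h2.cont2 h2.ev.self_of_nhds.2.1)
    (T.sm_kl l).continuous.continuousAt

lemma cont_cc {l : Fin 3} {x : P} (hx : x ∈ T.U l) : ContinuousAt (T.cc l) x :=
  continuousAt_pi.2 fun i => (T.sm_cc l i hx).continuousAt

lemma cont_Sll (l : Fin 3) : Continuous (fun x => T.S x l l) := (T.sm_S l l).continuous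

lemma cont_fac (a : Fin 3 → ℝ) : Continuous (T.fac a) := (T.sm_fac a).continuous

section flow

variable [T2Space P] [SigmaCompactSpace P]

/-- local constancy along the leaf -/
lemma leaf_local {l : Fin 3} {a : Fin 3 → ℝ} {y : P} (hy : y ∈ T.U l)
    (h2 : T.cc l y ⬝ᵥ a = 0) :
    ∀ᶠ τ in 𝓝 (0:ℝ), T.Fl a y τ ∈ T.U l ∧ T.kp (T.Fl a y τ) = T.kp y ∧
      T.cc l (T.Fl a y τ) = T.cc l y ∧ T.dd l (T.Fl a y τ) = T.dd l y := by
  obtain ⟨I, g, hnf⟩ := T.exists_nf hy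
  have h0 := hnf.self_of_nhds
  have h00 := h0.ev.self_of_nhds
  have hc0 : Filter.Tendsto (T.Fl a y) (𝓝 0) (𝓝 y) := by
    have := (T.cont_Fl a y).tendsto 0
    rwa [T.Fl_zero] at this
  set s₀ := T.kl l y with hs₀
  -- the function `p`
  have hd := h0.hd h00.2.1
  have hp : HasDerivAt (fun s => ∑ i, deriv g s i * a i)
      (∑ i, deriv (deriv g) s₀ i * a i) s₀ :=
    HasDerivAt.fun_sum fun i _ => ((hasDerivAt_pi.1 hd) i).mul_const (a i)
  have hp0 : ∑ i, deriv g s₀ i * a i = 0 := by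
    have := h2
    rw [h00.2.2.2] at this
    exact this
  obtain ⟨K, hK⟩ := hp.differentiableAt.isBigO_sub.bound
  have hK2 : ∀ᶠ τ in 𝓝 (0:ℝ), ‖(∑ i, deriv g (T.kl l (T.Fl a y τ)) i * a i)‖ ≤
      K * ‖T.kl l (T.Fl a y τ) - s₀‖ := by
    have h3 : Filter.Tendsto (fun τ => T.kl l (T.Fl a y τ)) (𝓝 0) (𝓝 s₀) :=
      ((T.sm_kl l).continuous.tendsto y).comp hc0
    filter_upwards [h3.eventually hK] with τ hτ
    simpa [hp0] using hτ
  have hC : ∀ᶠ τ in 𝓝 (0:ℝ), |T.fac a (T.Fl a y τ) * T.S (T.Fl a y τ) l l| <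
      |T.fac a y * T.S y l l| + 1 := by
    have h3 : Continuous (fun x => |T.fac a x * T.S x l l|) :=
      ((T.cont_fac a).mul (T.cont_Sll l)).abs
    exact ((h3.tendsto y).comp hc0).eventually_lt_const (lt_add_one _)
  have hnf2 := hc0.eventually hnf
  obtain ⟨ε, hε, hball⟩ := Metric.eventually_nhds_iff.1 ((hK2.and hC).and hnf2)
  have hIoo : ∀ τ ∈ Ioo (-ε) ε, dist τ 0 < ε := fun τ hτ => by
    rw [Real.dist_eq, sub_zero]; exact abs_lt.2 hτ
  set C := |T.fac a y * T.S y l l| + 1 with hCdef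
  have key := Pool.Agent.JobGron.eq_zero_of_deriv_le (F := ℝ) (a := -ε) (b := ε) (t₀ := 0)
    (K := C * K) (y := fun τ => T.kl l (T.Fl a y τ) - s₀)
    (y' := fun τ => dForm 𝓘(ℝ, E) (T.kl l) (T.Fl a y τ) (T.Z a (T.Fl a y τ)))
    ⟨by linarith, hε⟩ (fun τ _ => (T.deriv_Fl a y (T.sm_kl l) τ).sub_const _)
    (fun τ hτ => by
      obtain ⟨⟨h3, h4⟩, h5⟩ := hball (hIoo τ hτ)
      have h6 := h5.ev.self_of_nhds
      show ‖dForm 𝓘(ℝ, E) (T.kl l) (T.Fl a y τ) (T.Z a (T.Fl a y τ))‖ ≤ _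
      have h7 : dForm 𝓘(ℝ, E) (T.kl l) (T.Fl a y τ) (T.Z a (T.Fl a y τ)) =
        (T.fac a (T.Fl a y τ) * T.S (T.Fl a y τ) l l) *
          ∑ i, deriv g (T.kl l (T.Fl a y τ)) i * a i := by
        rw [T.dkl_Z a h6.1, h6.2.2.2, ← mul_assoc]
        rfl
      rw [h7, norm_mul, mul_assoc C K]
      exact mul_le_mul h4.le h3 (norm_nonneg _) (by positivity))
    (by
      show T.kl l (T.Fl a y 0) - s₀ = 0
      rw [T.Fl_zero, sub_self])
  refine Metric.eventually_nhds_iff.2 ⟨ε, hε, fun {τ} hτ => ?_⟩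
  have hτ' : τ ∈ Ioo (-ε) ε := by
    rw [Real.dist_eq, sub_zero] at hτ; exact abs_lt.1 hτ
  obtain ⟨-, h5⟩ := hball hτ
  have h6 := h5.ev.self_of_nhds
  have h7 : T.kl l (T.Fl a y τ) = s₀ := sub_eq_zero.1 (key τ hτ')
  refine ⟨h6.1, ?_, ?_, ?_⟩
  · rw [h6.2.2.1, h7, h00.2.2.1]
  · rw [h6.2.2.2, h7, h00.2.2.2]
  · rw [h5.dd_eq, h7, h0.dd_eq]

/-- the time change -/
def tt (a : Fin 3 → ℝ) (x : P) (τ : ℝ) : ℝ := ∫ σ in (0:ℝ)..τ, T.fac a (T.Fl a x σ)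

lemma tt_zero (a : Fin 3 → ℝ) (x : P) : T.tt a x 0 = 0 := intervalIntegral.integral_same

lemma hasDerivAt_tt (a : Fin 3 → ℝ) (x : P) (τ : ℝ) :
    HasDerivAt (T.tt a x) (T.fac a (T.Fl a x τ)) τ := by
  have hc : Continuous (fun σ => T.fac a (T.Fl a x σ)) := (T.cont_fac a).comp (T.cont_Fl a x)
  exact intervalIntegral.integral_hasDerivAt_right (hc.intervalIntegrable _ _)
    (hc.stronglyMeasurableAtFilter _ _) hc.continuousAt

lemma hasDerivAt_ph (a : Fin 3 → ℝ) (x : P) (τ : ℝ) :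
    HasDerivAt (fun s => T.ph (T.Fl a x s))
      (T.fac a (T.Fl a x τ) • T.bv a (T.Fl a x τ)) τ := by
  rw [hasDerivAt_pi]
  intro i
  have h := T.deriv_Fl a x (T.sm_ph i) τ
  have h2 := congrFun (T.dph_Z a (T.Fl a x τ)) i
  rw [← h2]
  exact h

/-- the momentum along a leaf -/
lemma ph_Fl {a : Fin 3 → ℝ} {x : P} {τ : ℝ}
    (h : ∀ σ ∈ uIcc 0 τ, a ⬝ᵥ T.kp (T.Fl a x σ) = 0) :
    T.ph (T.Fl a x τ) = T.ph x + T.tt a x τ • a := by
  have hd : ∀ σ ∈ uIcc 0 τ, HasDerivWithinAt (fun s => T.ph (T.Fl a x s) - T.tt a x s • a)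
      0 (uIcc 0 τ) σ := by
    intro σ hσ
    have h1 := (T.hasDerivAt_ph a x σ).sub ((T.hasDerivAt_tt a x σ).smul_const a)
    have h2 : T.fac a (T.Fl a x σ) • T.bv a (T.Fl a x σ) - T.fac a (T.Fl a x σ) • a = 0 := by
      unfold bv
      rw [h σ hσ, zero_smul, sub_zero, sub_self]
    rw [h2] at h1
    exact h1.hasDerivWithinAt
  have h3 := (convex_uIcc (0:ℝ) τ).norm_image_sub_le_of_norm_hasDerivWithin_le (C := 0) hd
    (fun σ _ => by simp) left_mem_uIcc right_mem_uIcc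
  rw [zero_mul] at h3
  have h4 := norm_le_zero_iff.1 h3
  have h5 : T.ph (T.Fl a x τ) - T.tt a x τ • a = T.ph (T.Fl a x 0) - T.tt a x 0 • a :=
    sub_eq_zero.1 h4
  rw [T.Fl_zero, T.tt_zero, zero_smul, sub_zero] at h5
  rw [← h5]; abel

lemma tt_ge {a : Fin 3 → ℝ} {x : P} {τ c : ℝ} (hτ : 0 ≤ τ)
    (h : ∀ σ ∈ Icc 0 τ, c ≤ T.fac a (T.Fl a x σ)) : c * τ ≤ T.tt a x τ := by
  have hc : Continuous (fun σ => T.fac a (T.Fl a x σ)) := (T.cont_fac a).comp (T.cont_Fl a x)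
  have h1 := intervalIntegral.integral_mono_on (μ := MeasureTheory.volume) hτ
    (intervalIntegrable_const (c := c)) (hc.intervalIntegrable 0 τ) h
  rw [intervalIntegral.integral_const, sub_zero, smul_eq_mul] at h1
  unfold tt
  linarith

lemma tt_le {a : Fin 3 → ℝ} {x : P} {τ c : ℝ} (hτ : τ ≤ 0)
    (h : ∀ σ ∈ Icc τ 0, c ≤ T.fac a (T.Fl a x σ)) : T.tt a x τ ≤ c * τ := by
  have hc : Continuous (fun σ => T.fac a (T.Fl a x σ)) := (T.cont_fac a).comp (T.cont_Fl a x)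
  have h1 := intervalIntegral.integral_mono_on (μ := MeasureTheory.volume) hτ
    (intervalIntegrable_const (c := c)) (hc.intervalIntegrable τ 0) h
  rw [intervalIntegral.integral_const, zero_sub, smul_eq_mul] at h1
  unfold tt
  rw [intervalIntegral.integral_symm]
  linarith

end flow

end Tor

end Pool.Agent.TH607
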