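import Mathlib
import Pool.Agent.TH607.Leaf

/-! Rigidity of the leaves, global part. -/

open scoped Topology ContDiff Manifold
open Set Metric Bundle Matrix Pool.Agent.Helper186 Pool.Agent.H826R2.Wein

noncomputable section

namespace Pool.Agent.TH607

set_option linter.unusedSectionVars false

universe u v w

namespace Tor

variable {E : Type u} [NormedAddCommGroup E] [NormedSpace ℝ E] [FiniteDimensional ℝ E]
  {P : Type v} [TopologicalSpace P] [ChartedSpace E P] [IsManifold 𝓘(ℝ, E) ∞ P]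
  {Γ : Type w} [Group Γ] [MulAction Γ P] (T : Tor E P Γ)

lemma kp_cc_indep {l : Fin 3} {x : P} (hx : x ∈ T.U l) :
    crossProduct (T.kp x) (T.cc l x) ≠ 0 := by
  intro h
  have h1 : crossProduct (T.cc l x) (T.kp x) = 0 := by
    rw [← cross_anticomm, h, neg_zero]
  have h2 : T.cc l x l ≠ 0 := by rw [T.cc_self hx]; exact one_ne_zero
  have h3 := fun i => par_of_cross h1 h2 i
  have h4 : T.kp x = T.kp x l • T.cc l x := by
    ext i
    rw [h3 i, T.cc_self hx, div_one]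
    rfl
  have h5 := T.kp_ph x
  rw [h4, smul_dotProduct, T.cc_ph hx, smul_zero] at h5
  exact zero_ne_one h5

lemma cross_eq {l : Fin 3} {x : P} {a : Fin 3 → ℝ} (ha : a ≠ 0)
    (h1 : T.kp x ⬝ᵥ a = 0) (h2 : T.cc l x ⬝ᵥ a = 0) :
    crossProduct (T.kp x) (T.cc l x) =
      ((crossProduct (T.kp x) (T.cc l x) ⬝ᵥ a) / (a ⬝ᵥ a)) • a := by
  have haa : a ⬝ᵥ a ≠ 0 := fun h => ha (dotProduct_self_eq_zero.1 h)
  have h := cross_of_orth (p := T.kp x) (q := T.cc l x) (f := (a ⬝ᵥ a)⁻¹ • a) (k := a)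
    (by rw [dotProduct_smul, h1, smul_zero]) (by rw [dotProduct_smul, h2, smul_zero])
    (by rw [dotProduct_smul, smul_eq_mul, inv_mul_cancel₀ haa])
  rw [smul_smul] at h
  rw [div_eq_mul_inv]
  exact h

lemma cross_a_ne {l : Fin 3} {x : P} {a : Fin 3 → ℝ} (hx : x ∈ T.U l) (ha : a ≠ 0)
    (h1 : T.kp x ⬝ᵥ a = 0) (h2 : T.cc l x ⬝ᵥ a = 0) :
    crossProduct (T.kp x) (T.cc l x) ⬝ᵥ a ≠ 0 := by
  intro h
  have h3 := T.cross_eq ha h1 h2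
  rw [h, zero_div, zero_smul] at h3
  exact T.kp_cc_indep hx h3

lemma Nv_eq {a : Fin 3 → ℝ} {x : P} (h1 : T.kp x ⬝ᵥ a = 0) :
    T.Nv a x = a ⬝ᵥ (T.Qm x)⁻¹.mulVec a := by
  unfold Nv wv bv
  rw [dotProduct_comm a (T.kp x), h1, zero_smul, sub_zero, dotProduct_comm]

lemma Nv_cross {l : Fin 3} {x : P} {a : Fin 3 → ℝ} (hx : x ∈ T.U l) (ha : a ≠ 0)
    (h1 : T.kp x ⬝ᵥ a = 0) (h2 : T.cc l x ⬝ᵥ a = 0) :
    T.Nv a x * ((crossProduct (T.kp x) (T.cc l x) ⬝ᵥ a) / (a ⬝ᵥ a)) ^ 2 * (T.Qm x).det =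
      T.cc l x ⬝ᵥ (T.Qm x).mulVec (T.cc l x) := by
  have h3 := Pool.Agent.JobAlg.cross_inv (T.Qm x) (T.Qm_symm x) (T.Qm_det x) (T.kp x) (T.cc l x)
  have h4 := T.cross_eq ha h1 h2
  have h5 : T.kp x ⬝ᵥ (T.Qm x).mulVec (T.cc l x) = 0 := by
    rw [dotProduct_mulVec, ← mulVec_transpose, T.Qm_symm, T.Qm_kp, dotProduct_comm]
    exact T.cc_ph hx
  rw [h5, T.Qm_kp, T.kp_ph, one_mul, zero_pow two_ne_zero, sub_zero] at h3
  rw [← h3, T.Nv_eq h1]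
  conv_rhs => rw [h4]
  rw [Matrix.mulVec_smul, dotProduct_smul, smul_dotProduct, smul_eq_mul, smul_eq_mul]
  ring

/-- uniform lower bound for the factor -/
lemma exists_fac_bound {a : Fin 3 → ℝ} (ha : a ≠ 0) {m m' : ℝ} (hm : 0 < m) (hm' : 0 < m') :
    ∃ b > (0:ℝ), ∀ (l : Fin 3), ∀ x ∈ T.U l, T.kp x ⬝ᵥ a = 0 → T.cc l x ⬝ᵥ a = 0 →
      m ≤ |T.S x l l| → m' ≤ |crossProduct (T.kp x) (T.cc l x) ⬝ᵥ a| → b ≤ T.fac a x := by
  obtain ⟨Λ, hΛ, hlam⟩ := T.exists_lam_bound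
  obtain ⟨δ, hδ, hdet⟩ := T.exists_det_bound
  have haa : 0 < a ⬝ᵥ a := lt_of_le_of_ne (dotProduct_self_star_nonneg a)
    fun h => ha (dotProduct_self_eq_zero.1 h.symm)
  set σ := m' / (a ⬝ᵥ a) with hσ
  have hσ0 : 0 < σ := by positivity
  refine ⟨(1 + Λ / (m * σ ^ 2 * δ))⁻¹, by positivity, ?_⟩
  intro l x hx h1 h2 h3 h4
  have h5 := T.Nv_cross hx ha h1 h2
  set ρ := (crossProduct (T.kp x) (T.cc l x) ⬝ᵥ a) / (a ⬝ᵥ a) with hρ
  have h6 : σ ^ 2 ≤ ρ ^ 2 := by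
    rw [← sq_abs ρ]
    refine pow_le_pow_left₀ hσ0.le ?_ 2
    rw [hρ, abs_div, abs_of_pos haa]
    exact div_le_div_of_nonneg_right h4 haa.le
  have h7 := hlam x
  rw [T.lam_eq hx, abs_mul, ← h5, abs_mul, abs_mul, abs_of_nonneg (T.Nv_nonneg a x),
    abs_of_nonneg (sq_nonneg ρ)] at h7
  have hN := T.Nv_nonneg a x
  have h8 : m * (T.Nv a x * σ ^ 2 * δ) ≤ Λ := by
    refine le_trans ?_ h7
    refine mul_le_mul h3 ?_ (by positivity) (abs_nonneg _)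
    refine mul_le_mul (mul_le_mul_of_nonneg_left h6 hN) (hdet x) hδ.le (by positivity)
  have h9 : T.Nv a x ≤ Λ / (m * σ ^ 2 * δ) := by
    rw [le_div_iff₀ (by positivity)]
    linarith
  unfold fac
  exact inv_anti₀ (by positivity) (by linarith)

section flow

variable [T2Space P] [SigmaCompactSpace P]

lemma isClosed_good (l : Fin 3) (a : Fin 3 → ℝ) (y : P) (C : Set ℝ) (hC : IsClosed C)
    (h0 : (0:ℝ) ∉ C) :
    IsClosed {τ : ℝ | (T.Fl a y τ ∈ T.U l ∧ T.kp (T.Fl a y τ) = T.kp y ∧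
      T.cc l (T.Fl a y τ) = T.cc l y ∧ T.dd l (T.Fl a y τ) = T.dd l y) ∧
      T.S (T.Fl a y τ) l l ∈ C} := by
  apply IsSeqClosed.isClosed
  intro u τ hu hlim
  have hc : Filter.Tendsto (fun n => T.Fl a y (u n)) Filter.atTop (𝓝 (T.Fl a y τ)) :=
    ((T.cont_Fl a y).tendsto τ).comp hlim
  have hS : T.S (T.Fl a y τ) l l ∈ C :=
    hC.mem_of_tendsto (((T.cont_Sll l).tendsto _).comp hc)
      (Filter.Eventually.of_forall fun n => (hu n).2)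
  have hU : T.Fl a y τ ∈ T.U l := T.mem_U_iff.2 fun h => h0 (h ▸ hS)
  refine ⟨⟨hU, ?_, ?_, ?_⟩, hS⟩
  · exact tendsto_nhds_unique ((T.cont_kp.tendsto _).comp hc)
      (tendsto_const_nhds.congr fun n => ((hu n).1.2.1).symm)
  · exact tendsto_nhds_unique ((T.cont_cc hU).tendsto.comp hc)
      (tendsto_const_nhds.congr fun n => ((hu n).1.2.2.1).symm)
  · exact tendsto_nhds_unique ((T.cont_dd hU).tendsto.comp hc)
      (tendsto_const_nhds.congr fun n => ((hu n).1.2.2.2).symm)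

/-- change of `S` along a leaf -/
lemma S_inv_Fl {l : Fin 3} {a : Fin 3 → ℝ} {y : P} {τ : ℝ} (hy : y ∈ T.U l)
    (h1 : T.kp y ⬝ᵥ a = 0)
    (h : ∀ σ ∈ uIcc 0 τ, T.Fl a y σ ∈ T.U l ∧ T.kp (T.Fl a y σ) = T.kp y ∧
      T.cc l (T.Fl a y σ) = T.cc l y ∧ T.dd l (T.Fl a y σ) = T.dd l y) :
    (T.S (T.Fl a y τ) l l)⁻¹ = (T.S y l l)⁻¹ - T.tt a y τ * (T.dd l y ⬝ᵥ a) := by
  have h2 := T.ph_Fl (a := a) (x := y) (τ := τ) (fun σ hσ => by
    rw [(h σ hσ).2.1, dotProduct_comm]; exact h1)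
  have h3 := h τ right_mem_uIcc
  rw [T.S_inv h3.1, T.S_inv hy, h3.2.2.2, h2, dotProduct_add, dotProduct_smul, smul_eq_mul]
  ring

lemma dd_aux {l : Fin 3} {a : Fin 3 → ℝ} {y : P} (hy : y ∈ T.U l)
    (h1 : T.kp y ⬝ᵥ a = 0) (h2 : T.cc l y ⬝ᵥ a = 0) :
    ¬ (0 < (T.dd l y ⬝ᵥ a) * T.S y l l) := by
  intro hpos
  have ha : a ≠ 0 := by
    rintro rfl
    rw [dotProduct_zero, zero_mul] at hpos
    exact lt_irrefl _ hpos
  have hS0 := T.Sll_ne hy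
  set S₀ := T.S y l l with hS₀
  set C : Set ℝ := {s | 1 ≤ s / S₀} with hCdef
  have hC : IsClosed C := isClosed_le continuous_const (continuous_id.div_const _)
  have hC0 : (0:ℝ) ∉ C := by
    intro h
    have : (1:ℝ) ≤ 0 / S₀ := h
    rw [zero_div] at this
    linarith
  set s : Set ℝ := {τ : ℝ | (T.Fl a y τ ∈ T.U l ∧ T.kp (T.Fl a y τ) = T.kp y ∧
      T.cc l (T.Fl a y τ) = T.cc l y ∧ T.dd l (T.Fl a y τ) = T.dd l y) ∧
      T.S (T.Fl a y τ) l l ∈ C} with hs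
  have hclosed : IsClosed s := T.isClosed_good l a y C hC hC0
  have h0s : (0:ℝ) ∈ s := by
    show (T.Fl a y 0 ∈ T.U l ∧ _) ∧ _
    rw [T.Fl_zero]
    refine ⟨⟨hy, rfl, rfl, rfl⟩, ?_⟩
    show 1 ≤ S₀ / S₀
    rw [div_self hS0]
  have hopen : ∀ τ ∈ s, s ∈ 𝓝[>] τ := by
    intro τ hτ
    obtain ⟨⟨g1, g2, g3, g4⟩, g5⟩ := hτ
    have g5' : 1 ≤ T.S (T.Fl a y τ) l l / S₀ := g5
    have hloc := T.leaf_local (a := a) g1 (by rw [g3]; exact h2)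
    have hcont : Filter.Tendsto (fun t => T.S (T.Fl a (T.Fl a y τ) t) l l / S₀) (𝓝 0)
        (𝓝 (T.S (T.Fl a y τ) l l / S₀)) := by
      have h3 : Continuous (fun t => T.S (T.Fl a (T.Fl a y τ) t) l l / S₀) :=
        ((T.cont_Sll l).comp (T.cont_Fl a _)).div_const _
      have h4 := h3.tendsto 0
      simp only [T.Fl_zero] at h4
      exact h4
    have hposev := hcont.eventually_const_lt (lt_of_lt_of_le zero_lt_one g5')
    obtain ⟨ε, hε, hball⟩ := Metric.eventually_nhds_iff.1 (hloc.and hposev)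
    refine Filter.mem_of_superset (Ioo_mem_nhdsGT (lt_add_of_pos_right τ hε)) ?_
    intro τ' hτ'
    obtain ⟨t, rfl⟩ : ∃ t, τ' = τ + t := ⟨τ' - τ, by ring⟩
    have ht0 : 0 < t := by linarith [hτ'.1]
    have htε : t < ε := by linarith [hτ'.2]
    have hd : ∀ σ ∈ uIcc 0 t, dist σ 0 < ε := by
      intro σ hσ
      rw [uIcc_of_le ht0.le] at hσ
      rw [Real.dist_eq, sub_zero, abs_of_nonneg hσ.1]
      linarith [hσ.2]
    have hgood := hball (hd t right_mem_uIcc)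
    have hSe := T.S_inv_Fl (a := a) (τ := t) g1 (by rw [g2]; exact h1)
      (fun σ hσ => (hball (hd σ hσ)).1)
    rw [g4] at hSe
    have htt : 0 ≤ T.tt a (T.Fl a y τ) t := by
      have := T.tt_ge (a := a) (x := T.Fl a y τ) (c := 0) ht0.le
        (fun σ _ => (T.fac_pos a _).le)
      linarith
    show (T.Fl a y (τ + t) ∈ T.U l ∧ _) ∧ _
    rw [T.Fl_add]
    refine ⟨⟨hgood.1.1, hgood.1.2.1.trans g2, hgood.1.2.2.1.trans g3,
      hgood.1.2.2.2.trans g4⟩, ?_⟩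
    show 1 ≤ T.S (T.Fl a (T.Fl a y τ) t) l l / S₀
    have hr := hgood.2
    set S₁ := T.S (T.Fl a (T.Fl a y τ) t) l l with hS₁
    set S₂ := T.S (T.Fl a y τ) l l with hS₂
    have e1 : S₀ * S₁⁻¹ = S₀ * S₂⁻¹ - T.tt a (T.Fl a y τ) t * ((T.dd l y ⬝ᵥ a) * S₀) := by
      rw [hSe]; ring
    have e2 : S₀ * S₂⁻¹ ≤ 1 := by
      have : S₀ * S₂⁻¹ = (S₂ / S₀)⁻¹ := by rw [inv_div]; rfl
      rw [this]
      exact inv_le_one_of_one_le₀ g5'
    have e3 : S₀ * S₁⁻¹ ≤ 1 := by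
      have := mul_nonneg htt hpos.le
      linarith
    have e4 : S₀ * S₁⁻¹ = (S₁ / S₀)⁻¹ := by rw [inv_div]; rfl
    rw [e4] at e3
    exact (inv_le_one₀ hr).1 e3
  have hall : ∀ N : ℝ, 0 ≤ N → ∀ σ ∈ Icc (0:ℝ) N, σ ∈ s := by
    intro N hN σ hσ
    exact (hclosed.inter isClosed_Icc).Icc_subset_of_forall_mem_nhdsWithin h0s
      (fun x hx => hopen x hx.1) hσ
  obtain ⟨b, hb, hfac⟩ := T.exists_fac_bound ha (m := |S₀|)
    (m' := |crossProduct (T.kp y) (T.cc l y) ⬝ᵥ a|) (abs_pos.2 hS0)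
    (abs_pos.2 (T.cross_a_ne hy ha h1 h2))
  set D := (T.dd l y ⬝ᵥ a) * S₀ with hD
  set N := (b * D)⁻¹ with hNdef
  have hN : 0 < N := by positivity
  have hgood := hall N hN.le
  have h3 := T.tt_ge (a := a) (x := y) (c := b) hN.le (fun σ hσ => by
    obtain ⟨⟨g1, g2, g3, g4⟩, g5⟩ := hgood σ hσ
    refine hfac l _ g1 (by rw [g2]; exact h1) (by rw [g3]; exact h2) ?_ (by rw [g2, g3])
    have g5' : 1 ≤ T.S (T.Fl a y σ) l l / S₀ := g5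
    have h4 : 1 ≤ |T.S (T.Fl a y σ) l l| / |S₀| := by
      rw [← abs_div]; exact g5'.trans (le_abs_self _)
    rwa [le_div_iff₀ (abs_pos.2 hS0), one_mul] at h4)
  have h4 := T.S_inv_Fl (a := a) (τ := N) hy h1 (fun σ hσ => by
    rw [uIcc_of_le hN.le] at hσ
    exact (hgood σ hσ).1)
  have h5 : 1 ≤ T.S (T.Fl a y N) l l / S₀ := (hgood N (right_mem_Icc.2 hN.le)).2
  have h6 : 0 < S₀ * (T.S (T.Fl a y N) l l)⁻¹ := by
    have : S₀ * (T.S (T.Fl a y N) l l)⁻¹ = (T.S (T.Fl a y N) l l / S₀)⁻¹ := by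
      rw [inv_div]; rfl
    rw [this]
    positivity
  rw [h4, mul_sub, mul_inv_cancel₀ hS0] at h6
  have h7 : T.tt a y N * D < 1 := by rw [hD]; linarith
  have h8 : b * N * D = 1 := by
    rw [hNdef]
    field_simp
  have h9 : b * N * D ≤ T.tt a y N * D := mul_le_mul_of_nonneg_right h3 hpos.le
  linarith

/-- the second coefficients are orthogonal to the kernel direction -/
lemma dd_a {l : Fin 3} {a : Fin 3 → ℝ} {y : P} (hy : y ∈ T.U l)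
    (h1 : T.kp y ⬝ᵥ a = 0) (h2 : T.cc l y ⬝ᵥ a = 0) : T.dd l y ⬝ᵥ a = 0 := by
  have h3 := T.dd_aux hy h1 h2
  have h4 := T.dd_aux (a := -a) hy (by rw [dotProduct_neg, h1, neg_zero])
    (by rw [dotProduct_neg, h2, neg_zero])
  rw [dotProduct_neg, neg_mul] at h4
  have h5 : (T.dd l y ⬝ᵥ a) * T.S y l l = 0 := by linarith [not_lt.1 h3, not_lt.1 h4]
  exact (mul_eq_zero.1 h5).resolve_right (T.Sll_ne hy)

/-- constancy along leaves -/
lemma leaf_const {l : Fin 3} {a : Fin 3 → ℝ} {y : P} (hy : y ∈ T.U l)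
    (h1 : T.kp y ⬝ᵥ a = 0) (h2 : T.cc l y ⬝ᵥ a = 0) (τ : ℝ) :
    (T.Fl a y τ ∈ T.U l ∧ T.kp (T.Fl a y τ) = T.kp y ∧
      T.cc l (T.Fl a y τ) = T.cc l y ∧ T.dd l (T.Fl a y τ) = T.dd l y) ∧
      T.S (T.Fl a y τ) l l = T.S y l l := by
  set s : Set ℝ := {τ : ℝ | (T.Fl a y τ ∈ T.U l ∧ T.kp (T.Fl a y τ) = T.kp y ∧
      T.cc l (T.Fl a y τ) = T.cc l y ∧ T.dd l (T.Fl a y τ) = T.dd l y) ∧
      T.S (T.Fl a y τ) l l ∈ ({T.S y l l} : Set ℝ)} with hs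
  have hclosed : IsClosed s := T.isClosed_good l a y _ isClosed_singleton
    (fun h => T.Sll_ne hy (mem_singleton_iff.1 h).symm)
  have h0s : (0:ℝ) ∈ s := by
    show (T.Fl a y 0 ∈ T.U l ∧ _) ∧ _
    rw [T.Fl_zero]
    exact ⟨⟨hy, rfl, rfl, rfl⟩, rfl⟩
  have hopen : IsOpen s := by
    rw [isOpen_iff_mem_nhds]
    intro τ hτ
    obtain ⟨⟨g1, g2, g3, g4⟩, g5⟩ := hτ
    have hloc := T.leaf_local (a := a) g1 (by rw [g3]; exact h2)
    obtain ⟨ε, hε, hball⟩ := Metric.eventually_nhds_iff.1 hloc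
    refine Metric.mem_nhds_iff.2 ⟨ε, hε, ?_⟩
    intro τ' hτ'
    obtain ⟨t, rfl⟩ : ∃ t, τ' = τ + t := ⟨τ' - τ, by ring⟩
    have ht : |t| < ε := by
      rw [mem_ball, Real.dist_eq, add_sub_cancel_left] at hτ'
      exact hτ'
    have hd : ∀ σ ∈ uIcc 0 t, dist σ 0 < ε := by
      intro σ hσ
      rw [Real.dist_eq]
      have := abs_sub_left_of_mem_uIcc hσ
      rw [sub_zero] at this
      rw [sub_zero] at this ⊢
      exact lt_of_le_of_lt this ht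
    have hgood := hball (hd t right_mem_uIcc)
    have hSe := T.S_inv_Fl (a := a) (τ := t) g1 (by rw [g2]; exact h1)
      (fun σ hσ => (hball (hd σ hσ)))
    rw [T.dd_a g1 (by rw [g2]; exact h1) (by rw [g3]; exact h2), mul_zero, sub_zero] at hSe
    show (T.Fl a y (τ + t) ∈ T.U l ∧ _) ∧ _
    rw [T.Fl_add]
    refine ⟨⟨hgood.1, hgood.2.1.trans g2, hgood.2.2.1.trans g3,
      hgood.2.2.2.trans g4⟩, ?_⟩
    show T.S (T.Fl a (T.Fl a y τ) t) l l = T.S y l l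
    rw [inv_inj.1 hSe]
    exact g5
  have huniv : s = univ := IsClopen.eq_univ ⟨hclosed, hopen⟩ ⟨0, h0s⟩
  have : τ ∈ s := by rw [huniv]; exact mem_univ _
  exact this

lemma leaf_S {l : Fin 3} {a : Fin 3 → ℝ} {y : P} (hy : y ∈ T.U l)
    (h1 : T.kp y ⬝ᵥ a = 0) (h2 : T.cc l y ⬝ᵥ a = 0) (τ : ℝ) :
    T.S (T.Fl a y τ) = T.S y := by
  obtain ⟨⟨g1, g2, g3, g4⟩, g5⟩ := T.leaf_const hy h1 h2 τ
  ext i j
  rw [T.S_apply g1, T.S_apply hy, g3, g5]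

lemma leaf_ph {l : Fin 3} {a : Fin 3 → ℝ} {y : P} (hy : y ∈ T.U l)
    (h1 : T.kp y ⬝ᵥ a = 0) (h2 : T.cc l y ⬝ᵥ a = 0) (τ : ℝ) :
    T.ph (T.Fl a y τ) = T.ph y + T.tt a y τ • a :=
  T.ph_Fl fun σ _ => by
    rw [(T.leaf_const hy h1 h2 σ).1.2.1, dotProduct_comm]
    exact h1

end flow

end Tor

end Pool.Agent.TH607
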