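import Mathlib
import Pool.Agent.TH607.Leaf2

/-! Transversal curves. -/

open scoped Topology ContDiff Manifold
open Set Metric Bundle Matrix Pool.Agent.Helper186 Pool.Agent.H826R2.Wein

noncomputable section

namespace Pool.Agent.TH607

set_option linter.unusedSectionVars false

universe u v w

section gen

variable {E : Type u} [NormedAddCommGroup E] [NormedSpace ℝ E] [FiniteDimensional ℝ E]
  {P : Type v} [TopologicalSpace P] [ChartedSpace E P] [IsManifold 𝓘(ℝ, E) ∞ P]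

/-- derivative of a function along a curve -/
lemma hasDerivAt_curve {c : ℝ → P} {t : ℝ} {w : TangentSpace 𝓘(ℝ, E) (c t)}
    (hc : HasMFDerivAt 𝓘(ℝ, ℝ) 𝓘(ℝ, E) c t ((1 : ℝ →L[ℝ] ℝ).smulRight w))
    {f : P → ℝ} (hf : Sm (E := E) f) :
    HasDerivAt (fun s => f (c s)) (dForm 𝓘(ℝ, E) f (c t) w) t := by
  have h1 := HasMFDerivAt.comp t (g := f) (f := c)
    (hf.mdifferentiableAt (by simp)).hasMFDerivAt hc
  have h2 : HasFDerivAt (fun s => f (c s)) (show ℝ →L[ℝ] ℝ from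
      (mfderiv 𝓘(ℝ, E) 𝓘(ℝ, ℝ) f (c t)).comp ((1 : ℝ →L[ℝ] ℝ).smulRight w)) t :=
    hasMFDerivAt_iff_hasFDerivAt.1 h1
  have h3 := h2.hasDerivAt
  refine h3.congr_deriv ?_
  show (mfderiv 𝓘(ℝ, E) 𝓘(ℝ, ℝ) f (c t)) ((1:ℝ) • w) = _
  rw [one_smul]
  rfl

lemma dForm_sq_le {n : ℕ} (ι : Imm (E := E) P n) (f : P → ℝ) (x : P)
    (u : TangentSpace 𝓘(ℝ, E) x) :
    |dForm 𝓘(ℝ, E) f x u| ≤ Real.sqrt (ι.G f x) * ‖ι.D x u‖ := by
  rw [← ι.grad_spec, ι.B_apply, ι.G_eq, Real.sqrt_sq (norm_nonneg _)]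
  exact abs_real_inner_le_norm _ _

end gen

namespace Tor

variable {E : Type u} [NormedAddCommGroup E] [NormedSpace ℝ E] [FiniteDimensional ℝ E]
  {P : Type v} [TopologicalSpace P] [ChartedSpace E P] [IsManifold 𝓘(ℝ, E) ∞ P]
  {Γ : Type w} [Group Γ] [MulAction Γ P] (T : Tor E P Γ)

lemma dd_self {l : Fin 3} {x : P} (hx : x ∈ T.U l) : T.dd l x l = 0 := by
  have h1 : (fun y => T.cc l y l) =ᶠ[𝓝 x] fun _ => 1 := by
    filter_upwards [(T.isOpen_U l).mem_nhds hx] with y hy using T.cc_self hy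
  unfold dd Imm.G2
  rw [dForm_eq_zero_of_eventually (E := E) h1]
  show (0:ℝ) / _ = 0
  rw [zero_div]

lemma cc_eq_S {l : Fin 3} {x : P} (hx : x ∈ T.U l) (i : Fin 3) :
    T.cc l x i = T.S x i l / T.S x l l := by
  rw [T.S_apply hx i l, T.cc_self hx, mul_one, mul_div_cancel_left₀ _ (T.Sll_ne hx)]

lemma cc_act {l : Fin 3} {θ : Fin 3 → ℝ} {x : P} (hx : x ∈ T.U l) :
    T.cc l (T.A.act θ x) = T.cc l x := by
  ext i
  rw [T.cc_eq_S (T.U_act.2 hx), T.cc_eq_S hx, T.S_act]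

/-- squared length of the differential of `κ_l` -/
lemma G_kl {l : Fin 3} {x : P} (hx : x ∈ T.U l) : T.ι.G (T.kl l) x = T.S x l l * T.lam x := by
  have h1 := T.dkl_eq hx (T.ι.grad (T.kl l) x)
  have h2 : T.cc l x ⬝ᵥ dv T.ph x (T.ι.grad (T.kl l) x) =
      T.ι.G2 (T.A.H (T.cc l x)) (T.kl l) x := by
    rw [← T.dH_eq]; rfl
  rw [h2, T.G2_symm] at h1
  have h3 : T.ι.G2 (T.kl l) (T.A.H (T.cc l x)) x =
      T.S x l l * (T.cc l x ⬝ᵥ dv T.ph x (T.ι.grad (T.A.H (T.cc l x)) x)) :=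
    T.dkl_eq hx _
  have h4 : T.cc l x ⬝ᵥ dv T.ph x (T.ι.grad (T.A.H (T.cc l x)) x) =
      T.cc l x ⬝ᵥ (T.Qm x).mulVec (T.cc l x) := by
    rw [← T.dH_eq, T.Qm_quad]
    unfold TAct.Q
    rw [T.H_eq, T.cc_ph hx]
    unfold Imm.G
    ring
  rw [h3, h4] at h1
  rw [T.lam_eq hx]
  exact h1

section flow

variable [T2Space P] [SigmaCompactSpace P]

/-- the transversal curve -/
def Cv (l : Fin 3) (x : P) : ℝ → P := Classical.choose (T.𝒟.complete (T.sm_kl l) x)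

lemma Cv_zero (l : Fin 3) (x : P) : T.Cv l x 0 = x :=
  (Classical.choose_spec (T.𝒟.complete (T.sm_kl l) x)).1

lemma Cv_int (l : Fin 3) (x : P) :
    IsMIntegralCurve (I := 𝓘(ℝ, E)) (T.Cv l x) (T.ι.V (T.kl l)) :=
  (Classical.choose_spec (T.𝒟.complete (T.sm_kl l) x)).2

lemma smooth_Cv (l : Fin 3) : ContMDiff (𝓘(ℝ, E).prod 𝓘(ℝ, ℝ)) 𝓘(ℝ, E) ∞
    (fun p : P × ℝ => T.Cv l p.1 p.2) := by
  have : IsManifold 𝓘(ℝ, E) 1 P := IsManifold.of_le (n := ∞) (by simp)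
  exact contMDiff_flow (T.ι.smooth_V (T.sm_kl l)) (T.Cv_zero l) (T.Cv_int l)

lemma cont_Cv (l : Fin 3) (x : P) : Continuous (T.Cv l x) :=
  (T.smooth_Cv l).continuous.comp (by fun_prop : Continuous fun t : ℝ => (x, t))

lemma deriv_Cv (l : Fin 3) (x : P) {f : P → ℝ} (hf : Sm (E := E) f) (t : ℝ) :
    HasDerivAt (fun s => f (T.Cv l x s))
      (dForm 𝓘(ℝ, E) f (T.Cv l x t) (T.ι.V (T.kl l) (T.Cv l x t))) t :=
  hasDerivAt_along (W := T.ι.V (T.kl l)) (T.Cv_int l x t) hf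

/-- speed of `κ_l` -/
def nu (l : Fin 3) (x : P) : ℝ := dForm 𝓘(ℝ, E) (T.kl l) x (T.ι.V (T.kl l) x)

lemma nu_pos {l : Fin 3} {x : P} (hx : x ∈ T.U l) : 0 < T.nu l x := by
  unfold nu
  rw [T.ι.dForm_V_self]
  have h := T.ι.G_nonneg (T.kl l) x
  have h2 : T.ι.G (T.kl l) x ≠ 0 := hx
  positivity

lemma cont_nu (l : Fin 3) : Continuous (T.nu l) := by
  have h : ContMDiff 𝓘(ℝ, E) 𝓘(ℝ, ℝ) ∞ (T.nu l) := fun x =>
    (smoothForm_dForm (T.sm_kl l)).comp (T.ι.smooth_V (T.sm_kl l) x) le_rfl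
  exact h.continuous

/-- the relation for the second coefficients -/
lemma dd_rel {l : Fin 3} {x : P} (hx : x ∈ T.U l) (i : Fin 3) :
    T.dd l x i = (T.dd l x ⬝ᵥ T.ph x) * (T.kp x i - T.kl l x * T.cc l x i) := by
  set α := T.dd l x ⬝ᵥ T.ph x with hα
  set w : Fin 3 → ℝ := T.dd l x - α • (T.kp x - T.kl l x • T.cc l x) with hw
  have e1 : T.kp x ⬝ᵥ crossProduct (T.kp x) (T.cc l x) = 0 := dot_self_cross _ _
  have e2 : T.cc l x ⬝ᵥ crossProduct (T.kp x) (T.cc l x) = 0 := dot_cross_self _ _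
  have h1 : w ⬝ᵥ crossProduct (T.kp x) (T.cc l x) = 0 := by
    rw [hw, sub_dotProduct, smul_dotProduct, sub_dotProduct, smul_dotProduct, e1, e2,
      T.dd_a hx e1 e2]
    simp
  have h2 : w ⬝ᵥ T.ph x = 0 := by
    rw [hw, sub_dotProduct, smul_dotProduct, sub_dotProduct, smul_dotProduct, T.kp_ph,
      T.cc_ph hx, ← hα]
    simp
  have h3 : w l = 0 := by
    show T.dd l x l - α * (T.kp x l - T.kl l x * T.cc l x l) = 0
    rw [T.dd_self hx, T.cc_self hx]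
    show 0 - α * (T.kp x l - T.kp x l * 1) = 0
    ring
  have h4 := cross_of_orth (T.cc_ph hx) h2 (T.kp_ph x)
  have h5 : crossProduct (T.cc l x) w ⬝ᵥ T.kp x = w ⬝ᵥ crossProduct (T.kp x) (T.cc l x) := by
    simp [crossProduct, dotProduct, Fin.sum_univ_three]
    ring
  rw [h5, h1, zero_smul] at h4
  have h6 := par_of_cross h4 (l := l) (by rw [T.cc_self hx]; exact one_ne_zero) i
  rw [h3, zero_mul] at h6
  have h7 : w i = T.dd l x i - α * (T.kp x i - T.kl l x * T.cc l x i) := rfl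
  linarith

/-- derivative of the coefficients along the transversal curve -/
lemma deriv_cc_Cv {l : Fin 3} {x : P} {t : ℝ} (hx : T.Cv l x t ∈ T.U l) :
    HasDerivAt (fun s => T.cc l (T.Cv l x s))
      (T.nu l (T.Cv l x t) • T.dd l (T.Cv l x t)) t := by
  obtain ⟨I, g, hnf⟩ := T.exists_nf hx
  have h0 := hnf.self_of_nhds
  have h1 : (fun s => T.cc l (T.Cv l x s)) =ᶠ[𝓝 t] fun s => deriv g (T.kl l (T.Cv l x s)) := by
    filter_upwards [((T.cont_Cv l x).tendsto t).eventually hnf] with s hs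
    exact hs.ev.self_of_nhds.2.2.2
  refine HasDerivAt.congr_of_eventuallyEq ?_ h1
  have h2 := (h0.hd h0.ev.self_of_nhds.2.1).scomp t (T.deriv_Cv l x (T.sm_kl l) t)
  rw [h0.dd_eq]
  exact h2

lemma deriv_kp_Cv {l : Fin 3} {x : P} {t : ℝ} (hx : T.Cv l x t ∈ T.U l) :
    HasDerivAt (fun s => T.kp (T.Cv l x s))
      (T.nu l (T.Cv l x t) • T.cc l (T.Cv l x t)) t := by
  rw [hasDerivAt_pi]
  intro i
  have h := T.deriv_Cv l x (T.sm_kp i) t
  have h2 : dForm 𝓘(ℝ, E) (fun y => T.kp y i) (T.Cv l x t) (T.ι.V (T.kl l) (T.Cv l x t)) =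
    (T.nu l (T.Cv l x t) • T.cc l (T.Cv l x t)) i := T.dkp_eq hx _ i
  rw [h2] at h
  exact h

/-- the kernel direction is constant along the transversal curve -/
lemma ker_Cv {l : Fin 3} {x : P} {a : Fin 3 → ℝ} {d : ℝ} (hd : 0 < d)
    (hU : ∀ p ∈ Icc (-d) d, T.Cv l x p ∈ T.U l)
    (h1 : T.kp x ⬝ᵥ a = 0) (h2 : T.cc l x ⬝ᵥ a = 0) :
    ∀ p ∈ Icc (-d) d, T.kp (T.Cv l x p) ⬝ᵥ a = 0 ∧ T.cc l (T.Cv l x p) ⬝ᵥ a = 0 := by
  have hdotd : ∀ {f : ℝ → Fin 3 → ℝ} {f' : Fin 3 → ℝ} {t : ℝ}, HasDerivAt f f' t →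
      HasDerivAt (fun s => f s ⬝ᵥ a) (f' ⬝ᵥ a) t := by
    intro f f' t hf
    exact HasDerivAt.fun_sum fun i _ => ((hasDerivAt_pi.1 hf) i).mul_const (a i)
  -- bounds
  have hcont1 : ContinuousOn (fun p => |T.nu l (T.Cv l x p)| *
      (1 + |T.dd l (T.Cv l x p) ⬝ᵥ T.ph (T.Cv l x p)| * (1 + |T.kl l (T.Cv l x p)|)))
      (Icc (-d) d) := by
    intro p hp
    have hc : ContinuousAt (T.Cv l x) p := (T.cont_Cv l x).continuousAt
    have c1 : ContinuousAt (fun p => T.nu l (T.Cv l x p)) p :=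
      ((T.cont_nu l).comp (T.cont_Cv l x)).continuousAt
    have c2 : ContinuousAt (fun p => T.dd l (T.Cv l x p)) p :=
      ContinuousAt.comp (T.cont_dd (hU p hp)) hc
    have c3 : ContinuousAt (fun p => T.ph (T.Cv l x p)) p :=
      (T.cont_ph.comp (T.cont_Cv l x)).continuousAt
    have c4 : ContinuousAt (fun p => T.kl l (T.Cv l x p)) p :=
      ((T.sm_kl l).continuous.comp (T.cont_Cv l x)).continuousAt
    have c5 : ContinuousAt (fun p => T.dd l (T.Cv l x p) ⬝ᵥ T.ph (T.Cv l x p)) p := by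
      have e : (fun p => T.dd l (T.Cv l x p) ⬝ᵥ T.ph (T.Cv l x p)) =
        fun p => ∑ i, T.dd l (T.Cv l x p) i * T.ph (T.Cv l x p) i := rfl
      rw [e]
      exact tendsto_finsetSum _ fun i _ =>
        ((continuousAt_pi.1 c2 i).mul (continuousAt_pi.1 c3 i))
    exact (c1.abs.mul (continuousAt_const.add (c5.abs.mul
      (continuousAt_const.add c4.abs)))).continuousWithinAt
  obtain ⟨K, hK⟩ := isCompact_Icc.bddAbove_image hcont1
  have key := Pool.Agent.JobGron.eq_zero_of_deriv_le (F := ℝ × ℝ) (a := -d) (b := d) (t₀ := 0)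
    (K := K) (y := fun p => (T.kp (T.Cv l x p) ⬝ᵥ a, T.cc l (T.Cv l x p) ⬝ᵥ a))
    (y' := fun p => ((T.nu l (T.Cv l x p) • T.cc l (T.Cv l x p)) ⬝ᵥ a,
      (T.nu l (T.Cv l x p) • T.dd l (T.Cv l x p)) ⬝ᵥ a))
    ⟨by linarith, hd⟩
    (fun p hp => (hdotd (T.deriv_kp_Cv (hU p (Ioo_subset_Icc_self hp)))).prodMk
      (hdotd (T.deriv_cc_Cv (hU p (Ioo_subset_Icc_self hp)))))
    (fun p hp => by
      have hUp := hU p (Ioo_subset_Icc_self hp)
      have hKp := hK ⟨p, Ioo_subset_Icc_self hp, rfl⟩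
      dsimp only at hKp
      set z := T.Cv l x p with hz
      set ν := T.nu l z with hν
      set α := T.dd l z ⬝ᵥ T.ph z with hα
      set s := T.kl l z with hs
      set p1 := T.kp z ⬝ᵥ a with hp1
      set q1 := T.cc l z ⬝ᵥ a with hq1
      have e2 : T.dd l z ⬝ᵥ a = α * (p1 - s * q1) := by
        have : T.dd l z = α • (T.kp z - s • T.cc l z) := by
          ext i
          exact T.dd_rel hUp i
        rw [this, smul_dotProduct, sub_dotProduct, smul_dotProduct]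
        rfl
      rw [smul_dotProduct, smul_dotProduct, e2]
      show max ‖ν • q1‖ ‖ν • (α * (p1 - s * q1))‖ ≤ K * max ‖p1‖ ‖q1‖
      simp only [smul_eq_mul, Real.norm_eq_abs, abs_mul]
      set m := max |p1| |q1| with hm
      have hm1 : |p1| ≤ m := le_max_left _ _
      have hm2 : |q1| ≤ m := le_max_right _ _
      have hm0 : 0 ≤ m := (abs_nonneg _).trans hm1
      have hν0 := abs_nonneg ν
      have hα0 := abs_nonneg α
      have hs0 := abs_nonneg s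
      have h3 : |p1 - s * q1| ≤ (1 + |s|) * m := by
        calc |p1 - s * q1| ≤ |p1| + |s * q1| := abs_sub _ _
          _ = |p1| + |s| * |q1| := by rw [abs_mul]
          _ ≤ m + |s| * m := add_le_add hm1 (mul_le_mul_of_nonneg_left hm2 hs0)
          _ = (1 + |s|) * m := by ring
      refine max_le ?_ ?_
      · calc |ν| * |q1| ≤ |ν| * m := mul_le_mul_of_nonneg_left hm2 hν0
          _ ≤ (|ν| * (1 + |α| * (1 + |s|))) * m := by
            refine mul_le_mul_of_nonneg_right ?_ hm0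
            nlinarith [mul_nonneg hν0 (mul_nonneg hα0 (by linarith : (0:ℝ) ≤ 1 + |s|))]
          _ ≤ K * m := mul_le_mul_of_nonneg_right hKp hm0
      · calc |ν| * (|α| * |p1 - s * q1|) ≤ |ν| * (|α| * ((1 + |s|) * m)) := by gcongr
          _ ≤ (|ν| * (1 + |α| * (1 + |s|))) * m := by nlinarith [mul_nonneg hν0 hm0]
          _ ≤ K * m := mul_le_mul_of_nonneg_right hKp hm0)
    (by
      show (T.kp (T.Cv l x 0) ⬝ᵥ a, T.cc l (T.Cv l x 0) ⬝ᵥ a) = 0
      rw [T.Cv_zero, h1, h2]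
      rfl)
  -- extension to the closed interval by continuity
  have hclos : ∀ p ∈ Icc (-d) d,
      (T.kp (T.Cv l x p) ⬝ᵥ a, T.cc l (T.Cv l x p) ⬝ᵥ a) = (0 : ℝ × ℝ) := by
    intro p hp
    have hmem : p ∈ closure (Ioo (-d) d) := by
      rw [closure_Ioo (by linarith : -d ≠ d)]; exact hp
    have hca : ContinuousAt (fun p => (T.kp (T.Cv l x p) ⬝ᵥ a, T.cc l (T.Cv l x p) ⬝ᵥ a)) p :=
      ((hdotd (T.deriv_kp_Cv (hU p hp))).prodMk (hdotd (T.deriv_cc_Cv (hU p hp)))).continuousAt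
    have hfreq := mem_closure_iff_clusterPt.1 hmem
    have : ∃ᶠ q in 𝓝 p, (T.kp (T.Cv l x q) ⬝ᵥ a, T.cc l (T.Cv l x q) ⬝ᵥ a) = (0 : ℝ × ℝ) :=
      (mem_closure_iff_frequently.1 hmem).mono fun q hq => key q hq
    by_contra hne
    exact this (hca.eventually_ne hne)
  intro p hp
  have h := hclos p hp
  exact ⟨congrArg Prod.fst h, congrArg Prod.snd h⟩

end flow

end Tor

end Pool.Agent.TH607
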