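import Mathlib
import Pool.Agent.TH607.Curve

/-! The flow box around a leaf. -/

open scoped Topology ContDiff Manifold
open Set Metric Bundle Matrix Pool.Agent.Helper186 Pool.Agent.H826R2.Wein

noncomputable section

namespace Pool.Agent.TH607

set_option linter.unusedSectionVars false

universe u v w

/-- parameter space of the flow box -/
abbrev Par : Type := (Fin 3 → ℝ) × ℝ × ℝ

section gen

variable {E : Type u} [NormedAddCommGroup E] [NormedSpace ℝ E] [FiniteDimensional ℝ E]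
  {P : Type v} [TopologicalSpace P] [ChartedSpace E P] [IsManifold 𝓘(ℝ, E) ∞ P]

/-- derivative of a map along a line -/
lemma hasMFDerivAt_line {E' : Type*} [NormedAddCommGroup E'] [NormedSpace ℝ E'] {Ψ : E' → P}
    {q : E'} (hΨ : MDifferentiableAt 𝓘(ℝ, E') 𝓘(ℝ, E) Ψ q) (v : E') :
    HasMFDerivAt 𝓘(ℝ, ℝ) 𝓘(ℝ, E) (fun t : ℝ => Ψ (q + t • v)) 0
      ((1 : ℝ →L[ℝ] ℝ).smulRight (mfderiv 𝓘(ℝ, E') 𝓘(ℝ, E) Ψ q v : E)) := by
  have h1 : HasMFDerivAt 𝓘(ℝ, ℝ) 𝓘(ℝ, E') (fun t : ℝ => q + t • v) 0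
      ((1 : ℝ →L[ℝ] ℝ).smulRight v) := by
    have : HasFDerivAt (fun t : ℝ => q + t • v) ((1 : ℝ →L[ℝ] ℝ).smulRight v) (0:ℝ) :=
      (((1 : ℝ →L[ℝ] ℝ).smulRight v).hasFDerivAt).const_add q
    exact this.hasMFDerivAt
  have e : q + (0:ℝ) • v = q := by rw [zero_smul, add_zero]
  have h2 : MDifferentiableAt 𝓘(ℝ, E') 𝓘(ℝ, E) Ψ (q + (0:ℝ) • v) := by rw [e]; exact hΨ
  have h3 := h2.hasMFDerivAt.comp (0:ℝ) h1
  refine h3.congr_mfderiv ?_
  refine ContinuousLinearMap.ext fun (r : ℝ) => ?_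
  have h4 : ∀ q' : E', q' = q → (mfderiv 𝓘(ℝ, E') 𝓘(ℝ, E) Ψ q' (r • v) : E) =
      r • (mfderiv 𝓘(ℝ, E') 𝓘(ℝ, E) Ψ q v : E) := by
    rintro _ rfl
    exact map_smul (mfderiv 𝓘(ℝ, E') 𝓘(ℝ, E) Ψ _) r v
  exact h4 _ e

end gen

namespace Tor

variable {E : Type u} [NormedAddCommGroup E] [NormedSpace ℝ E] [FiniteDimensional ℝ E]
  {P : Type v} [TopologicalSpace P] [ChartedSpace E P] [IsManifold 𝓘(ℝ, E) ∞ P]
  {Γ : Type w} [Group Γ] [MulAction Γ P] (T : Tor E P Γ)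

section flow

variable [T2Space P] [SigmaCompactSpace P]

/-- the flow box -/
def Ps (l : Fin 3) (a : Fin 3 → ℝ) (x : P) (q : Par) : P :=
  T.A.act q.1 (T.Fl a (T.Cv l x q.2.2) q.2.1)

lemma smooth_Ps (l : Fin 3) (a : Fin 3 → ℝ) (x : P) :
    ContMDiff 𝓘(ℝ, Par) 𝓘(ℝ, E) ∞ (T.Ps l a x) := by
  have h1 : ContMDiff 𝓘(ℝ, Par) 𝓘(ℝ, Fin 3 → ℝ) ∞ (fun q : Par => q.1) :=
    contDiff_fst.contMDiff
  have h2 : ContMDiff 𝓘(ℝ, Par) 𝓘(ℝ, ℝ) ∞ (fun q : Par => q.2.1) :=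
    (contDiff_fst.comp contDiff_snd).contMDiff
  have h3 : ContMDiff 𝓘(ℝ, Par) 𝓘(ℝ, ℝ) ∞ (fun q : Par => q.2.2) :=
    (contDiff_snd.comp contDiff_snd).contMDiff
  have h4 : ContMDiff 𝓘(ℝ, Par) 𝓘(ℝ, E) ∞ (fun q : Par => T.Cv l x q.2.2) :=
    (T.smooth_Cv l).comp (contMDiff_const.prodMk h3)
  have h5 : ContMDiff 𝓘(ℝ, Par) 𝓘(ℝ, E) ∞
      (fun q : Par => T.Fl a (T.Cv l x q.2.2) q.2.1) :=
    (T.smooth_Fl a).comp (h4.prodMk h2)
  exact T.A.smooth.comp (h1.prodMk h5)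

lemma cont_Ps (l : Fin 3) (a : Fin 3 → ℝ) (x : P) : Continuous (T.Ps l a x) :=
  (T.smooth_Ps l a x).continuous

/-- conditions for a flow box of width `d` -/
structure Bx (l : Fin 3) (a : Fin 3 → ℝ) (x : P) (d : ℝ) : Prop where
  hd : 0 < d
  hU : ∀ p ∈ Icc (-d) d, T.Cv l x p ∈ T.U l
  h1 : T.kp x ⬝ᵥ a = 0
  h2 : T.cc l x ⬝ᵥ a = 0
  ha : a ≠ 0

namespace Bx

variable {T} {l : Fin 3} {a : Fin 3 → ℝ} {x : P} {d : ℝ} (b : T.Bx l a x d)

include b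

lemma ker {p : ℝ} (hp : p ∈ Icc (-d) d) :
    T.kp (T.Cv l x p) ⬝ᵥ a = 0 ∧ T.cc l (T.Cv l x p) ⬝ᵥ a = 0 :=
  T.ker_Cv b.hd b.hU b.h1 b.h2 p hp

lemma fl {p : ℝ} (hp : p ∈ Icc (-d) d) (r : ℝ) :
    (T.Fl a (T.Cv l x p) r ∈ T.U l ∧ T.kp (T.Fl a (T.Cv l x p) r) = T.kp (T.Cv l x p) ∧
      T.cc l (T.Fl a (T.Cv l x p) r) = T.cc l (T.Cv l x p) ∧
      T.dd l (T.Fl a (T.Cv l x p) r) = T.dd l (T.Cv l x p)) ∧
      T.S (T.Fl a (T.Cv l x p) r) l l = T.S (T.Cv l x p) l l :=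
  T.leaf_const (b.hU p hp) (b.ker hp).1 (b.ker hp).2 r

lemma mem_U {q : Par} (hq : q.2.2 ∈ Icc (-d) d) : T.Ps l a x q ∈ T.U l :=
  T.U_act.2 (b.fl hq _).1.1

lemma kp_Ps {q : Par} (hq : q.2.2 ∈ Icc (-d) d) :
    T.kp (T.Ps l a x q) = T.kp (T.Cv l x q.2.2) :=
  (T.kp_act _ _).trans (b.fl hq _).1.2.1

lemma kl_Ps {q : Par} (hq : q.2.2 ∈ Icc (-d) d) :
    T.kl l (T.Ps l a x q) = T.kl l (T.Cv l x q.2.2) := congrFun (b.kp_Ps hq) l

lemma cc_Ps {q : Par} (hq : q.2.2 ∈ Icc (-d) d) :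
    T.cc l (T.Ps l a x q) = T.cc l (T.Cv l x q.2.2) :=
  (T.cc_act (b.fl hq _).1.1).trans (b.fl hq _).1.2.2.1

lemma S_Ps {q : Par} (hq : q.2.2 ∈ Icc (-d) d) :
    T.S (T.Ps l a x q) = T.S (T.Cv l x q.2.2) :=
  (T.S_act _ _).trans (T.leaf_S (b.hU _ hq) (b.ker hq).1 (b.ker hq).2 _)

lemma ph_Ps {q : Par} (hq : q.2.2 ∈ Icc (-d) d) :
    T.ph (T.Ps l a x q) =
      T.ph (T.Cv l x q.2.2) + T.tt a (T.Cv l x q.2.2) q.2.1 • a :=
  (T.ph_act _ _).trans (T.leaf_ph (b.hU _ hq) (b.ker hq).1 (b.ker hq).2 _)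

/-- injectivity of the derivative -/
lemma inj {q : Par} (hq : q.2.2 ∈ Ioo (-d) d) {v : Par}
    (hv : (mfderiv 𝓘(ℝ, Par) 𝓘(ℝ, E) (T.Ps l a x) q v : E) = 0) : v = 0 := by
  have hline := hasMFDerivAt_line ((T.smooth_Ps l a x).mdifferentiableAt (by simp) (x := q)) v
  rw [hv] at hline
  have hq0 : q + (0:ℝ) • v = q := by rw [zero_smul, add_zero]
  have hev : ∀ᶠ t in 𝓝 (0:ℝ), q.2.2 + t * v.2.2 ∈ Ioo (-d) d := by
    have hc : ContinuousAt (fun t : ℝ => q.2.2 + t * v.2.2) 0 := by fun_prop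
    refine hc.eventually_mem (isOpen_Ioo.mem_nhds ?_)
    simpa using hq
  -- last component
  have hp : v.2.2 = 0 := by
    have h1 := hasDerivAt_curve (c := fun t : ℝ => T.Ps l a x (q + t • v)) (t := 0)
      (w := (0:E)) hline (T.sm_kl l)
    have h2 : HasDerivAt (fun t : ℝ => T.kl l (T.Cv l x (q.2.2 + t * v.2.2)))
        (T.nu l (T.Cv l x q.2.2) * v.2.2) 0 := by
      have h3 : HasDerivAt (fun t : ℝ => q.2.2 + t * v.2.2) v.2.2 0 := by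
        simpa using ((hasDerivAt_id (0:ℝ)).mul_const v.2.2).const_add q.2.2
      have h4 := T.deriv_Cv l x (T.sm_kl l) (q.2.2 + 0 * v.2.2)
      have h5 := h4.comp (0:ℝ) h3
      rw [zero_mul, add_zero] at h5
      exact h5
    have h3 : (fun t : ℝ => T.kl l (T.Ps l a x (q + t • v))) =ᶠ[𝓝 0]
        fun t : ℝ => T.kl l (T.Cv l x (q.2.2 + t * v.2.2)) := by
      filter_upwards [hev] with t ht
      exact b.kl_Ps (q := q + t • v) (Ioo_subset_Icc_self ht)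
    have h4 := (h2.congr_of_eventuallyEq h3).unique h1
    have h5 : dForm 𝓘(ℝ, E) (T.kl l) (T.Ps l a x (q + (0:ℝ) • v)) (0:E) = 0 := map_zero _
    rw [h5] at h4
    exact (mul_eq_zero.1 h4).resolve_left
      (T.nu_pos (b.hU _ (Ioo_subset_Icc_self hq))).ne'
  -- middle component
  have hr : v.2.1 = 0 := by
    obtain ⟨i, hi⟩ : ∃ i, a i ≠ 0 := by
      by_contra hcon
      push Not at hcon
      exact b.ha (funext hcon)
    have h1 := hasDerivAt_curve (c := fun t : ℝ => T.Ps l a x (q + t • v)) (t := 0)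
      (w := (0:E)) hline (T.sm_ph i)
    have h2 : HasDerivAt (fun t : ℝ => T.ph (T.Cv l x q.2.2) i +
        T.tt a (T.Cv l x q.2.2) (q.2.1 + t * v.2.1) * a i)
        (T.fac a (T.Fl a (T.Cv l x q.2.2) q.2.1) * v.2.1 * a i) 0 := by
      have h3 : HasDerivAt (fun t : ℝ => q.2.1 + t * v.2.1) v.2.1 0 := by
        simpa using ((hasDerivAt_id (0:ℝ)).mul_const v.2.1).const_add q.2.1
      have h4 := T.hasDerivAt_tt a (T.Cv l x q.2.2) (q.2.1 + 0 * v.2.1)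
      have h5 := h4.comp (0:ℝ) h3
      rw [zero_mul, add_zero] at h5
      exact (h5.mul_const (a i)).const_add _
    have h3 : (fun t : ℝ => T.ph (T.Ps l a x (q + t • v)) i) =
        fun t : ℝ => T.ph (T.Cv l x q.2.2) i +
          T.tt a (T.Cv l x q.2.2) (q.2.1 + t * v.2.1) * a i := by
      ext1 t
      have e1 : (q + t • v).2.2 = q.2.2 := by
        show q.2.2 + t * v.2.2 = q.2.2
        rw [hp, mul_zero, add_zero]
      have h6 := b.ph_Ps (q := q + t • v) (by rw [e1]; exact Ioo_subset_Icc_self hq)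
      rw [h6, e1]
      rfl
    rw [h3] at h1
    have h4 := h2.unique h1
    have h5 : dForm 𝓘(ℝ, E) (fun y => T.ph y i) (T.Ps l a x (q + (0:ℝ) • v)) (0:E) = 0 :=
      map_zero _
    rw [h5] at h4
    have h6 := T.fac_pos a (T.Fl a (T.Cv l x q.2.2) q.2.1)
    rcases mul_eq_zero.1 h4 with h | h
    · exact (mul_eq_zero.1 h).resolve_left h6.ne'
    · exact absurd h hi
  -- first component
  have hθ : v.1 = 0 := by
    set z := T.Fl a (T.Cv l x q.2.2) q.2.1 with hz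
    have h3 : (fun t : ℝ => T.Ps l a x (q + t • v)) =
        fun t : ℝ => T.A.fam v.1 (t, T.A.act q.1 z) := by
      ext1 t
      have e1 : (q + t • v).2.2 = q.2.2 := by
        show q.2.2 + t * v.2.2 = q.2.2
        rw [hp, mul_zero, add_zero]
      have e2 : (q + t • v).2.1 = q.2.1 := by
        show q.2.1 + t * v.2.1 = q.2.1
        rw [hr, mul_zero, add_zero]
      unfold Ps TAct.fam
      rw [e1, e2]
      show T.A.act (q.1 + t • v.1) z = T.A.act (t • v.1) (T.A.act q.1 z)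
      rw [← T.A.add, add_comm]
    rw [h3] at hline
    have h4 := T.A.hasMFDerivAt_fam_zero v.1 (T.A.act q.1 z)
    have h5 := hasMFDerivAt_unique h4 hline
    have h6 := DFunLike.congr_fun h5 (1:ℝ)
    have h7 : (T.A.X v.1 (T.A.act q.1 z) : E) = 0 := by
      have h8 : (1:ℝ) • (T.A.X v.1 (T.A.act q.1 z) : E) = (1:ℝ) • (0:E) := h6
      rwa [one_smul, smul_zero] at h8
    exact T.A.free _ _ h7
  ext1
  · exact hθ
  · ext1
    · exact hr
    · exact hp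

lemma surj {q : Par} (hq : q.2.2 ∈ Ioo (-d) d) :
    Function.Surjective (fun v : Par => (mfderiv 𝓘(ℝ, Par) 𝓘(ℝ, E) (T.Ps l a x) q v : E)) := by
  set L : Par →ₗ[ℝ] E :=
    (show Par →L[ℝ] E from mfderiv 𝓘(ℝ, Par) 𝓘(ℝ, E) (T.Ps l a x) q : Par →L[ℝ] E).toLinearMap
    with hL
  have hinj : Function.Injective L := by
    rw [injective_iff_map_eq_zero]
    intro v hv
    exact b.inj hq hv
  have hfin : Module.finrank ℝ Par = Module.finrank ℝ E := by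
    rw [T.hd]
    simp [Par]
  exact (LinearMap.injective_iff_surjective_of_finrank_eq_finrank hfin).1 hinj

lemma nhds {q : Par} (hq : q.2.2 ∈ Ioo (-d) d) :
    Filter.map (T.Ps l a x) (𝓝 q) = 𝓝 (T.Ps l a x q) :=
  JobWT.map_nhds_of_surj (T.smooth_Ps l a x q) (b.surj hq)

/-- the image of the flow box is open -/
lemma isOpen : IsOpen (T.Ps l a x '' {q : Par | q.2.2 ∈ Ioo (-d) d}) := by
  rw [isOpen_iff_mem_nhds]
  rintro _ ⟨q, hq, rfl⟩
  rw [← b.nhds hq]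
  refine Filter.image_mem_map ?_
  have hc : Continuous (fun q : Par => q.2.2) := by fun_prop
  exact (isOpen_Ioo.preimage hc).mem_nhds hq

end Bx

end flow

end Tor

end Pool.Agent.TH607
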