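import Mathlib
import Pool.Agent.TH607.Box

/-! Short paths starting on the leaf stay in the flow box. -/

open scoped Topology ContDiff Manifold
open Set Metric Bundle Matrix Pool.Agent.Helper186 Pool.Agent.H826R2.Wein

noncomputable section

namespace Pool.Agent.TH607

set_option linter.unusedSectionVars false

universe u v w

namespace Tor

variable {E : Type u} [NormedAddCommGroup E] [NormedSpace ℝ E] [FiniteDimensional ℝ E]
  {P : Type v} [TopologicalSpace P] [ChartedSpace E P] [IsManifold 𝓘(ℝ, E) ∞ P]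
  {Γ : Type w} [Group Γ] [MulAction Γ P] (T : Tor E P Γ)

lemma act_fract (θ : Fin 3 → ℝ) (x : P) :
    T.A.act θ x = T.A.act (fun i => Int.fract (θ i)) x := by
  have h : θ = (fun i => Int.fract (θ i)) + (fun i => ((⌊θ i⌋ : ℤ) : ℝ)) := by
    ext i
    exact (Int.fract_add_floor (θ i)).symm
  conv_lhs => rw [h]
  rw [T.A.add, T.A.period]

section flow

variable [T2Space P] [SigmaCompactSpace P]

namespace Bx

variable {T} {l : Fin 3} {a : Fin 3 → ℝ} {x : P} {d : ℝ} (b : T.Bx l a x d)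

include b

lemma bounds : ∃ c > (0:ℝ), ∀ p ∈ Icc (-d) d, ∀ r : ℝ,
    c ≤ T.fac a (T.Fl a (T.Cv l x p) r) := by
  have hc1 : Continuous (fun p => |T.S (T.Cv l x p) l l|) :=
    ((T.cont_Sll l).comp (T.cont_Cv l x)).abs
  have hc2 : ContinuousOn (fun p => |crossProduct (T.kp (T.Cv l x p)) (T.cc l (T.Cv l x p)) ⬝ᵥ a|)
      (Icc (-d) d) := by
    intro p hp
    have c2 : ContinuousAt (fun p => T.cc l (T.Cv l x p)) p :=
      ContinuousAt.comp (T.cont_cc (b.hU p hp)) (T.cont_Cv l x).continuousAt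
    have c3 : ContinuousAt (fun p => T.kp (T.Cv l x p)) p :=
      (T.cont_kp.comp (T.cont_Cv l x)).continuousAt
    have c2' := continuousAt_pi.1 c2
    have c3' := continuousAt_pi.1 c3
    have e : (fun p => |crossProduct (T.kp (T.Cv l x p)) (T.cc l (T.Cv l x p)) ⬝ᵥ a|) =
      fun p => |(T.kp (T.Cv l x p) 1 * T.cc l (T.Cv l x p) 2 -
          T.kp (T.Cv l x p) 2 * T.cc l (T.Cv l x p) 1) * a 0 +
        (T.kp (T.Cv l x p) 2 * T.cc l (T.Cv l x p) 0 -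
          T.kp (T.Cv l x p) 0 * T.cc l (T.Cv l x p) 2) * a 1 +
        (T.kp (T.Cv l x p) 0 * T.cc l (T.Cv l x p) 1 -
          T.kp (T.Cv l x p) 1 * T.cc l (T.Cv l x p) 0) * a 2| := by
      ext1 p
      simp [crossProduct, dotProduct, Fin.sum_univ_three]
    rw [e]
    exact (((((((c3' 1).mul (c2' 2)).sub ((c3' 2).mul (c2' 1))).mul_const _).add
      ((((c3' 2).mul (c2' 0)).sub ((c3' 0).mul (c2' 2))).mul_const _)).add
      ((((c3' 0).mul (c2' 1)).sub ((c3' 1).mul (c2' 0))).mul_const _)).abs).continuousWithinAt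
  obtain ⟨m, hm, hm1⟩ := isCompact_Icc.exists_forall_le' (s := Icc (-d) d) hc1.continuousOn (a := 0)
    (fun p hp => abs_pos.2 (T.Sll_ne (b.hU p hp)))
  obtain ⟨m', hm', hm1'⟩ := isCompact_Icc.exists_forall_le' hc2 (a := 0)
    (fun p hp => abs_pos.2 (T.cross_a_ne (b.hU p hp) b.ha (b.ker hp).1 (b.ker hp).2))
  obtain ⟨c, hc, h⟩ := T.exists_fac_bound b.ha hm hm'
  refine ⟨c, hc, fun p hp r => ?_⟩
  obtain ⟨⟨g1, g2, g3, g4⟩, g5⟩ := b.fl hp r
  refine h l _ g1 ?_ ?_ ?_ ?_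
  · rw [g2]; exact (b.ker hp).1
  · rw [g3]; exact (b.ker hp).2
  · rw [g5]; exact hm1 p hp
  · rw [g2, g3]; exact hm1' p hp

lemma tt_bound : ∃ c > (0:ℝ), ∀ p ∈ Icc (-d) d, ∀ r : ℝ, c * |r| ≤ |T.tt a (T.Cv l x p) r| := by
  obtain ⟨c, hc, h⟩ := b.bounds
  refine ⟨c, hc, fun p hp r => ?_⟩
  rcases le_total 0 r with hr | hr
  · rw [abs_of_nonneg hr]
    exact (T.tt_ge hr fun σ _ => h p hp σ).trans (le_abs_self _)
  · rw [abs_of_nonpos hr]
    have h1 := T.tt_le (a := a) (x := T.Cv l x p) hr fun σ _ => h p hp σ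
    have h2 := neg_le_abs (T.tt a (T.Cv l x p) r)
    linarith

/-- strict monotonicity of `κ_l` along the transversal -/
lemma mono : StrictMonoOn (fun p => T.kl l (T.Cv l x p)) (Icc (-d) d) := by
  apply strictMonoOn_of_deriv_pos (convex_Icc _ _)
  · exact ((T.sm_kl l).continuous.comp (T.cont_Cv l x)).continuousOn
  · intro p hp
    rw [interior_Icc] at hp
    rw [(T.deriv_Cv l x (T.sm_kl l) p).deriv]
    exact T.nu_pos (b.hU p (Ioo_subset_Icc_self hp))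

lemma gap : ∃ δ > (0:ℝ), ∀ p ∈ Icc (-d) d, |T.kl l (T.Cv l x p) - T.kl l x| < δ →
    p ∈ Ioo (-d) d := by
  have h0 : (0:ℝ) ∈ Icc (-d) d := ⟨by linarith [b.hd], b.hd.le⟩
  have e0 : T.kl l (T.Cv l x 0) = T.kl l x := by rw [T.Cv_zero]
  have h1 : T.kl l x < T.kl l (T.Cv l x d) := by
    rw [← e0]
    exact b.mono h0 ⟨by linarith [b.hd], le_rfl⟩ b.hd
  have h2 : T.kl l (T.Cv l x (-d)) < T.kl l x := by
    rw [← e0]
    exact b.mono ⟨le_rfl, by linarith [b.hd]⟩ h0 (by linarith [b.hd])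
  refine ⟨min (T.kl l (T.Cv l x d) - T.kl l x) (T.kl l x - T.kl l (T.Cv l x (-d))),
    lt_min (by linarith) (by linarith), ?_⟩
  intro p hp h
  have h3 := lt_of_lt_of_le h (min_le_left _ _)
  have h4 := lt_of_lt_of_le h (min_le_right _ _)
  refine ⟨lt_of_le_of_ne hp.1 ?_, lt_of_le_of_ne hp.2 ?_⟩
  · rintro rfl
    rw [abs_sub_comm] at h4
    exact absurd (le_abs_self _) (not_le.2 h4)
  · rintro rfl
    exact absurd (le_abs_self _) (not_le.2 h3)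

/-- bound for the differential of `κ_l` in the flow box -/
lemma dkl_bound : ∃ C > (0:ℝ), ∀ q : Par, q.2.2 ∈ Icc (-d) d →
    ∀ u : TangentSpace 𝓘(ℝ, E) (T.Ps l a x q),
    |dForm 𝓘(ℝ, E) (T.kl l) (T.Ps l a x q) u| ≤ C * ‖T.ι.D (T.Ps l a x q) u‖ := by
  have hc1 : Continuous (fun p => |T.S (T.Cv l x p) l l|) :=
    ((T.cont_Sll l).comp (T.cont_Cv l x)).abs
  obtain ⟨M, hM⟩ := isCompact_Icc.bddAbove_image (K := Icc (-d) d) hc1.continuousOn
  obtain ⟨Λ, hΛ, hlam⟩ := T.exists_lam_bound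
  refine ⟨Real.sqrt (M * Λ) + 1, by positivity, ?_⟩
  intro q hq u
  refine (dForm_sq_le T.ι _ _ u).trans ?_
  refine mul_le_mul_of_nonneg_right ?_ (norm_nonneg _)
  refine le_trans (Real.sqrt_le_sqrt ?_) (le_add_of_nonneg_right zero_le_one)
  rw [T.G_kl (b.mem_U hq)]
  have h1 : |T.S (T.Ps l a x q) l l| ≤ M := by
    rw [b.S_Ps hq]
    exact hM ⟨_, hq, rfl⟩
  have h2 := hlam (T.Ps l a x q)
  refine (le_abs_self _).trans ?_
  rw [abs_mul]
  exact mul_le_mul h1 h2 (abs_nonneg _) ((abs_nonneg _).trans h1)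

/-- **Path lifting**: short paths starting on the leaf stay in the flow box. -/
theorem path : ∃ ε > (0:ℝ), ∀ (p : ℝ → P) (τ : ℝ), p 0 = T.Fl a x τ →
    (∀ σ ∈ Icc (0:ℝ) 1, ∃ v : TangentSpace 𝓘(ℝ, E) (p σ),
        HasMFDerivAt 𝓘(ℝ, ℝ) 𝓘(ℝ, E) p σ ((1 : ℝ →L[ℝ] ℝ).smulRight v) ∧
        ‖T.ι.D (p σ) v‖ ≤ ε) →
    ∃ q : Par, q.2.2 ∈ Ioo (-d) d ∧ p 1 = T.Ps l a x q := by
  obtain ⟨δ, hδ, hgap⟩ := b.gap
  obtain ⟨C, hC, hdkl⟩ := b.dkl_bound
  obtain ⟨c, hc, htt⟩ := b.tt_bound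
  obtain ⟨i, hi⟩ : ∃ i, a i ≠ 0 := by
    by_contra hcon
    push Not at hcon
    exact b.ha (funext hcon)
  refine ⟨δ / (2 * C), by positivity, ?_⟩
  intro p τ hp0 hp
  set ε := δ / (2 * C) with hε
  have hCε : C * ε = δ / 2 := by
    rw [hε]; field_simp
  have h0d : (0:ℝ) ∈ Icc (-d) d := ⟨by linarith [b.hd], b.hd.le⟩
  have hcontp : ∀ σ ∈ Icc (0:ℝ) 1, ContinuousAt p σ := fun σ hσ => by
    obtain ⟨v, hv, -⟩ := hp σ hσ
    exact hv.continuousAt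
  have hcp : ContinuousOn p (Icc (0:ℝ) 1) := fun σ hσ => (hcontp σ hσ).continuousWithinAt
  -- the bound for `r`
  obtain ⟨M₁, hM₁⟩ := isCompact_Icc.bddAbove_image (K := Icc (0:ℝ) 1)
    (f := fun σ => |T.ph (p σ) i|)
    ((continuous_abs.comp (T.sm_ph i).continuous).comp_continuousOn hcp)
  obtain ⟨M₂, hM₂⟩ := isCompact_Icc.bddAbove_image (K := Icc (-d) d)
    (f := fun p => |T.ph (T.Cv l x p) i|)
    (((T.sm_ph i).continuous.comp (T.cont_Cv l x)).abs).continuousOn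
  set R := (M₁ + M₂) / (c * |a i|) with hR
  have hai : 0 < |a i| := abs_pos.2 hi
  have hRb : ∀ σ ∈ Icc (0:ℝ) 1, ∀ q : Par, q.2.2 ∈ Icc (-d) d → p σ = T.Ps l a x q →
      q.2.1 ∈ Icc (-R) R := by
    intro σ hσ q hq h
    rw [Set.mem_Icc, ← abs_le, hR, le_div_iff₀ (by positivity)]
    have h1 := congrFun (b.ph_Ps hq) i
    rw [← h] at h1
    have h2 : T.tt a (T.Cv l x q.2.2) q.2.1 * a i =
        T.ph (p σ) i - T.ph (T.Cv l x q.2.2) i := by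
      rw [h1]
      show _ = T.ph (T.Cv l x q.2.2) i + T.tt a (T.Cv l x q.2.2) q.2.1 * a i - _
      ring
    have h3 : |T.tt a (T.Cv l x q.2.2) q.2.1| * |a i| ≤ M₁ + M₂ := by
      rw [← abs_mul, h2]
      exact (abs_sub _ _).trans (add_le_add (hM₁ ⟨σ, hσ, rfl⟩) (hM₂ ⟨_, hq, rfl⟩))
    have h4 := htt _ hq q.2.1
    calc |q.2.1| * (c * |a i|) = (c * |q.2.1|) * |a i| := by ring
      _ ≤ |T.tt a (T.Cv l x q.2.2) q.2.1| * |a i| := mul_le_mul_of_nonneg_right h4 hai.le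
      _ ≤ M₁ + M₂ := h3
  set K : Set Par := Icc (0 : Fin 3 → ℝ) 1 ×ˢ (Icc (-R) R ×ˢ Icc (-d) d) with hK
  have hKc : IsCompact K := isCompact_Icc.prod (isCompact_Icc.prod isCompact_Icc)
  have hKimg : IsClosed (T.Ps l a x '' K) := (hKc.image (T.cont_Ps l a x)).isClosed
  have hnorm : ∀ σ ∈ Icc (0:ℝ) 1, ∀ q : Par, q.2.2 ∈ Icc (-d) d → p σ = T.Ps l a x q →
      p σ ∈ T.Ps l a x '' K := by
    intro σ hσ q hq h
    refine ⟨(fun j => Int.fract (q.1 j), q.2), ⟨⟨fun j => Int.fract_nonneg _,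
      fun j => (Int.fract_lt_one _).le⟩, hRb σ hσ q hq h, hq⟩, ?_⟩
    rw [h]
    exact (T.act_fract q.1 _).symm
  set s : Set ℝ := {σ | p σ ∈ T.Ps l a x '' K ∧ |T.kl l (p σ) - T.kl l x| ≤ C * ε * σ} with hs
  have hsc : IsClosed (s ∩ Icc 0 1) := by
    have h1 : IsClosed (Icc (0:ℝ) 1 ∩ p ⁻¹' (T.Ps l a x '' K)) :=
      hcp.preimage_isClosed_of_isClosed isClosed_Icc hKimg
    have h2 : IsClosed (Icc (0:ℝ) 1 ∩ (fun σ => |T.kl l (p σ) - T.kl l x| - C * ε * σ) ⁻¹'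
        Iic 0) := by
      refine ContinuousOn.preimage_isClosed_of_isClosed ?_ isClosed_Icc isClosed_Iic
      refine ContinuousOn.sub ?_ (by fun_prop)
      exact (((T.sm_kl l).continuous.comp_continuousOn hcp).sub continuousOn_const).abs
    have h3 : s ∩ Icc 0 1 = (Icc (0:ℝ) 1 ∩ p ⁻¹' (T.Ps l a x '' K)) ∩
        (Icc (0:ℝ) 1 ∩ (fun σ => |T.kl l (p σ) - T.kl l x| - C * ε * σ) ⁻¹' Iic 0) := by
      ext σ
      constructor
      · rintro ⟨⟨g1, g2⟩, g3⟩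
        exact ⟨⟨g3, g1⟩, g3, by show _ - _ ≤ (0:ℝ); linarith⟩
      · rintro ⟨⟨g3, g1⟩, -, g2⟩
        refine ⟨⟨g1, ?_⟩, g3⟩
        have g4 : |T.kl l (p σ) - T.kl l x| - C * ε * σ ≤ 0 := g2
        linarith
    rw [h3]
    exact h1.inter h2
  have h0s : (0:ℝ) ∈ s := by
    have e : p 0 = T.Ps l a x (0, τ, 0) := by
      rw [hp0]
      unfold Ps
      rw [T.A.zero, T.Cv_zero]
    refine ⟨hnorm 0 (left_mem_Icc.2 zero_le_one) _ h0d e, ?_⟩
    rw [e, b.kl_Ps (q := (0, τ, 0)) h0d, T.Cv_zero, sub_self, abs_zero, mul_zero]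
  have hstep : ∀ σ ∈ s ∩ Ico 0 1, s ∈ 𝓝[>] σ := by
    rintro σ ⟨⟨⟨q, hqK, hq⟩, g2⟩, g3⟩
    have hσ1 : σ ∈ Icc (0:ℝ) 1 := ⟨g3.1, g3.2.le⟩
    have hq2 : q.2.2 ∈ Ioo (-d) d := by
      apply hgap _ hqK.2.2
      rw [← b.kl_Ps hqK.2.2, hq]
      refine lt_of_le_of_lt g2 ?_
      rw [hCε]
      nlinarith [g3.1, g3.2]
    have hmem : p σ ∈ T.Ps l a x '' {q : Par | q.2.2 ∈ Ioo (-d) d} := ⟨q, hq2, hq⟩
    have hev := (hcontp σ hσ1).eventually_mem (b.isOpen.mem_nhds hmem)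
    obtain ⟨η, hη, hball⟩ := Metric.eventually_nhds_iff.1 hev
    have hlt : σ < min (σ + η) 1 := lt_min (by linarith) g3.2
    refine Filter.mem_of_superset (Ioo_mem_nhdsGT hlt) ?_
    intro σ' hσ'
    have k1 : σ' < σ + η := lt_of_lt_of_le hσ'.2 (min_le_left _ _)
    have k2 : σ' < 1 := lt_of_lt_of_le hσ'.2 (min_le_right _ _)
    have hin : ∀ t ∈ Icc σ σ', t ∈ Icc (0:ℝ) 1 := fun t ht =>
      ⟨g3.1.trans ht.1, ht.2.trans k2.le⟩
    have hbox : ∀ t ∈ Icc σ σ', p t ∈ T.Ps l a x '' {q : Par | q.2.2 ∈ Ioo (-d) d} := by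
      intro t ht
      apply hball
      rw [Real.dist_eq, abs_of_nonneg (by linarith [ht.1])]
      linarith [ht.2]
    obtain ⟨q', hq'2, hq'⟩ := hbox σ' (right_mem_Icc.2 hσ'.1.le)
    have hσ'1 := hin σ' (right_mem_Icc.2 hσ'.1.le)
    refine ⟨hnorm σ' hσ'1 q' (Ioo_subset_Icc_self hq'2) hq'.symm, ?_⟩
    have hder : ∀ t ∈ Icc σ σ', DifferentiableAt ℝ (fun t => T.kl l (p t)) t ∧
        |deriv (fun t => T.kl l (p t)) t| ≤ C * ε := by
      intro t ht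
      obtain ⟨v, hv, hv2⟩ := hp t (hin t ht)
      have h1 := hasDerivAt_curve hv (T.sm_kl l)
      refine ⟨h1.differentiableAt, ?_⟩
      rw [h1.deriv]
      obtain ⟨q'', hq''2, hq''⟩ := hbox t ht
      have h2 : |dForm 𝓘(ℝ, E) (T.kl l) (p t) v| ≤ C * ‖T.ι.D (p t) v‖ := by
        have h3 := hdkl q'' (Ioo_subset_Icc_self hq''2)
        rw [hq''] at h3
        exact h3 v
      exact h2.trans (mul_le_mul_of_nonneg_left hv2 hC.le)
    have hmv := (convex_Icc σ σ').norm_image_sub_le_of_norm_hasDerivWithin_le (C := C * ε)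
      (f := fun t => T.kl l (p t)) (f' := deriv (fun t => T.kl l (p t)))
      (fun t ht => (hder t ht).1.hasDerivAt.hasDerivWithinAt)
      (fun t ht => (hder t ht).2) (left_mem_Icc.2 hσ'.1.le) (right_mem_Icc.2 hσ'.1.le)
    rw [Real.norm_eq_abs, Real.norm_eq_abs, abs_of_pos (by linarith [hσ'.1] : 0 < σ' - σ)] at hmv
    have htri : |T.kl l (p σ') - T.kl l x| ≤
        |T.kl l (p σ') - T.kl l (p σ)| + |T.kl l (p σ) - T.kl l x| := abs_sub_le _ _ _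
    calc |T.kl l (p σ') - T.kl l x| ≤ C * ε * (σ' - σ) + C * ε * σ :=
          htri.trans (add_le_add hmv g2)
      _ = C * ε * σ' := by ring
  have hall := hsc.Icc_subset_of_forall_mem_nhdsWithin h0s hstep
  obtain ⟨⟨q, hqK, hq⟩, g2⟩ := hall (right_mem_Icc.2 zero_le_one)
  refine ⟨q, ?_, hq.symm⟩
  apply hgap _ hqK.2.2
  rw [← b.kl_Ps hqK.2.2, hq]
  refine lt_of_le_of_lt g2 ?_
  rw [hCε]
  linarith

end Bx

end flow

end Tor

end Pool.Agent.TH607
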