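import Mathlib
import Pool.Agent.TH607.Box2

/-! Closing a leaf produces a critical point: the algebraic part. -/

open scoped Topology ContDiff Manifold
open Set Metric Bundle Matrix Pool.Agent.Helper186 Pool.Agent.H826R2.Wein

noncomputable section

namespace Pool.Agent.TH607

set_option linter.unusedSectionVars false

universe u v w

lemma plane_mem {κ c v : Fin 3 → ℝ} (hne : crossProduct κ c ≠ 0)
    (h : v ⬝ᵥ crossProduct κ c = 0) : ∃ α β : ℝ, v = α • κ + β • c := by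
  set a := crossProduct κ c with ha
  have haa : a ⬝ᵥ a ≠ 0 := fun h => hne (dotProduct_self_eq_zero.1 h)
  refine ⟨(v ⬝ᵥ crossProduct c a) / (a ⬝ᵥ a), (v ⬝ᵥ crossProduct a κ) / (a ⬝ᵥ a), ?_⟩
  have key : ∀ i, (a ⬝ᵥ a) * v i = (v ⬝ᵥ crossProduct c a) * κ i +
      (v ⬝ᵥ crossProduct a κ) * c i + (v ⬝ᵥ a) * a i := by
    intro i
    rw [ha]
    fin_cases i <;> simp [crossProduct, dotProduct, Fin.sum_univ_three] <;> ring
  ext i
  have h1 := key i
  rw [h, zero_mul, add_zero] at h1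
  simp only [Pi.add_apply, Pi.smul_apply, smul_eq_mul]
  field_simp
  linarith

lemma par_of_orth {κ c w : Fin 3 → ℝ} (hne : crossProduct κ c ≠ 0)
    (h1 : κ ⬝ᵥ w = 0) (h2 : c ⬝ᵥ w = 0) : ∃ μ : ℝ, w = μ • crossProduct κ c := by
  by_cases hw : w = 0
  · exact ⟨0, by rw [hw, zero_smul]⟩
  have hww : w ⬝ᵥ w ≠ 0 := fun h => hw (dotProduct_self_eq_zero.1 h)
  have h := cross_of_orth (p := κ) (q := c) (f := (w ⬝ᵥ w)⁻¹ • w) (k := w)
    (by rw [dotProduct_smul, h1, smul_zero]) (by rw [dotProduct_smul, h2, smul_zero])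
    (by rw [dotProduct_smul, smul_eq_mul, inv_mul_cancel₀ hww])
  have hcw : crossProduct κ c ⬝ᵥ w ≠ 0 := by
    intro h0
    rw [h0, zero_smul] at h
    exact hne h
  refine ⟨(w ⬝ᵥ w) / (crossProduct κ c ⬝ᵥ w), ?_⟩
  set σ := crossProduct κ c ⬝ᵥ w with hσ
  rw [h, smul_smul, smul_smul]
  have : (w ⬝ᵥ w) / σ * (σ * (w ⬝ᵥ w)⁻¹) = 1 := by
    field_simp
  rw [← mul_assoc] at this
  rw [this, one_smul]

lemma unip_real {g : Matrix (Fin 3) (Fin 3) ℤ} (h : (g - 1) ^ 3 = 0) :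
    (g.map (Int.cast : ℤ → ℝ) - 1) ^ 3 = 0 := by
  have h2 := congrArg (Int.castRingHom ℝ).mapMatrix h
  rw [map_pow, map_sub, map_one, map_zero] at h2
  exact h2

lemma unip_eig {g : Matrix (Fin 3) (Fin 3) ℝ} (h : (g - 1) ^ 3 = 0) {c : Fin 3 → ℝ} {l : Fin 3}
    (hc : c l = 1) {r : ℝ} (hr : g.mulVec c = r • c) : r = 1 := by
  have h7 : (g - 1).mulVec c = (r - 1) • c := by
    rw [Matrix.sub_mulVec, hr, Matrix.one_mulVec, sub_smul, one_smul]
  have h8 : ((g - 1) ^ 3).mulVec c = (r - 1) ^ 3 • c := by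
    rw [pow_succ, pow_two, ← Matrix.mulVec_mulVec, h7, Matrix.mulVec_smul,
      ← Matrix.mulVec_mulVec, h7, Matrix.mulVec_smul, h7, smul_smul, smul_smul]
    congr 1
    ring
  rw [h, Matrix.zero_mulVec] at h8
  have h9 := congrFun h8 l
  simp only [Pi.zero_apply, Pi.smul_apply, hc, smul_eq_mul, mul_one] at h9
  have h10 := pow_eq_zero_iff (n := 3) (by norm_num) |>.1 h9.symm
  linarith

lemma conj_apply (g : Matrix (Fin 3) (Fin 3) ℝ) (S : Matrix (Fin 3) (Fin 3) ℝ)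
    {s : ℝ} {c : Fin 3 → ℝ} (hS : ∀ i j, S i j = s * (c i * c j)) (i j : Fin 3) :
    (g * S * gᵀ) i j = s * (g.mulVec c i * g.mulVec c j) := by
  simp only [Matrix.mul_apply, Matrix.transpose_apply, mulVec, dotProduct, hS,
    Fin.sum_univ_three]
  ring

lemma conj_cc {g S S' : Matrix (Fin 3) (Fin 3) ℝ} {s s' : ℝ} {c c' : Fin 3 → ℝ} {l : Fin 3}
    (hS : ∀ i j, S i j = s * (c i * c j)) (hS' : ∀ i j, S' i j = s' * (c' i * c' j))
    (hc' : c' l = 1) (hs' : s' ≠ 0) (h : S' = g * S * gᵀ) :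
    g.mulVec c = (g.mulVec c l) • c' ∧ (g.mulVec c l) ^ 2 * s = s' := by
  have h1 : ∀ i j, s' * (c' i * c' j) = s * (g.mulVec c i * g.mulVec c j) := fun i j => by
    rw [← hS', h, conj_apply g S hS]
  have h2 := h1 l l
  rw [hc'] at h2
  have h3 : (g.mulVec c l) ^ 2 * s = s' := by linarith
  refine ⟨?_, h3⟩
  have hl : g.mulVec c l ≠ 0 := by
    intro h0
    rw [h0] at h3
    apply hs'
    rw [← h3]; ring
  have hs : s ≠ 0 := by
    rintro rfl
    apply hs'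
    rw [← h3]; ring
  ext i
  have h4 := h1 i l
  rw [hc', ← h3] at h4
  have h5 : (s * g.mulVec c l) * (g.mulVec c i) = (s * g.mulVec c l) * (g.mulVec c l * c' i) := by
    linear_combination -h4
  exact mul_left_cancel₀ (mul_ne_zero hs hl) h5

namespace Tor

variable {E : Type u} [NormedAddCommGroup E] [NormedSpace ℝ E] [FiniteDimensional ℝ E]
  {P : Type v} [TopologicalSpace P] [ChartedSpace E P] [IsManifold 𝓘(ℝ, E) ∞ P]
  {Γ : Type w} [Group Γ] [MulAction Γ P] (T : Tor E P Γ)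

section flow

variable [T2Space P] [SigmaCompactSpace P]

namespace Bx

variable {T} {l : Fin 3} {x : P} {d : ℝ}
  (b : T.Bx l (crossProduct (T.kp x) (T.cc l x)) x d)

include b

lemma mem0 : (0:ℝ) ∈ Icc (-d) d := ⟨by linarith [b.hd], b.hd.le⟩

lemma hx : x ∈ T.U l := by
  have := b.hU 0 b.mem0
  rwa [T.Cv_zero] at this

/-- transport of `κ` and `c` -/
lemma trans {γ : Γ} {t : ℝ} {q : Par} (hq : q.2.2 ∈ Icc (-d) d)
    (hz : γ • T.Fl (crossProduct (T.kp x) (T.cc l x)) x t =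
      T.Ps l (crossProduct (T.kp x) (T.cc l x)) x q) :
    (T.Br γ).mulVec (T.kp x) = T.kp (T.Cv l x q.2.2) ∧
    ∃ r : ℝ, (T.Br γ).mulVec (T.cc l x) = r • T.cc l (T.Cv l x q.2.2) ∧
      r ^ 2 * T.S x l l = T.S (T.Cv l x q.2.2) l l := by
  have hc := T.leaf_const b.hx b.h1 b.h2 t
  constructor
  · rw [← b.kp_Ps hq, ← hz, T.kp_smul, hc.1.2.1]
  · have h1 : T.S (T.Cv l x q.2.2) = T.Br γ * T.S x * (T.Br γ)ᵀ := by
      rw [← b.S_Ps hq, ← hz, T.S_smul, T.leaf_S b.hx b.h1 b.h2 t]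
    have h2 := conj_cc (T.S_apply b.hx) (T.S_apply (b.hU _ hq)) (T.cc_self (b.hU _ hq))
      (T.Sll_ne (b.hU _ hq)) h1
    exact ⟨_, h2⟩

lemma exists_mu {γ : Γ} {t : ℝ} {q : Par} (hq : q.2.2 ∈ Icc (-d) d)
    (hz : γ • T.Fl (crossProduct (T.kp x) (T.cc l x)) x t =
      T.Ps l (crossProduct (T.kp x) (T.cc l x)) x q) :
    ∃ μ : ℝ, (T.Br γ)ᵀ.mulVec (crossProduct (T.kp x) (T.cc l x)) =
      μ • crossProduct (T.kp x) (T.cc l x) := by
  obtain ⟨h1, r, h2, -⟩ := b.trans hq hz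
  have hk := b.ker hq
  apply par_of_orth (T.kp_cc_indep b.hx)
  · rw [dotProduct_mulVec, Matrix.vecMul_transpose, h1]
    exact hk.1
  · rw [dotProduct_mulVec, Matrix.vecMul_transpose, h2, smul_dotProduct, hk.2, smul_zero]

/-- the contradiction for a unipotent return -/
lemma close {ε₁ : ℝ} (hε₁ : ∀ (g : Matrix (Fin 3) (Fin 3) ℤ) (μ : ℝ), g.det = 1 →
      ((g.map (Int.cast : ℤ → ℝ))ᵀ).mulVec (crossProduct (T.kp x) (T.cc l x)) =
        μ • crossProduct (T.kp x) (T.cc l x) → 0 < μ →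
      ‖(g.map (Int.cast : ℤ → ℝ)).mulVec (T.kp x) - (T.kp x)‖ < ε₁ →
      (‖(g.map (Int.cast : ℤ → ℝ)).mulVec (T.cc l x) - (T.cc l x)‖ < ε₁ ∨
        ‖(g.map (Int.cast : ℤ → ℝ)).mulVec (T.cc l x) + (T.cc l x)‖ < ε₁) →
      (g - 1) ^ 3 = 0 ∧ ‖(g.map (Int.cast : ℤ → ℝ)).mulVec (T.cc l x) - (T.cc l x)‖ < ε₁)
    (hs1 : ∀ p ∈ Icc (-d) d, ‖T.kp (T.Cv l x p) - T.kp x‖ < ε₁)
    (hs2 : ∀ p ∈ Icc (-d) d,
      ‖Real.sqrt (T.S (T.Cv l x p) l l / T.S x l l) • T.cc l (T.Cv l x p) - T.cc l x‖ < ε₁)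
    {γ : Γ} {t : ℝ} {q : Par} (hq : q.2.2 ∈ Ioo (-d) d)
    (hz : γ • T.Fl (crossProduct (T.kp x) (T.cc l x)) x t =
      T.Ps l (crossProduct (T.kp x) (T.cc l x)) x q)
    (hdet : (T.B γ).det = 1) {μ : ℝ} (hμ : 0 < μ)
    (hg : (T.Br γ)ᵀ.mulVec (crossProduct (T.kp x) (T.cc l x)) =
      μ • crossProduct (T.kp x) (T.cc l x)) (hne : T.B γ ≠ 1) : False := by
  have hq' := Ioo_subset_Icc_self hq
  have hx := b.hx
  obtain ⟨h1, r, h2, h3⟩ := b.trans hq' hz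
  set a := crossProduct (T.kp x) (T.cc l x) with ha
  -- the unipotence
  have hS0 := T.Sll_ne hx
  have hr2 : T.S (T.Cv l x q.2.2) l l / T.S x l l = r ^ 2 := by
    rw [← h3]; field_simp
  have hc : ‖(T.Br γ).mulVec (T.cc l x) - T.cc l x‖ < ε₁ ∨
      ‖(T.Br γ).mulVec (T.cc l x) + T.cc l x‖ < ε₁ := by
    have h4 := hs2 _ hq'
    rw [hr2, Real.sqrt_sq_eq_abs] at h4
    rw [h2]
    rcases le_total 0 r with hr | hr
    · left
      rwa [abs_of_nonneg hr] at h4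
    · right
      rw [abs_of_nonpos hr] at h4
      rw [← norm_neg]
      have e : -(r • T.cc l (T.Cv l x q.2.2) + T.cc l x) =
        -r • T.cc l (T.Cv l x q.2.2) - T.cc l x := by
        rw [neg_smul]; abel
      rw [e]
      exact h4
  obtain ⟨hu, -⟩ := hε₁ (T.B γ) μ hdet hg hμ (by
    show ‖(T.Br γ).mulVec (T.kp x) - T.kp x‖ < ε₁
    rw [h1]
    exact hs1 _ hq') hc
  -- the integral vector
  obtain ⟨k, hk0, hk1, hk2⟩ := Pool.Agent.JobAlg.exists_int_in_plane b.ha hg hu hne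
  have hrv : Pool.Agent.JobAlg.rv k = TAct.rv k := rfl
  rw [hrv] at hk2
  -- the Hamiltonian
  have hH : TAct.rv k ⬝ᵥ T.ph (T.Cv l x q.2.2) = TAct.rv k ⬝ᵥ T.ph x := by
    have e1 : TAct.rv k ⬝ᵥ T.ph (T.Ps l a x q) = TAct.rv k ⬝ᵥ T.ph (T.Cv l x q.2.2) := by
      rw [b.ph_Ps hq', dotProduct_add, dotProduct_smul, hk2, smul_zero, add_zero]
    have e2 : TAct.rv k ⬝ᵥ T.ph (T.Fl a x t) = TAct.rv k ⬝ᵥ T.ph x := by
      rw [T.leaf_ph hx b.h1 b.h2 t, dotProduct_add, dotProduct_smul, hk2, smul_zero, add_zero]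
    have e3 : (T.Br γ).mulVec (TAct.rv k) = TAct.rv k := by
      have h5 : (T.Br γ).mulVec (TAct.rv k) = TAct.rv ((T.B γ).mulVec k) := by
        ext i
        simp [Br, TAct.rv, mulVec, dotProduct]
      rw [h5, hk1]
    have e4 := T.hB γ (TAct.rv k) (T.Fl a x t)
    have e5 : ((T.B γ).map (Int.cast : ℤ → ℝ)).mulVec (TAct.rv k) = TAct.rv k := e3
    rw [e5, T.H_eq, T.H_eq, hz, e1, e2] at e4
    exact e4
  -- hence the transversal coordinate vanishes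
  have hp0 : q.2.2 = 0 := by
    by_contra hp
    have hder : ∀ p ∈ Icc (-d) d, HasDerivAt (fun s => TAct.rv k ⬝ᵥ T.ph (T.Cv l x s))
        (TAct.rv k ⬝ᵥ dv T.ph (T.Cv l x p) (T.ι.V (T.kl l) (T.Cv l x p))) p := by
      intro p _
      exact HasDerivAt.fun_sum fun i _ => (T.deriv_Cv l x (T.sm_ph i) p).const_mul _
    have hnz : ∀ p ∈ Icc (-d) d,
        TAct.rv k ⬝ᵥ dv T.ph (T.Cv l x p) (T.ι.V (T.kl l) (T.Cv l x p)) ≠ 0 := by
      intro p hp h0
      have hU := b.hU p hp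
      obtain ⟨g1, g2⟩ := b.ker hp
      have hcr : ∃ ρ : ℝ, ρ ≠ 0 ∧ crossProduct (T.kp (T.Cv l x p)) (T.cc l (T.Cv l x p)) =
          ρ • a := by
        refine ⟨_, ?_, T.cross_eq b.ha g1 g2⟩
        exact div_ne_zero (T.cross_a_ne hU b.ha g1 g2)
          (fun h => b.ha (dotProduct_self_eq_zero.1 h))
      obtain ⟨ρ, hρ, hρ2⟩ := hcr
      obtain ⟨α, β, hαβ⟩ := plane_mem (T.kp_cc_indep hU) (v := TAct.rv k) (by
        rw [hρ2, dotProduct_smul, hk2, smul_zero])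
      rw [hαβ, add_dotProduct, smul_dotProduct, smul_dotProduct, T.kp_dph, T.cc_dph hU,
        smul_zero, zero_add, smul_eq_mul] at h0
      have hν : T.nu l (T.Cv l x p) ≠ 0 := (T.nu_pos hU).ne'
      have hβ : β = 0 := by
        rcases mul_eq_zero.1 h0 with h | h
        · exact h
        · rcases mul_eq_zero.1 h with h | h
          · exact absurd h (inv_ne_zero (T.Sll_ne hU))
          · exact absurd h hν
      rw [hβ, zero_smul, add_zero] at hαβ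
      have hα : α ≠ 0 := by
        rintro rfl
        rw [zero_smul] at hαβ
        apply hk0
        ext i
        have := congrFun hαβ i
        simpa [TAct.rv] using this
      refine T.kp_irr (T.Cv l x p) k hk0 α⁻¹ ?_
      rw [hαβ, smul_smul, inv_mul_cancel₀ hα, one_smul]
    rcases lt_or_gt_of_ne hp with hlt | hgt
    · obtain ⟨ξ, hξ, hξ0⟩ := exists_hasDerivAt_eq_zero
        (f := fun s => TAct.rv k ⬝ᵥ T.ph (T.Cv l x s))
        (f' := fun p => TAct.rv k ⬝ᵥ dv T.ph (T.Cv l x p) (T.ι.V (T.kl l) (T.Cv l x p))) hlt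
        (fun p hp => (hder p ⟨by linarith [hp.1, hq.1], by linarith [hp.2, b.hd]⟩
          ).continuousAt.continuousWithinAt)
        (by
          show TAct.rv k ⬝ᵥ T.ph (T.Cv l x q.2.2) = TAct.rv k ⬝ᵥ T.ph (T.Cv l x 0)
          rw [hH, T.Cv_zero])
        (fun p hp => hder p ⟨by linarith [hp.1, hq.1], by linarith [hp.2, b.hd]⟩)
      exact hnz ξ ⟨by linarith [hξ.1, hq.1], by linarith [hξ.2, b.hd]⟩ hξ0
    · obtain ⟨ξ, hξ, hξ0⟩ := exists_hasDerivAt_eq_zero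
        (f := fun s => TAct.rv k ⬝ᵥ T.ph (T.Cv l x s))
        (f' := fun p => TAct.rv k ⬝ᵥ dv T.ph (T.Cv l x p) (T.ι.V (T.kl l) (T.Cv l x p))) hgt
        (fun p hp => (hder p ⟨by linarith [hp.1, b.hd], by linarith [hp.2, hq.2]⟩
          ).continuousAt.continuousWithinAt)
        (by
          show TAct.rv k ⬝ᵥ T.ph (T.Cv l x 0) = TAct.rv k ⬝ᵥ T.ph (T.Cv l x q.2.2)
          rw [hH, T.Cv_zero])
        (fun p hp => hder p ⟨by linarith [hp.1, b.hd], by linarith [hp.2, hq.2]⟩)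
      exact hnz ξ ⟨by linarith [hξ.1, b.hd], by linarith [hξ.2, hq.2]⟩ hξ0
  rw [hp0, T.Cv_zero] at h1 h2
  -- `g` is the identity on the plane
  have hr : r = 1 := unip_eig (unip_real hu) (T.cc_self hx) h2
  rw [hr, one_smul] at h2
  have hfix : ∀ v : Fin 3 → ℝ, v ⬝ᵥ a = 0 →
      ((T.B γ).map (Int.cast : ℤ → ℝ)).mulVec v = v := by
    intro v hv
    obtain ⟨α, β, rfl⟩ := plane_mem (T.kp_cc_indep hx) hv
    show (T.Br γ).mulVec _ = _
    rw [Matrix.mulVec_add, Matrix.mulVec_smul, Matrix.mulVec_smul, h1, h2]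
  obtain ⟨ρ, hρ0, s, hρ⟩ := Pool.Agent.JobAlg.rational_of_fixed hne hfix
  -- a rational direction on the transversal
  have hcurve : ∃ p' ∈ Ioo (-d) d, crossProduct (T.kp (T.Cv l x 0)) (T.kp (T.Cv l x p')) ≠ 0 := by
    by_contra hcon
    push Not at hcon
    rw [T.Cv_zero] at hcon
    have h5 := T.deriv_kp_Cv (l := l) (x := x) (t := 0) (b.hU 0 b.mem0)
    have h6 := (LinearMap.toContinuousLinearMap
      (crossProduct (T.kp x))).hasFDerivAt.comp_hasDerivAt 0 h5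
    have h7 : ((LinearMap.toContinuousLinearMap (crossProduct (T.kp x))) ∘
        fun s => T.kp (T.Cv l x s)) =ᶠ[𝓝 0] fun _ => 0 := by
      filter_upwards [isOpen_Ioo.mem_nhds
        (show (0:ℝ) ∈ Ioo (-d) d from ⟨by linarith [b.hd], b.hd⟩)] with p' hp'
      exact hcon p' hp'
    have h8 := (h6.congr_of_eventuallyEq h7.symm).unique (hasDerivAt_const (0:ℝ) (0 : Fin 3 → ℝ))
    have h9 : crossProduct (T.kp x) (T.nu l (T.Cv l x 0) • T.cc l (T.Cv l x 0)) = 0 := h8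
    rw [T.Cv_zero, map_smul] at h9
    exact b.ha ((smul_eq_zero.1 h9).resolve_left (T.nu_pos hx).ne')
  obtain ⟨p', hp', hp'2⟩ := hcurve
  obtain ⟨t', -, k', hk'0, s', hk'⟩ := Pool.Agent.JobAlg.exists_rational_on_curve
    (f := fun p => T.kp (T.Cv l x p)) (a := -d) (b := d) (p := 0) (q := p')
    (T.cont_kp.comp (T.cont_Cv l x)).continuousOn ⟨by linarith [b.hd], b.hd⟩ hp' hp'2 ρ hρ0
    (fun t ht => by
      rw [hρ, smul_dotProduct, dotProduct_comm, (b.ker (Ioo_subset_Icc_self ht)).1, smul_zero])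
  exact T.kp_irr _ k' hk'0 s' hk'

end Bx

end flow

end Tor

end Pool.Agent.TH607
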