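import Mathlib
import Pool.Agent.TH607.Close

/-! Closing a leaf produces a critical point: the geometric part. -/

open scoped Topology ContDiff Manifold
open Set Metric Bundle Matrix Pool.Agent.Helper186 Pool.Agent.H826R2.Wein

noncomputable section

namespace Pool.Agent.TH607

set_option linter.unusedSectionVars false

universe u v w

namespace Tor

variable {E : Type u} [NormedAddCommGroup E] [NormedSpace ℝ E] [FiniteDimensional ℝ E]
  {P : Type v} [TopologicalSpace P] [ChartedSpace E P] [IsManifold 𝓘(ℝ, E) ∞ P]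
  {Γ : Type w} [Group Γ] [MulAction Γ P] (T : Tor E P Γ)

/-- deck transformations are isometries -/
lemma D_smul (γ : Γ) (x : P) (v : TangentSpace 𝓘(ℝ, E) x) :
    T.ι.D (γ • x) (mfderiv 𝓘(ℝ, E) 𝓘(ℝ, E) (fun y : P => γ • y) x v) = T.ι.D x v := by
  have h1 : mfderiv 𝓘(ℝ, E) 𝓘(ℝ, EuclideanSpace ℝ (Fin T.n)) (T.ι.F ∘ fun y : P => γ • y) x =
      (mfderiv 𝓘(ℝ, E) 𝓘(ℝ, EuclideanSpace ℝ (Fin T.n)) T.ι.F (γ • x)).comp
        (mfderiv 𝓘(ℝ, E) 𝓘(ℝ, E) (fun y : P => γ • y) x) :=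
    mfderiv_comp x (T.ι.smooth.mdifferentiableAt (by simp))
      ((T.𝒟.smooth γ).mdifferentiableAt (by simp))
  have h2 : T.ι.F ∘ (fun y : P => γ • y) = T.ι.F := funext (T.𝒟.F_inv γ)
  rw [h2] at h1
  exact (DFunLike.congr_fun h1 v).symm

section flow

variable [T2Space P] [SigmaCompactSpace P]

lemma exists_box {l : Fin 3} {x : P} (hx : x ∈ T.U l) {ε₁ : ℝ} (hε₁ : 0 < ε₁) :
    ∃ d : ℝ, T.Bx l (crossProduct (T.kp x) (T.cc l x)) x d ∧
      (∀ p ∈ Icc (-d) d, ‖T.kp (T.Cv l x p) - T.kp x‖ < ε₁) ∧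
      (∀ p ∈ Icc (-d) d,
        ‖Real.sqrt (T.S (T.Cv l x p) l l / T.S x l l) • T.cc l (T.Cv l x p) -
          T.cc l x‖ < ε₁) := by
  have hc0 : Filter.Tendsto (T.Cv l x) (𝓝 0) (𝓝 x) := by
    have := (T.cont_Cv l x).tendsto 0
    rwa [T.Cv_zero] at this
  have e1 : ∀ᶠ p in 𝓝 (0:ℝ), T.Cv l x p ∈ T.U l := hc0.eventually_mem ((T.isOpen_U l).mem_nhds hx)
  have e2 : ∀ᶠ p in 𝓝 (0:ℝ), ‖T.kp (T.Cv l x p) - T.kp x‖ < ε₁ := by
    have h1 : Filter.Tendsto (fun p => ‖T.kp (T.Cv l x p) - T.kp x‖) (𝓝 0) (𝓝 0) := by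
      have h2 := (((T.cont_kp.tendsto x).comp hc0).sub_const (T.kp x)).norm
      rw [sub_self, norm_zero] at h2
      exact h2
    exact h1.eventually_lt_const hε₁
  have e3 : ∀ᶠ p in 𝓝 (0:ℝ),
      ‖Real.sqrt (T.S (T.Cv l x p) l l / T.S x l l) • T.cc l (T.Cv l x p) - T.cc l x‖ < ε₁ := by
    have h1 : Filter.Tendsto (fun p => ‖Real.sqrt (T.S (T.Cv l x p) l l / T.S x l l) •
        T.cc l (T.Cv l x p) - T.cc l x‖) (𝓝 0) (𝓝 0) := by
      have h2 : Filter.Tendsto (fun p => T.S (T.Cv l x p) l l / T.S x l l) (𝓝 0)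
          (𝓝 (T.S x l l / T.S x l l)) := (((T.cont_Sll l).tendsto x).comp hc0).div_const _
      rw [div_self (T.Sll_ne hx)] at h2
      have h3 := (Real.continuous_sqrt.tendsto 1).comp h2
      rw [Real.sqrt_one] at h3
      have h4 := (T.cont_cc hx).tendsto.comp hc0
      have h5 := ((h3.smul h4).sub_const (T.cc l x)).norm
      rw [one_smul, sub_self, norm_zero] at h5
      exact h5
    exact h1.eventually_lt_const hε₁
  obtain ⟨δ, hδ, hball⟩ := Metric.eventually_nhds_iff.1 ((e1.and e2).and e3)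
  have hin : ∀ p ∈ Icc (-(δ/2)) (δ/2), dist p 0 < δ := by
    intro p hp
    rw [Real.dist_eq, sub_zero]
    exact lt_of_le_of_lt (abs_le.2 hp) (by linarith)
  exact ⟨δ / 2, ⟨by positivity, fun p hp => (hball (hin p hp)).1.1, dot_self_cross _ _,
    dot_cross_self _ _, T.kp_cc_indep hx⟩, fun p hp => (hball (hin p hp)).1.2,
    fun p hp => (hball (hin p hp)).2⟩

theorem not_mem_U {l : Fin 3} {x : P} : x ∉ T.U l := by
  intro hx
  obtain ⟨ε₁, hε₁, hnear⟩ := Pool.Agent.JobAlg.unipotent_of_near (T.kp x) (T.cc l x)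
    (T.kp_cc_indep hx)
  obtain ⟨d, b, hs1, hs2⟩ := T.exists_box hx hε₁
  set a := crossProduct (T.kp x) (T.cc l x) with ha
  have ha0 : a ≠ 0 := b.ha
  obtain ⟨ε, hε, hpath⟩ := b.path
  obtain ⟨c, hc, htt⟩ := b.tt_bound
  have htt0 : ∀ r : ℝ, c * |r| ≤ |T.tt a x r| := fun r => by
    have := htt 0 b.mem0 r
    rwa [T.Cv_zero] at this
  choose γ' hγ' using fun j : ℕ => T.𝒟.cover (T.Fl a x j)
  obtain ⟨y, hyD, hy⟩ := T.𝒟.compact.exists_mapClusterPt_of_frequently (l := Filter.atTop)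
    (f := fun j : ℕ => γ' j • T.Fl a x j) (Filter.Eventually.of_forall hγ').frequently
  obtain ⟨O, hO, hshort⟩ := JobWT.short_paths T.ι y hε
  set J : Set ℕ := {j | γ' j • T.Fl a x j ∈ O} with hJ
  have hJinf : J.Infinite := Nat.frequently_atTop_iff_infinite.1 (hy.frequently hO)
  have hret : ∀ i ∈ J, ∀ j ∈ J, ∃ q : Par, q.2.2 ∈ Ioo (-d) d ∧
      ((γ' j)⁻¹ * γ' i) • T.Fl a x i = T.Ps l a x q := by
    intro i hi j hj
    obtain ⟨p, hp0, hp1, hp⟩ := hshort _ hj _ hi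
    obtain ⟨q, hq, hq2⟩ := hpath (fun σ => (γ' j)⁻¹ • p σ) j
      (by show (γ' j)⁻¹ • p 0 = _; rw [hp0, inv_smul_smul]) (fun σ hσ => by
        obtain ⟨v, hv, hv2⟩ := hp σ hσ
        refine ⟨(mfderiv 𝓘(ℝ, E) 𝓘(ℝ, E) (fun y : P => (γ' j)⁻¹ • y) (p σ) v : E), ?_, ?_⟩
        · have h1 := HasMFDerivAt.comp σ (g := fun y : P => (γ' j)⁻¹ • y) (f := p)
            ((T.𝒟.smooth (γ' j)⁻¹).mdifferentiableAt (by simp)).hasMFDerivAt hv
          refine h1.congr_mfderiv ?_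
          refine ContinuousLinearMap.ext fun (r : ℝ) => ?_
          exact map_smul (mfderiv 𝓘(ℝ, E) 𝓘(ℝ, E) (fun y : P => (γ' j)⁻¹ • y) (p σ)) r v
        · have h1 := T.D_smul (γ' j)⁻¹ (p σ) v
          exact (congrArg norm h1).le.trans hv2)
    refine ⟨q, hq, ?_⟩
    rw [← hq2]
    show _ = (γ' j)⁻¹ • p 1
    rw [hp1, mul_smul]
  -- finite fibres
  have hfib : ∀ M : Matrix (Fin 3) (Fin 3) ℤ, (J ∩ (fun j => T.B (γ' j)) ⁻¹' {M}).Finite := by
    intro M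
    obtain ⟨i₀, hi₀⟩ : ∃ i, a i ≠ 0 := by
      by_contra hcon
      push Not at hcon
      exact ha0 (funext hcon)
    have hcont : Continuous (fun z => |((M.map (Int.cast : ℤ → ℝ))ᵀ.mulVec (T.ph z)) i₀|) := by
      have e : (fun z => |((M.map (Int.cast : ℤ → ℝ))ᵀ.mulVec (T.ph z)) i₀|) =
        fun z => |∑ k, (M.map (Int.cast : ℤ → ℝ))ᵀ i₀ k * T.ph z k| := rfl
      rw [e]
      exact (continuous_finsetSum _ fun k _ =>
        continuous_const.mul (T.sm_ph k).continuous).abs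
    obtain ⟨C, hC⟩ := T.𝒟.compact.bddAbove_image hcont.continuousOn
    have hai : 0 < |a i₀| := abs_pos.2 hi₀
    refine Set.Finite.subset (Set.finite_Iic ⌈(C + |T.ph x i₀|) / (c * |a i₀|)⌉₊) ?_
    rintro j ⟨-, hj⟩
    have hj' : T.B (γ' j) = M := hj
    have h1 := hC ⟨_, hγ' j, rfl⟩
    dsimp only at h1
    have h2 := congrFun (T.ph_smul (γ' j) (T.Fl a x j)) i₀
    have h3 : (M.map (Int.cast : ℤ → ℝ)) = T.Br (γ' j) := by rw [← hj']; rfl
    rw [h3, ← h2, T.leaf_ph hx b.h1 b.h2 j] at h1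
    have h4 : |T.tt a x j * a i₀| ≤ C + |T.ph x i₀| := by
      have h5 : T.tt a x j * a i₀ = (T.ph x + T.tt a x j • a) i₀ - T.ph x i₀ := by
        show _ = (T.ph x i₀ + T.tt a x j * a i₀) - T.ph x i₀
        ring
      rw [h5]
      exact (abs_sub _ _).trans (add_le_add h1 le_rfl)
    rw [abs_mul] at h4
    have h5 := htt0 j
    rw [abs_of_nonneg (Nat.cast_nonneg j)] at h5
    show j ≤ _
    apply Nat.cast_le (α := ℝ) |>.1
    refine le_trans ?_ (Nat.le_ceil _)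
    rw [le_div_iff₀ (by positivity)]
    calc (j:ℝ) * (c * |a i₀|) = (c * j) * |a i₀| := by ring
      _ ≤ |T.tt a x j| * |a i₀| := mul_le_mul_of_nonneg_right h5 hai.le
      _ ≤ C + |T.ph x i₀| := h4
  have himg : ((fun j => T.B (γ' j)) '' J).Infinite := fun hfin =>
    hJinf (Set.Finite.of_finite_fibers (fun j => T.B (γ' j)) hfin fun M _ => hfib M)
  -- eigenvalues
  obtain ⟨j₀, hj₀⟩ := hJinf.nonempty
  have hμ : ∀ i ∈ J, ∀ j ∈ J, ∃ μ : ℝ, (T.Br ((γ' j)⁻¹ * γ' i))ᵀ.mulVec a = μ • a := by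
    intro i hi j hj
    obtain ⟨q, hq, hz⟩ := hret i hi j hj
    exact b.exists_mu (Ioo_subset_Icc_self hq) hz
  have hμf : ∀ i, ∃ μ : ℝ, i ∈ J → (T.Br ((γ' j₀)⁻¹ * γ' i))ᵀ.mulVec a = μ • a := by
    intro i
    by_cases hi : i ∈ J
    · obtain ⟨μ, h⟩ := hμ i hi j₀ hj₀
      exact ⟨μ, fun _ => h⟩
    · exact ⟨0, fun h => absurd h hi⟩
  choose μf hμf using hμf
  have hμne : ∀ i ∈ J, μf i ≠ 0 := by
    intro i hi h0
    have h1 := hμf i hi
    rw [h0, zero_smul] at h1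
    have h2 : (T.Br ((γ' j₀)⁻¹ * γ' i)⁻¹)ᵀ.mulVec
        ((T.Br ((γ' j₀)⁻¹ * γ' i))ᵀ.mulVec a) = a := by
      rw [Matrix.mulVec_mulVec, ← Matrix.transpose_mul, T.Br_mul_inv, Matrix.transpose_one,
        Matrix.one_mulVec]
    rw [h1, Matrix.mulVec_zero] at h2
    exact ha0 h2.symm
  have hsec : ∀ M : Matrix (Fin 3) (Fin 3) ℤ, ∃ j : ℕ,
      M ∈ (fun j => T.B (γ' j)) '' J → j ∈ J ∧ T.B (γ' j) = M := by
    intro M
    by_cases hM : M ∈ (fun j => T.B (γ' j)) '' J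
    · obtain ⟨j, hj, hj2⟩ := hM
      exact ⟨j, fun _ => ⟨hj, hj2⟩⟩
    · exact ⟨0, fun h => absurd h hM⟩
  choose js hjs using hsec
  obtain ⟨M, hM, M', hM', hne, hcol⟩ := himg.exists_ne_map_eq_of_mapsTo
    (f := fun M => ((0 < μf (js M) : Prop), (M.det = 1 : Prop))) (mapsTo_univ _ _)
    Set.finite_univ
  obtain ⟨hi, hiM⟩ := hjs M hM
  obtain ⟨hj, hjM⟩ := hjs M' hM'
  set i := js M with hidef
  set j := js M' with hjdef
  obtain ⟨q, hq, hz⟩ := hret i hi j hj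
  obtain ⟨μ, hgμ⟩ := hμ i hi j hj
  have hcol1 : (0 < μf i) = (0 < μf j) := congrArg Prod.fst hcol
  have hcol2 : (M.det = 1) = (M'.det = 1) := congrArg Prod.snd hcol
  -- the determinant
  have hunit : ∀ γ : Γ, (T.B γ).det = 1 ∨ (T.B γ).det = -1 := by
    intro γ
    have h2 : (T.B γ).det * (T.B γ⁻¹).det = 1 := by
      rw [← Matrix.det_mul, ← map_mul, mul_inv_cancel, map_one, Matrix.det_one]
    exact Int.isUnit_iff.1 (IsUnit.of_mul_eq_one _ h2)
  have hdet : (T.B ((γ' j)⁻¹ * γ' i)).det = 1 := by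
    have h1 : (T.B (γ' j)).det * (T.B ((γ' j)⁻¹ * γ' i)).det = (T.B (γ' i)).det := by
      rw [← Matrix.det_mul, ← map_mul, mul_inv_cancel_left]
    rw [hiM, hjM] at h1
    rcases hunit (γ' i) with h | h <;> rcases hunit (γ' j) with h' | h' <;>
      rw [hiM] at h <;> rw [hjM] at h' <;> rw [h, h'] at h1 hcol2
    · linarith
    · exact absurd (hcol2.mp rfl) (by norm_num)
    · exact absurd (hcol2.mpr rfl) (by norm_num)
    · linarith
  have hBne : T.B ((γ' j)⁻¹ * γ' i) ≠ 1 := by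
    intro h
    apply hne
    have h1 : T.B (γ' j) * T.B ((γ' j)⁻¹ * γ' i) = T.B (γ' i) := by
      rw [← map_mul, mul_inv_cancel_left]
    rw [h, mul_one, hiM, hjM] at h1
    exact h1.symm
  have hprod : μf i = μf j * μ := by
    have h1 : T.Br ((γ' j₀)⁻¹ * γ' i) = T.Br ((γ' j₀)⁻¹ * γ' j) * T.Br ((γ' j)⁻¹ * γ' i) := by
      rw [← T.Br_mul]
      congr 1
      group
    have h2 := hμf i hi
    rw [h1, Matrix.transpose_mul, ← Matrix.mulVec_mulVec, hμf j hj, Matrix.mulVec_smul, hgμ,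
      smul_smul] at h2
    have h3 : (μf j * μ - μf i) • a = 0 := by rw [sub_smul, h2, sub_self]
    have h4 := (smul_eq_zero.1 h3).resolve_right ha0
    linarith
  have hμpos : 0 < μ := by
    have n1 := hμne i hi
    have n2 := hμne j hj
    rcases lt_or_gt_of_ne n2 with h | h
    · have h1 : ¬ (0 < μf i) := by
        rw [hcol1]; exact not_lt.2 h.le
      have h2 : μf i < 0 := lt_of_le_of_ne (not_lt.1 h1) n1
      rw [hprod] at h2
      by_contra hcon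
      exact absurd h2 (not_lt.2 (mul_nonneg_of_nonpos_of_nonpos h.le (not_lt.1 hcon)))
    · have h1 : 0 < μf i := by rw [hcol1]; exact h
      rw [hprod] at h1
      exact (mul_pos_iff_of_pos_left h).1 h1
  exact b.close hnear hs1 hs2 hq hz hdet hμpos hgμ hBne

end flow

end Tor

end Pool.Agent.TH607
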