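import Mathlib
import Pool.Agent.TH607.Close2
import Pool.Agent.H826R2.Wein.Bridge

/-! Periodic Reeb orbits for closed contact five-manifolds with a local torus symmetry. -/

open scoped Topology ContDiff Manifold
open Set Metric Bundle Matrix Pool.Agent.Helper186 Pool.Agent.H826R2.Wein

noncomputable section

namespace Pool.Agent.TH607

set_option linter.unusedSectionVars false

universe u v w

variable {E : Type u} [NormedAddCommGroup E] [NormedSpace ℝ E] [FiniteDimensional ℝ E]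
  {P : Type v} [TopologicalSpace P] [ChartedSpace E P] [IsManifold 𝓘(ℝ, E) ∞ P]
  {Γ : Type w} [Group Γ] [MulAction Γ P]

lemma rv_mulVec {m : ℕ} (C : Matrix (Fin m) (Fin m) ℤ) (k : Fin m → ℤ) :
    (TAct.rv (C.mulVec k) : Fin m → ℝ) = (C.map (Int.cast : ℤ → ℝ)).mulVec (TAct.rv k) := by
  ext i
  simp [TAct.rv, Matrix.mulVec, dotProduct]

/-- critical points for the maximal rank in dimension five -/
theorem exists_crit_toric [T2Space P] [SigmaCompactSpace P] [ConnectedSpace P]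
    {β : (x : P) → TangentSpace 𝓘(ℝ, E) x →L[ℝ] ℝ} (hc : IsContact β)
    {R : (x : P) → TangentSpace 𝓘(ℝ, E) x} (hR : IsReeb β R) (A : TAct β 3)
    {n : ℕ} {ι : Imm (E := E) P n} (𝒟 : Deck ι Γ) (hN : A.Norm Γ)
    (hd : Module.finrank ℝ E = 5) :
    ∃ k : Fin 3 → ℤ, k ≠ 0 ∧ ∃ x, dForm 𝓘(ℝ, E) (A.H (TAct.rv k)) x = 0 := by
  by_contra hno
  push Not at hno
  obtain ⟨B, hB⟩ := A.exists_monodromy hc hR 𝒟 hN
  set T : Tor E P Γ := ⟨β, hc, R, hR, A, n, ι, 𝒟, hN, hd, hno, B, hB⟩ with hT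
  have hdk : ∀ (l : Fin 3) (x : P), dForm 𝓘(ℝ, E) (T.kl l) x = 0 := fun l x =>
    T.dkl_zero (fun l => T.not_mem_U) l
  have hconst : ∀ x y : P, T.kp x = T.kp y := by
    intro x y
    ext l
    exact JobWT.const_of_dForm_zero (T.sm_kl l) (hdk l) x y
  obtain ⟨x₀⟩ : Nonempty P := inferInstance
  have hne : T.kp x₀ ≠ 0 := by
    intro h
    have := T.kp_ph x₀
    rw [h, zero_dotProduct] at this
    exact zero_ne_one this
  obtain ⟨k, hk, hfix⟩ := Pool.Agent.JobAlg.exists_int_fixed (fun γ : Γ => B γ) (T.kp x₀) hne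
    (fun γ => by
      have h1 := T.kp_smul γ x₀
      rw [hconst (γ • x₀) x₀] at h1
      exact h1.symm)
  obtain ⟨k', hk', x, hx⟩ := A.exists_crit_of_finite hc hR 𝒟 hN hk (Set.finite_singleton k)
    (fun γ => ⟨k, rfl, fun x => by
      have h1 := hB γ (TAct.rv k) x
      rw [← rv_mulVec, hfix γ] at h1
      exact h1⟩)
  exact hno k' hk' x hx

/-- critical points for rank one -/
theorem exists_crit_one [T2Space P] [SigmaCompactSpace P] [Nonempty P]
    {β : (x : P) → TangentSpace 𝓘(ℝ, E) x →L[ℝ] ℝ} (hc : IsContact β)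
    {R : (x : P) → TangentSpace 𝓘(ℝ, E) x} (hR : IsReeb β R) (A : TAct β 1)
    {n : ℕ} {ι : Imm (E := E) P n} (𝒟 : Deck ι Γ) (hN : A.Norm Γ) :
    ∃ k : Fin 1 → ℤ, k ≠ 0 ∧ ∃ x, dForm 𝓘(ℝ, E) (A.H (TAct.rv k)) x = 0 := by
  obtain ⟨B, hB⟩ := A.exists_monodromy hc hR 𝒟 hN
  have hk₀ : (fun _ => 1 : Fin 1 → ℤ) ≠ 0 := fun h => one_ne_zero (congrFun h 0)
  refine A.exists_crit_of_finite hc hR 𝒟 hN hk₀
    (S := {(fun _ => 1 : Fin 1 → ℤ), (fun _ => -1 : Fin 1 → ℤ)}) (by simp)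
    (fun γ => ⟨(B γ).mulVec (fun _ => 1), ?_, fun x => ?_⟩)
  · have h2 : (B γ).det * (B γ⁻¹).det = 1 := by
      rw [← Matrix.det_mul, ← map_mul, mul_inv_cancel, map_one, Matrix.det_one]
    have h3 := Int.isUnit_iff.1 (IsUnit.of_mul_eq_one _ h2)
    rw [Matrix.det_fin_one] at h3
    have h4 : (B γ).mulVec (fun _ => 1) = fun _ => B γ 0 0 := by
      ext i
      fin_cases i
      simp [mulVec, dotProduct]
    rw [h4]
    rcases h3 with h | h
    · left; rw [h]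
    · right; rw [h]; rfl
  · have h1 := hB γ (TAct.rv (fun _ => 1)) x
    rw [← rv_mulVec] at h1
    exact h1

/-- critical points in dimension five, all ranks -/
theorem exists_crit_five [T2Space P] [SigmaCompactSpace P] [ConnectedSpace P]
    {β : (x : P) → TangentSpace 𝓘(ℝ, E) x →L[ℝ] ℝ} (hc : IsContact β)
    {R : (x : P) → TangentSpace 𝓘(ℝ, E) x} (hR : IsReeb β R) {m : ℕ} (hm : 0 < m) (A : TAct β m)
    {n : ℕ} {ι : Imm (E := E) P n} (𝒟 : Deck ι Γ) (hN : A.Norm Γ)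
    (hd : Module.finrank ℝ E = 5) :
    ∃ k : Fin m → ℤ, k ≠ 0 ∧ ∃ x, dForm 𝓘(ℝ, E) (A.H (TAct.rv k)) x = 0 := by
  have : LocallyPathConnectedSpace P := ChartedSpace.locallyPathConnectedSpace E P
  have : PathConnectedSpace P := pathConnectedSpace_iff_connectedSpace.2 inferInstance
  obtain ⟨x₀⟩ : Nonempty P := inferInstance
  have hle := rank_le A hc hR x₀
  rw [hd] at hle
  have hm4 : m ≤ 3 := by omega
  interval_cases m
  · exact exists_crit_one hc hR A 𝒟 hN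
  · exact A.exists_crit_rank_two hc hR 𝒟 hN
  · exact exists_crit_toric hc hR A 𝒟 hN hd

theorem exists_closed_orbit_five {M : Type*} [TopologicalSpace M] [ChartedSpace E M]
    [IsManifold 𝓘(ℝ, E) ∞ M] [T2Space M] [CompactSpace M]
    (hd : Module.finrank ℝ E = 5)
    {α : (x : M) → TangentSpace 𝓘(ℝ, E) x →L[ℝ] ℝ} (hα : IsContact α)
    {R : (x : M) → TangentSpace 𝓘(ℝ, E) x} (hR : IsReeb α R)
    [T2Space P] [SigmaCompactSpace P] [ConnectedSpace P]
    {q : P → M} (hq : RegCover (E := E) q Γ) {m : ℕ} (hm : 0 < m)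
    (A : TAct (pullForm 𝓘(ℝ, E) 𝓘(ℝ, E) q α) m)
    (hA : ∀ γ : Γ, ∃ B : Matrix (Fin m) (Fin m) ℤ, ∀ (θ : Fin m → ℝ) (x : P),
      γ • A.act θ x = A.act ((B.map (Int.cast : ℤ → ℝ)).mulVec θ) (γ • x)) :
    ∃ (c : ℝ → M) (T : ℝ), 0 < T ∧ IsMIntegralCurve (I := 𝓘(ℝ, E)) c R ∧
      ∀ t, c (t + T) = c t := by
  obtain ⟨n, ι, ⟨𝒟⟩⟩ := hq.exists_deck
  have hN : A.Norm Γ := ⟨hq.strict α, hA⟩
  have hcP := hq.isContact_pull hα
  have hRP := hq.isReeb_lift hα hR
  apply hq.closed_proj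
  obtain ⟨k, hk, x, hx⟩ := exists_crit_five hcP hRP hm A 𝒟 hN hd
  exact A.closed_of_crit hcP hRP hk hx

end Pool.Agent.TH607

namespace Pool.Agent.H826R2.WStmt

set_option linter.unusedSectionVars false

universe u

variable {E : Type u} [NormedAddCommGroup E] [NormedSpace ℝ E] [FiniteDimensional ℝ E]
  {M : Type*} [TopologicalSpace M] [ChartedSpace E M] [IsManifold 𝓘(ℝ, E) ∞ M]
  {P : Type*} [TopologicalSpace P] [ChartedSpace E P] [IsManifold 𝓘(ℝ, E) ∞ P]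

theorem exists_periodic_five [T2Space M] [CompactSpace M]
    (hd : Module.finrank ℝ E = 5)
    (α : M → Cov E) (hα : IsContact α) (R : M → E) (hR : IsReeb α R)
    [T2Space P] [SigmaCompactSpace P] [ConnectedSpace P]
    {Γ : Type*} [Group Γ] [MulAction Γ P] (q : P → M) (hq : IsQuotientMap E q Γ)
    {m : ℕ} (hm : 0 < m) (A : TorusAction (pull (E := E) q α) m) (hA : Normalises Γ A.act) :
    ∃ (c : ℝ → M) (T : ℝ), IsPeriodicOrbit R c T := by
  obtain ⟨c, T, h1, h2, h3⟩ := Pool.Agent.TH607.exists_closed_orbit_five hd hα.toWein hR.toWein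
    hq.toWein hm A.toWein hA
  exact ⟨c, T, h1, h2, h3⟩

end Pool.Agent.H826R2.WStmt
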